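import Pool.Agent.Helper25.LG.Def

/-!
# LG-BET: the quadratic form at the Taylor polynomials

`∫_0^1 u^i (1-u)^j du = i! j!/(i+j+1)!`, and with `φ_n(u) = u^(2n) (1-u)²`, `hT M a = ∑_{n ≤ M} ep n a^(2n) φ_n`,
`φ_n' = 2n u^(2n-1) (1-u)² - 2 u^(2n) (1-u)`:
`∫ φ_n φ_m = Bt (2n+2m) 4`, `∫ φ_n' φ_m' = 4nm Bt (2n+2m-2) 4 - 4(n+m) Bt (2n+2m-1) 3 + 4 Bt (2n+2m) 2`,
`∫ φ_n(u) φ_m(1-u) = Bt (2n+2) (2m+2)`,
`∫ φ_n'(u) φ_m'(1-u) = 4nm Bt (2n+1) (2m+1) - 4n Bt (2n) (2m+2) - 4m Bt (2n+2) (2m) + 4 Bt (2n+1) (2m+1)`.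
(Terms with a factor `n` or `m` or `n + m` equal to `0` vanish, so the truncated subtractions are harmless.)
-/

open MeasureTheory Set Filter Topology

namespace Pool.Agent.Helper25.LG

theorem beta_int (i j : ℕ) : ∫ u in (0:ℝ)..1, u ^ i * (1 - u) ^ j = Bt i j := by
  induction j generalizing i with
  | zero =>
    simp only [pow_zero, mul_one, Bt, Nat.factorial_zero, Nat.cast_one, add_zero]
    rw [integral_pow, Nat.factorial_succ]
    have h : (i.factorial : ℝ) ≠ 0 := by positivity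
    have h2 : ((i : ℝ) + 1) ≠ 0 := by positivity
    push_cast
    field_simp
    simp
  | succ j ih =>
    have e : ∀ u : ℝ, u ^ i * (1 - u) ^ (j + 1) = u ^ i * (1 - u) ^ j - u ^ (i + 1) * (1 - u) ^ j := by
      intro u; ring
    simp only [e]
    rw [intervalIntegral.integral_sub, ih, ih]
    · have e1 : i + 1 + j + 1 = (i + j + 1) + 1 := by ring
      have e2 : i + (j + 1) + 1 = (i + j + 1) + 1 := by ring
      simp only [Bt]
      rw [e1, e2, Nat.factorial_succ (i + j + 1), Nat.factorial_succ i, Nat.factorial_succ j]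
      have h : ((i + j + 1).factorial : ℝ) ≠ 0 := by positivity
      have h2 : ((i : ℝ) + j + 1 + 1) ≠ 0 := by positivity
      push_cast
      field_simp
      ring
    · exact (by fun_prop : Continuous fun u : ℝ => u ^ i * (1 - u) ^ j).intervalIntegrable _ _
    · exact (by fun_prop : Continuous fun u : ℝ => u ^ (i + 1) * (1 - u) ^ j).intervalIntegrable _ _

lemma hT_deriv (M : ℕ) (a u : ℝ) : HasDerivAt (hT M a) (hT' M a u) u := by
  have h1 : HasDerivAt (fun u : ℝ => (1 - u) ^ 2) (-2 * (1 - u)) u := by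
    have := ((hasDerivAt_id u).const_sub 1).pow 2
    refine this.congr_deriv ?_
    simp
  have h2 : HasDerivAt (fun u : ℝ => ∑ n ∈ Finset.range (M + 1), (a * u) ^ (2 * n) / ((2 * n).factorial : ℝ))
      (∑ n ∈ Finset.range (M + 1), (2 * n : ℝ) * a * (a * u) ^ (2 * n - 1) / ((2 * n).factorial : ℝ)) u := by
    refine HasDerivAt.fun_sum fun n _ => ?_
    refine HasDerivAt.div_const ?_ _
    have := ((hasDerivAt_id u).const_mul a).pow (2 * n)
    refine this.congr_deriv ?_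
    simp
    ring
  have h3 := h1.mul ((h2.const_mul 2).sub_const 1)
  exact h3

lemma hT'_cont (M : ℕ) (a : ℝ) : Continuous (hT' M a) := by
  unfold hT'
  fun_prop

lemma hT_one (M : ℕ) (a : ℝ) : hT M a 1 = 0 := by
  simp [hT]

private lemma sumep88 (M : ℕ) (x : ℝ) : 2 * ∑ n ∈ Finset.range (M + 1), x ^ (2 * n) / ((2 * n).factorial : ℝ) - 1 =
    ∑ n ∈ Finset.range (M + 1), ep n * x ^ (2 * n) := by
  induction M with
  | zero => simp [ep]; norm_num
  | succ M ih =>
    rw [Finset.sum_range_succ, Finset.sum_range_succ _ (M + 1), ← ih]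
    have : ep (M + 1) = 2 / ((2 * (M + 1)).factorial : ℝ) := by simp [ep]
    rw [this]
    ring

lemma hT_zero (M : ℕ) (a : ℝ) : hT M a 0 = 1 := by
  unfold hT
  rw [sumep88, Finset.sum_eq_single 0]
  · simp [ep]
  · intro b _ hb
    have : 2 * b ≠ 0 := by omega
    simp [hb]
  · intro h
    simp at h

/-- the functions `φ_n`. -/
private noncomputable def ph88 (n : ℕ) (u : ℝ) : ℝ := u ^ (2 * n) * (1 - u) ^ 2

/-- their derivatives. -/
private noncomputable def pd88 (n : ℕ) (u : ℝ) : ℝ :=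
  2 * n * u ^ (2 * n - 1) * (1 - u) ^ 2 - 2 * u ^ (2 * n) * (1 - u)

private lemma hT_eq88 (M : ℕ) (a u : ℝ) :
    hT M a u = ∑ n ∈ Finset.range (M + 1), (ep n * a ^ (2 * n)) * ph88 n u := by
  unfold hT
  rw [sumep88, Finset.mul_sum]
  refine Finset.sum_congr rfl fun n _ => ?_
  rw [ph88, mul_pow]
  ring

private lemma hT'_eq88 (M : ℕ) (a u : ℝ) :
    hT' M a u = ∑ n ∈ Finset.range (M + 1), (ep n * a ^ (2 * n)) * pd88 n u := by
  unfold hT'
  rw [sumep88, Finset.mul_sum, Finset.mul_sum, Finset.mul_sum, ← Finset.sum_add_distrib]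
  refine Finset.sum_congr rfl fun n _ => ?_
  rcases Nat.eq_zero_or_pos n with rfl | hn
  · simp [pd88, ep]
  · have h1 : ep n = 2 / ((2 * n).factorial : ℝ) := by simp [ep, hn.ne']
    obtain ⟨k, rfl⟩ : ∃ k, n = k + 1 := ⟨n - 1, by omega⟩
    have h2 : 2 * (k + 1) - 1 = 2 * k + 1 := by omega
    have h3 : 2 * (k + 1) = 2 * k + 2 := by ring
    rw [pd88, h1, h2, h3, mul_pow, mul_pow]
    push_cast
    ring

private lemma bil88 (s : Finset ℕ) (c : ℕ → ℝ) (P Q : ℕ → ℝ → ℝ) (hP : ∀ n, Continuous (P n))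
    (hQ : ∀ n, Continuous (Q n)) :
    ∫ u in (0:ℝ)..1, (∑ n ∈ s, c n * P n u) * (∑ m ∈ s, c m * Q m u) =
      ∑ n ∈ s, ∑ m ∈ s, c n * c m * ∫ u in (0:ℝ)..1, P n u * Q m u := by
  have e : ∀ u : ℝ, (∑ n ∈ s, c n * P n u) * (∑ m ∈ s, c m * Q m u) =
      ∑ n ∈ s, ∑ m ∈ s, c n * c m * (P n u * Q m u) := by
    intro u
    rw [Finset.sum_mul_sum]
    refine Finset.sum_congr rfl fun n _ => Finset.sum_congr rfl fun m _ => ?_
    ring
  simp only [e]
  rw [intervalIntegral.integral_finsetSum]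
  · refine Finset.sum_congr rfl fun n _ => ?_
    rw [intervalIntegral.integral_finsetSum]
    · refine Finset.sum_congr rfl fun m _ => ?_
      rw [intervalIntegral.integral_const_mul]
    · intro m _
      exact (continuous_const.mul ((hP n).mul (hQ m))).intervalIntegrable _ _
  · intro n _
    exact (continuous_finsetSum _ fun m _ =>
      continuous_const.mul ((hP n).mul (hQ m))).intervalIntegrable _ _

private lemma ph_cont88 (n : ℕ) : Continuous (ph88 n) := by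
  unfold ph88
  fun_prop

private lemma pd_cont88 (n : ℕ) : Continuous (pd88 n) := by
  unfold pd88
  fun_prop

private lemma comb88 (c : ℝ) (i j : ℕ) :
    IntervalIntegrable (fun u : ℝ => c * (u ^ i * (1 - u) ^ j)) volume 0 1 :=
  (by fun_prop : Continuous fun u : ℝ => c * (u ^ i * (1 - u) ^ j)).intervalIntegrable _ _

private lemma I1_88 (n m : ℕ) : ∫ u in (0:ℝ)..1, ph88 n u * ph88 m u = Bt (2 * n + 2 * m) 4 := by
  rw [← beta_int]
  congr 1
  funext u
  simp only [ph88]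
  ring

private lemma I3_88 (n m : ℕ) : ∫ u in (0:ℝ)..1, ph88 n u * ph88 m (1 - u) = Bt (2 * n + 2) (2 * m + 2) := by
  rw [← beta_int]
  congr 1
  funext u
  simp only [ph88]
  ring

private lemma I2_88 (n m : ℕ) : ∫ u in (0:ℝ)..1, pd88 n u * pd88 m u =
    4 * (n * m : ℝ) * Bt (2 * n + 2 * m - 2) 4 -
    4 * ((n : ℝ) + m) * Bt (2 * n + 2 * m - 1) 3 + 4 * Bt (2 * n + 2 * m) 2 := by
  have e : ∀ u : ℝ, pd88 n u * pd88 m u =
      4 * (n * m : ℝ) * (u ^ (2 * n + 2 * m - 2) * (1 - u) ^ 4) -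
      4 * ((n : ℝ) + m) * (u ^ (2 * n + 2 * m - 1) * (1 - u) ^ 3) +
      4 * (u ^ (2 * n + 2 * m) * (1 - u) ^ 2) := by
    intro u
    simp only [pd88]
    rcases Nat.eq_zero_or_pos n with rfl | hn
    · rcases Nat.eq_zero_or_pos m with rfl | hm
      · simp
        ring
      · obtain ⟨l, rfl⟩ : ∃ l, m = l + 1 := ⟨m - 1, by omega⟩
        have h1 : 2 * (l + 1) - 1 = 2 * l + 1 := by omega
        have h2 : 2 * 0 + 2 * (l + 1) - 1 = 2 * l + 1 := by omega
        rw [h1, h2]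
        push_cast
        ring
    · obtain ⟨k, rfl⟩ : ∃ k, n = k + 1 := ⟨n - 1, by omega⟩
      rcases Nat.eq_zero_or_pos m with rfl | hm
      · have h1 : 2 * (k + 1) - 1 = 2 * k + 1 := by omega
        have h2 : 2 * (k + 1) + 2 * 0 - 1 = 2 * k + 1 := by omega
        rw [h1, h2]
        push_cast
        ring
      · obtain ⟨l, rfl⟩ : ∃ l, m = l + 1 := ⟨m - 1, by omega⟩
        have h1 : 2 * (k + 1) - 1 = 2 * k + 1 := by omega
        have h1' : 2 * (l + 1) - 1 = 2 * l + 1 := by omega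
        have h2 : 2 * (k + 1) + 2 * (l + 1) - 1 = 2 * k + 2 * l + 3 := by omega
        have h3 : 2 * (k + 1) + 2 * (l + 1) - 2 = 2 * k + 2 * l + 2 := by omega
        rw [h1, h1', h2, h3]
        push_cast
        ring
  simp only [e]
  rw [intervalIntegral.integral_add ((comb88 _ _ _).sub (comb88 _ _ _)) (comb88 _ _ _),
    intervalIntegral.integral_sub (comb88 _ _ _) (comb88 _ _ _),
    intervalIntegral.integral_const_mul, intervalIntegral.integral_const_mul,
    intervalIntegral.integral_const_mul, beta_int, beta_int, beta_int]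

private lemma I4_88 (n m : ℕ) : ∫ u in (0:ℝ)..1, pd88 n u * pd88 m (1 - u) =
    4 * (n * m : ℝ) * Bt (2 * n + 1) (2 * m + 1) -
    4 * (n : ℝ) * Bt (2 * n) (2 * m + 2) - 4 * (m : ℝ) * Bt (2 * n + 2) (2 * m) +
    4 * Bt (2 * n + 1) (2 * m + 1) := by
  have e : ∀ u : ℝ, pd88 n u * pd88 m (1 - u) =
      4 * (n * m : ℝ) * (u ^ (2 * n + 1) * (1 - u) ^ (2 * m + 1)) -
      4 * (n : ℝ) * (u ^ (2 * n) * (1 - u) ^ (2 * m + 2)) -
      4 * (m : ℝ) * (u ^ (2 * n + 2) * (1 - u) ^ (2 * m)) +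
      4 * (u ^ (2 * n + 1) * (1 - u) ^ (2 * m + 1)) := by
    intro u
    simp only [pd88, sub_sub_cancel]
    rcases Nat.eq_zero_or_pos n with rfl | hn
    · rcases Nat.eq_zero_or_pos m with rfl | hm
      · simp
        ring
      · obtain ⟨l, rfl⟩ : ∃ l, m = l + 1 := ⟨m - 1, by omega⟩
        have h1 : 2 * (l + 1) - 1 = 2 * l + 1 := by omega
        rw [h1]
        push_cast
        ring
    · obtain ⟨k, rfl⟩ : ∃ k, n = k + 1 := ⟨n - 1, by omega⟩
      have h1 : 2 * (k + 1) - 1 = 2 * k + 1 := by omega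
      rcases Nat.eq_zero_or_pos m with rfl | hm
      · rw [h1]
        push_cast
        ring
      · obtain ⟨l, rfl⟩ : ∃ l, m = l + 1 := ⟨m - 1, by omega⟩
        have h1' : 2 * (l + 1) - 1 = 2 * l + 1 := by omega
        rw [h1, h1']
        push_cast
        ring
  simp only [e]
  rw [intervalIntegral.integral_add (((comb88 _ _ _).sub (comb88 _ _ _)).sub (comb88 _ _ _)) (comb88 _ _ _),
    intervalIntegral.integral_sub ((comb88 _ _ _).sub (comb88 _ _ _)) (comb88 _ _ _),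
    intervalIntegral.integral_sub (comb88 _ _ _) (comb88 _ _ _),
    intervalIntegral.integral_const_mul, intervalIntegral.integral_const_mul,
    intervalIntegral.integral_const_mul, intervalIntegral.integral_const_mul,
    beta_int, beta_int, beta_int]

theorem Qw_hT (γ r : ℝ) (M : ℕ) (a : ℝ) : Qw γ r (hT M a) (hT' M a) = QP γ r M a := by
  have j1 : ∫ u in (0:ℝ)..1, hT M a u ^ 2 = ∑ n ∈ Finset.range (M + 1), ∑ m ∈ Finset.range (M + 1),
      (ep n * a ^ (2 * n)) * (ep m * a ^ (2 * m)) * Bt (2 * n + 2 * m) 4 := by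
    simp only [sq, hT_eq88]
    rw [bil88 _ (fun n => ep n * a ^ (2 * n)) ph88 ph88 ph_cont88 ph_cont88]
    simp only [I1_88]
  have j2 : ∫ u in (0:ℝ)..1, hT' M a u ^ 2 = ∑ n ∈ Finset.range (M + 1), ∑ m ∈ Finset.range (M + 1),
      (ep n * a ^ (2 * n)) * (ep m * a ^ (2 * m)) * (4 * (n * m : ℝ) * Bt (2 * n + 2 * m - 2) 4 -
    4 * ((n : ℝ) + m) * Bt (2 * n + 2 * m - 1) 3 + 4 * Bt (2 * n + 2 * m) 2) := by
    simp only [sq, hT'_eq88]
    rw [bil88 _ (fun n => ep n * a ^ (2 * n)) pd88 pd88 pd_cont88 pd_cont88]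
    simp only [I2_88]
  have j3 : ∫ u in (0:ℝ)..1, hT M a u * hT M a (1 - u) = ∑ n ∈ Finset.range (M + 1),
      ∑ m ∈ Finset.range (M + 1),
      (ep n * a ^ (2 * n)) * (ep m * a ^ (2 * m)) * Bt (2 * n + 2) (2 * m + 2) := by
    simp only [hT_eq88]
    rw [bil88 _ (fun n => ep n * a ^ (2 * n)) ph88 (fun m u => ph88 m (1 - u)) ph_cont88
      (fun m => (ph_cont88 m).comp (by fun_prop))]
    simp only [I3_88]
  have j4 : ∫ u in (0:ℝ)..1, hT' M a u * hT' M a (1 - u) = ∑ n ∈ Finset.range (M + 1),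
      ∑ m ∈ Finset.range (M + 1),
      (ep n * a ^ (2 * n)) * (ep m * a ^ (2 * m)) * (4 * (n * m : ℝ) * Bt (2 * n + 1) (2 * m + 1) -
    4 * (n : ℝ) * Bt (2 * n) (2 * m + 2) - 4 * (m : ℝ) * Bt (2 * n + 2) (2 * m) +
    4 * Bt (2 * n + 1) (2 * m + 1)) := by
    simp only [hT'_eq88]
    rw [bil88 _ (fun n => ep n * a ^ (2 * n)) pd88 (fun m u => pd88 m (1 - u)) pd_cont88
      (fun m => (pd_cont88 m).comp (by fun_prop))]
    simp only [I4_88]
  unfold Qw QP
  rw [j1, j2, j3, j4]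
  simp only [Finset.mul_sum, ← Finset.sum_add_distrib, ← Finset.sum_sub_distrib]
  refine Finset.sum_congr rfl fun n _ => Finset.sum_congr rfl fun m _ => ?_
  have e : a ^ (2 * (n + m)) = a ^ (2 * n) * a ^ (2 * m) := by rw [← pow_add]; ring_nf
  rw [e, Kc]
  ring

end Pool.Agent.Helper25.LG
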