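import Pool.Agent.Helper25.LG.Def

/-!
# LG-KER: the kernel on the line

`qk 0 b = 4 (1 - sin b / b) / b²` (integrate by parts twice: `∫_0^1 (1-u)² cos(bu) du = (2/b²)(1 - sin b/b)`).
Antitone: for `b > 0` the derivative of `4 (b - sin b)/b³` is `4 (3 sin b - 2 b - b cos b)/b⁴ ≤ 0` (Cusa:
`φ(b) = b (2 + cos b) - 3 sin b ≥ 0`: for `b ≥ π` clear since `b ≥ 3`; on `[0, π]` `φ(0) = φ'(0) = φ''(0) = 0`,
`φ''' = b sin b ≥ 0`); at `b = 0` use continuity of `qk 0` (or the value 2/3).
-/

open MeasureTheory Set Filter Topology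
open Pool.Agent.Helper54.LG

namespace Pool.Agent.Helper25.LG

lemma qk_neg (a b : ℝ) : qk a (-b) = qk a b := by
  unfold qk
  simp only [neg_mul, Real.cos_neg]

lemma qk_neg_left (a b : ℝ) : qk (-a) b = qk a b := by
  unfold qk
  simp only [neg_mul, Real.cosh_neg]

lemma qk_cont (a : ℝ) : Continuous (qk a) := by
  unfold qk
  apply Continuous.mul continuous_const
  apply intervalIntegral.continuous_parametric_intervalIntegral_of_continuous'
  have : (Function.uncurry fun (b : ℝ) (u : ℝ) => (1 - u) ^ 2 * Real.cosh (a * u) * Real.cos (b * u)) =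
      fun p : ℝ × ℝ => (1 - p.2) ^ 2 * Real.cosh (a * p.2) * Real.cos (p.1 * p.2) := by
    funext p; rfl
  rw [this]
  fun_prop

lemma qk0_formula {b : ℝ} (hb : b ≠ 0) : qk 0 b = 4 * (1 - Real.sin b / b) / b ^ 2 := by
  unfold qk
  have h1 : ∀ u : ℝ, (1 - u) ^ 2 * Real.cosh (0 * u) * Real.cos (b * u) = (1 - u) ^ 2 * Real.cos (b * u) := by
    intro u; simp
  simp only [h1]
  have hder : ∀ u ∈ Set.uIcc (0:ℝ) 1, HasDerivAt
      (fun u : ℝ => (1 - u) ^ 2 * Real.sin (b * u) / b - 2 * (1 - u) * Real.cos (b * u) / b ^ 2 -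
        2 * Real.sin (b * u) / b ^ 3) ((1 - u) ^ 2 * Real.cos (b * u)) u := by
    intro u _
    have hl : HasDerivAt (fun u : ℝ => 1 - u) (-1) u := by
      simpa using (hasDerivAt_id u).const_sub 1
    have hbu : HasDerivAt (fun u : ℝ => b * u) b u := by
      simpa using (hasDerivAt_id u).const_mul b
    have hs : HasDerivAt (fun u : ℝ => Real.sin (b * u)) (Real.cos (b * u) * b) u :=
      (Real.hasDerivAt_sin (b * u)).comp u hbu
    have hc : HasDerivAt (fun u : ℝ => Real.cos (b * u)) (-Real.sin (b * u) * b) u :=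
      (Real.hasDerivAt_cos (b * u)).comp u hbu
    have t1 := ((hl.pow 2).mul hs).div_const b
    have t2 := ((hl.const_mul 2).mul hc).div_const (b ^ 2)
    have t3 := (hs.const_mul 2).div_const (b ^ 3)
    have h := (t1.sub t2).sub t3
    refine HasDerivAt.congr_deriv h ?_
    simp only [Pi.pow_apply]
    field_simp
    push_cast
    ring
  rw [intervalIntegral.integral_eq_sub_of_hasDerivAt hder
    (by apply Continuous.intervalIntegrable; fun_prop)]
  simp only [sub_self, mul_one, mul_zero, Real.sin_zero, Real.cos_zero, sub_zero]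
  field_simp
  ring

lemma qk0_nonneg (b : ℝ) : 0 ≤ qk 0 b := by
  rcases eq_or_ne b 0 with rfl | hb
  · unfold qk
    apply mul_nonneg (by norm_num)
    apply intervalIntegral.integral_nonneg (by norm_num)
    intro u _
    simp only [zero_mul, Real.cosh_zero, Real.cos_zero, mul_one]
    positivity
  · rw [qk0_formula hb]
    apply div_nonneg _ (by positivity)
    have h1 : Real.sin b / b ≤ 1 := by
      have h2 : |Real.sin b / b| ≤ 1 := by
        rw [abs_div, div_le_one (abs_pos.mpr hb)]
        exact Real.abs_sin_le_abs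
      exact (le_abs_self _).trans h2
    linarith

lemma qk0_le {b : ℝ} (hb : b ≠ 0) : qk 0 b ≤ 8 / b ^ 2 := by
  rw [qk0_formula hb]
  apply div_le_div_of_nonneg_right _ (by positivity)
  have h1 : -1 ≤ Real.sin b / b := by
    have h2 : |Real.sin b / b| ≤ 1 := by
      rw [abs_div, div_le_one (abs_pos.mpr hb)]
      exact Real.abs_sin_le_abs
    exact (abs_le.mp h2).1
  linarith

private lemma sin_sub63 {b : ℝ} (h0 : 0 ≤ b) (h1 : b ≤ Real.pi) : 0 ≤ Real.sin b - b * Real.cos b := by
  have hm : MonotoneOn (fun x : ℝ => Real.sin x - x * Real.cos x) (Set.Icc 0 Real.pi) := by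
    apply monotoneOn_of_deriv_nonneg (convex_Icc 0 Real.pi)
    · fun_prop
    · fun_prop
    · intro x hx
      rw [interior_Icc] at hx
      have hd : HasDerivAt (fun x : ℝ => Real.sin x - x * Real.cos x) (x * Real.sin x) x := by
        have h := (Real.hasDerivAt_sin x).sub ((hasDerivAt_id x).mul (Real.hasDerivAt_cos x))
        refine HasDerivAt.congr_deriv h ?_
        simp
      rw [hd.deriv]
      exact mul_nonneg hx.1.le (Real.sin_nonneg_of_nonneg_of_le_pi hx.1.le hx.2.le)
  have := hm (Set.left_mem_Icc.mpr Real.pi_pos.le) (Set.mem_Icc.mpr ⟨h0, h1⟩) h0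
  simpa using this

private lemma dcusa63 {b : ℝ} (h0 : 0 ≤ b) (h1 : b ≤ Real.pi) : 0 ≤ 2 - 2 * Real.cos b - b * Real.sin b := by
  have hm : MonotoneOn (fun x : ℝ => 2 - 2 * Real.cos x - x * Real.sin x) (Set.Icc 0 Real.pi) := by
    apply monotoneOn_of_deriv_nonneg (convex_Icc 0 Real.pi)
    · fun_prop
    · fun_prop
    · intro x hx
      rw [interior_Icc] at hx
      have hd : HasDerivAt (fun x : ℝ => 2 - 2 * Real.cos x - x * Real.sin x) (Real.sin x - x * Real.cos x) x := by
        have h := (((Real.hasDerivAt_cos x).const_mul 2).const_sub 2).sub ((hasDerivAt_id x).mul (Real.hasDerivAt_sin x))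
        refine HasDerivAt.congr_deriv h ?_
        simp
        ring
      rw [hd.deriv]
      exact sin_sub63 hx.1.le hx.2.le
  have := hm (Set.left_mem_Icc.mpr Real.pi_pos.le) (Set.mem_Icc.mpr ⟨h0, h1⟩) h0
  simpa using this

private lemma cusa63 {b : ℝ} (h0 : 0 ≤ b) : 0 ≤ b * (2 + Real.cos b) - 3 * Real.sin b := by
  rcases le_total b Real.pi with h1 | h1
  · have hm : MonotoneOn (fun x : ℝ => x * (2 + Real.cos x) - 3 * Real.sin x) (Set.Icc 0 Real.pi) := by
      apply monotoneOn_of_deriv_nonneg (convex_Icc 0 Real.pi)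
      · fun_prop
      · fun_prop
      · intro x hx
        rw [interior_Icc] at hx
        have hd : HasDerivAt (fun x : ℝ => x * (2 + Real.cos x) - 3 * Real.sin x)
            (2 - 2 * Real.cos x - x * Real.sin x) x := by
          have h := ((hasDerivAt_id x).mul ((Real.hasDerivAt_cos x).const_add 2)).sub ((Real.hasDerivAt_sin x).const_mul 3)
          refine HasDerivAt.congr_deriv h ?_
          simp
          ring
        rw [hd.deriv]
        exact dcusa63 hx.1.le hx.2.le
    have := hm (Set.left_mem_Icc.mpr Real.pi_pos.le) (Set.mem_Icc.mpr ⟨h0, h1⟩) h0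
    simpa using this
  · have h3 := Real.pi_gt_three
    have hc := Real.neg_one_le_cos b
    have hs := Real.sin_le_one b
    nlinarith

lemma qk0_anti : AntitoneOn (fun b => qk 0 b) (Ici 0) := by
  apply antitoneOn_of_deriv_nonpos (convex_Ici 0)
  · exact (qk_cont 0).continuousOn
  · intro b hb
    rw [interior_Ici] at hb
    have hb0 : (0:ℝ) < b := hb
    have hev : (fun b => qk 0 b) =ᶠ[𝓝 b] fun b => 4 * (b - Real.sin b) / b ^ 3 := by
      filter_upwards [lt_mem_nhds hb0] with x hx
      rw [qk0_formula hx.ne']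
      field_simp
    have hd : DifferentiableAt ℝ (fun b : ℝ => 4 * (b - Real.sin b) / b ^ 3) b := by
      apply DifferentiableAt.div
      · fun_prop
      · fun_prop
      · positivity
    exact (hd.congr_of_eventuallyEq hev).differentiableWithinAt
  · intro b hb
    rw [interior_Ici] at hb
    have hb0 : (0:ℝ) < b := hb
    have hev : (fun b => qk 0 b) =ᶠ[𝓝 b] fun b => 4 * (b - Real.sin b) / b ^ 3 := by
      filter_upwards [lt_mem_nhds hb0] with x hx
      rw [qk0_formula hx.ne']
      field_simp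
    rw [hev.deriv_eq]
    have hd : HasDerivAt (fun b : ℝ => 4 * (b - Real.sin b) / b ^ 3)
        (-(4 * (b * (2 + Real.cos b) - 3 * Real.sin b)) / b ^ 4) b := by
      have hn : HasDerivAt (fun b : ℝ => 4 * (b - Real.sin b)) (4 * (1 - Real.cos b)) b :=
        ((hasDerivAt_id b).sub (Real.hasDerivAt_sin b)).const_mul 4
      have hp : HasDerivAt (fun b : ℝ => b ^ 3) (3 * b ^ 2) b := by
        simpa using hasDerivAt_pow 3 b
      have h := hn.div hp (by positivity)
      refine HasDerivAt.congr_deriv h ?_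
      field_simp
      ring
    rw [hd.deriv]
    apply div_nonpos_of_nonpos_of_nonneg _ (by positivity)
    have := cusa63 hb0.le
    linarith

/-- `qk 0 b - 2 qk a b = Fh (hA a) b`. -/
lemma qk_sub (a b : ℝ) : qk 0 b - 2 * qk a b = Fh (hA a) b := by
  unfold qk Fh hA
  have i1 : IntervalIntegrable (fun u : ℝ => (1 - u) ^ 2 * Real.cosh (0 * u) * Real.cos (b * u)) volume 0 1 := by
    apply Continuous.intervalIntegrable; fun_prop
  have i2 : IntervalIntegrable (fun u : ℝ => (1 - u) ^ 2 * Real.cosh (a * u) * Real.cos (b * u)) volume 0 1 := by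
    apply Continuous.intervalIntegrable; fun_prop
  have e : ∫ u in (0:ℝ)..1, (1 - u) ^ 2 * (2 * Real.cosh (a * u) - 1) * Real.cos (b * u) =
      2 * (∫ u in (0:ℝ)..1, (1 - u) ^ 2 * Real.cosh (a * u) * Real.cos (b * u)) -
      ∫ u in (0:ℝ)..1, (1 - u) ^ 2 * Real.cosh (0 * u) * Real.cos (b * u) := by
    rw [← intervalIntegral.integral_const_mul, ← intervalIntegral.integral_sub (i2.const_mul 2) i1]
    apply intervalIntegral.integral_congr
    intro u _
    simp only [zero_mul, Real.cosh_zero]
    ring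
  rw [e]
  ring

end Pool.Agent.Helper25.LG
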