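import Pool.Agent.Helper25.LG.Pla
import Pool.Agent.Helper25.LG.Ker

/-!
# LG-BIG: deep zeros, crude bound

`ek a b ≤ |Fh (hA a) b|`, even `∫ ek a = (1/2)(∫ |Fh (hA a)| + ∫ Fh (hA a)) ≤ (1/2) ∫ |Fh (hA a)|` (`Fh_integrable`: the integral
of `Fh (hA a)` is `-2π < 0`). `abs_part_le` with `A = a`: `∫ |Fh| ≤ 2π sqrt(a (∫ h² + ∫ h'²/a²))`. Here
`0 ≤ h_a ≤ (1-u)² e^{au}` (since `2 cosh x - 1 ≤ e^x` for `x ≥ 0`) so `∫ h² ≤ ∫ (1-u)^4 e^{2au} ≤ 24 e^{2a}/(2a)^5 = (3/4) e^{2a}/a^5`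
(substitute `v = 1-u`, extend to `(0, ∞)`), and `h_a' = -2(1-u)(2cosh(au) - 1) + (1-u)² 2a sinh(au)` is a difference of nonnegative
terms `≤ 2(1-u)e^{au}`, `≤ a (1-u)² e^{au}`, so `h_a'² ≤ 4(1-u)² e^{2au} + a²(1-u)^4 e^{2au}`, `∫ h'² ≤ e^{2a}/a³ + (3/4) e^{2a}/a³`.
Total: `a(3/4 + 7/4)/a^5 e^{2a} = (5/2) e^{2a}/a^4`, `π sqrt(5/2) e^a/a² ≤ 5 e^a/a²`.
-/

open MeasureTheory Set Filter Topology
open Pool.Agent.Helper54.LG

namespace Pool.Agent.Helper25.LG

/-- the derivative of `hA a` -/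
private noncomputable def hA34 (a u : ℝ) : ℝ :=
  -2 * (1 - u) * (2 * Real.cosh (a * u) - 1) + (1 - u) ^ 2 * (2 * (a * Real.sinh (a * u)))

private lemma hA_deriv34 (a u : ℝ) : HasDerivAt (hA a) (hA34 a u) u := by
  have h1 : HasDerivAt (fun u : ℝ => (1 - u) ^ 2) (-2 * (1 - u)) u := by
    have := ((hasDerivAt_id u).const_sub 1).pow 2
    refine this.congr_deriv ?_
    simp
  have h2 : HasDerivAt (fun u : ℝ => a * u) a u := by
    simpa using (hasDerivAt_id u).const_mul a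
  have h3 : HasDerivAt (fun u : ℝ => 2 * Real.cosh (a * u) - 1) (2 * (a * Real.sinh (a * u))) u := by
    have := ((h2.cosh).const_mul 2).sub_const 1
    exact this.congr_deriv (by ring)
  exact h1.mul h3

private lemma hA34_cont (a : ℝ) : Continuous (hA34 a) := by
  unfold hA34
  have h1 : Continuous fun u : ℝ => Real.cosh (a * u) := Real.continuous_cosh.comp (by fun_prop)
  have h2 : Continuous fun u : ℝ => Real.sinh (a * u) := Real.continuous_sinh.comp (by fun_prop)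
  fun_prop

private lemma int2_34 {c : ℝ} (hc : 0 < c) :
    ∫ u in (0:ℝ)..1, (1 - u) ^ 2 * Real.exp (c * u) ≤ 2 * Real.exp c / c ^ 3 := by
  have hd : ∀ u ∈ uIcc (0:ℝ) 1, HasDerivAt
      (fun u : ℝ => Real.exp (c * u) * ((1 - u) ^ 2 / c + 2 * (1 - u) / c ^ 2 + 2 / c ^ 3))
      ((1 - u) ^ 2 * Real.exp (c * u)) u := by
    intro u _
    have h0 : HasDerivAt (fun u : ℝ => c * u) c u := by simpa using (hasDerivAt_id u).const_mul c
    have h1 := h0.exp
    have h2 : HasDerivAt (fun u : ℝ => (1 - u)) (-1) u := by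
      simpa using (hasDerivAt_id u).const_sub 1
    have h3 := (((h2.pow 2).div_const c).add ((h2.const_mul 2).div_const (c ^ 2))).add_const (2 / c ^ 3)
    have h4 := h1.mul h3
    refine h4.congr_deriv ?_
    simp
    field_simp
    ring
  have hi : IntervalIntegrable (fun u : ℝ => (1 - u) ^ 2 * Real.exp (c * u)) volume 0 1 :=
    Continuous.intervalIntegrable (by fun_prop) _ _
  rw [intervalIntegral.integral_eq_sub_of_hasDerivAt hd hi]
  have h5 : 0 ≤ Real.exp (c * 0) * ((1 - 0) ^ 2 / c + 2 * (1 - 0) / c ^ 2 + 2 / c ^ 3) := by positivity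
  have h6 : Real.exp (c * 1) * ((1 - 1) ^ 2 / c + 2 * (1 - 1) / c ^ 2 + 2 / c ^ 3) =
      2 * Real.exp c / c ^ 3 := by
    rw [mul_one]
    ring
  rw [h6]
  linarith

private lemma int4_34 {c : ℝ} (hc : 0 < c) :
    ∫ u in (0:ℝ)..1, (1 - u) ^ 4 * Real.exp (c * u) ≤ 24 * Real.exp c / c ^ 5 := by
  have hd : ∀ u ∈ uIcc (0:ℝ) 1, HasDerivAt
      (fun u : ℝ => Real.exp (c * u) * ((1 - u) ^ 4 / c + 4 * (1 - u) ^ 3 / c ^ 2 +
        12 * (1 - u) ^ 2 / c ^ 3 + 24 * (1 - u) / c ^ 4 + 24 / c ^ 5))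
      ((1 - u) ^ 4 * Real.exp (c * u)) u := by
    intro u _
    have h0 : HasDerivAt (fun u : ℝ => c * u) c u := by simpa using (hasDerivAt_id u).const_mul c
    have h1 := h0.exp
    have h2 : HasDerivAt (fun u : ℝ => (1 - u)) (-1) u := by
      simpa using (hasDerivAt_id u).const_sub 1
    have h3 := (((((h2.pow 4).div_const c).add (((h2.pow 3).const_mul 4).div_const (c ^ 2))).add
      (((h2.pow 2).const_mul 12).div_const (c ^ 3))).add ((h2.const_mul 24).div_const (c ^ 4))).add_const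
      (24 / c ^ 5)
    have h4 := h1.mul h3
    refine h4.congr_deriv ?_
    simp
    field_simp
    ring
  have hi : IntervalIntegrable (fun u : ℝ => (1 - u) ^ 4 * Real.exp (c * u)) volume 0 1 :=
    Continuous.intervalIntegrable (by fun_prop) _ _
  rw [intervalIntegral.integral_eq_sub_of_hasDerivAt hd hi]
  have h5 : 0 ≤ Real.exp (c * 0) * ((1 - 0) ^ 4 / c + 4 * (1 - 0) ^ 3 / c ^ 2 +
        12 * (1 - 0) ^ 2 / c ^ 3 + 24 * (1 - 0) / c ^ 4 + 24 / c ^ 5) := by positivity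
  have h6 : Real.exp (c * 1) * ((1 - 1) ^ 4 / c + 4 * (1 - 1) ^ 3 / c ^ 2 +
        12 * (1 - 1) ^ 2 / c ^ 3 + 24 * (1 - 1) / c ^ 4 + 24 / c ^ 5) =
      24 * Real.exp c / c ^ 5 := by
    rw [mul_one]
    ring
  rw [h6]
  linarith

private lemma ch34 {x : ℝ} (hx : 0 ≤ x) : 0 ≤ 2 * Real.cosh x - 1 ∧ 2 * Real.cosh x - 1 ≤ Real.exp x ∧
    0 ≤ 2 * Real.sinh x ∧ 2 * Real.sinh x ≤ Real.exp x := by
  have h1 := Real.one_le_cosh x
  have h2 : Real.exp (-x) ≤ 1 := Real.exp_le_one_iff.2 (by linarith)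
  have h3 := Real.exp_pos (-x)
  have h4 : 0 ≤ Real.sinh x := Real.sinh_nonneg_iff.2 hx
  have e1 : 2 * Real.cosh x = Real.exp x + Real.exp (-x) := by rw [Real.cosh_eq]; ring
  have e2 : 2 * Real.sinh x = Real.exp x - Real.exp (-x) := by rw [Real.sinh_eq]; ring
  refine ⟨by linarith, by linarith, by linarith, by linarith⟩

private lemma exp_sq34 (a u : ℝ) : Real.exp (a * u) ^ 2 = Real.exp (2 * a * u) := by
  rw [← Real.exp_nat_mul]
  congr 1
  push_cast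
  ring

private lemma hsq34 {a : ℝ} (ha : 0 < a) :
    ∫ u in (0:ℝ)..1, hA a u ^ 2 ≤ 3 / 4 * Real.exp (2 * a) / a ^ 5 := by
  have hcont : Continuous (hA a) :=
    continuous_iff_continuousAt.2 fun u => (hA_deriv34 a u).continuousAt
  have h1 : ∫ u in (0:ℝ)..1, hA a u ^ 2 ≤ ∫ u in (0:ℝ)..1, (1 - u) ^ 4 * Real.exp (2 * a * u) := by
    refine intervalIntegral.integral_mono_on zero_le_one
      ((hcont.pow 2).intervalIntegrable _ _) (Continuous.intervalIntegrable (by fun_prop) _ _) ?_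
    intro u hu
    obtain ⟨c1, c2, -, -⟩ := ch34 (mul_nonneg ha.le hu.1)
    have h2 : (2 * Real.cosh (a * u) - 1) ^ 2 ≤ Real.exp (a * u) ^ 2 := pow_le_pow_left₀ c1 c2 2
    have e0 : (1 - u) ^ 4 = ((1 - u) ^ 2) ^ 2 := by ring
    rw [← exp_sq34, hA, mul_pow, e0]
    exact mul_le_mul_of_nonneg_left h2 (by positivity)
  refine h1.trans ((int4_34 (by linarith : 0 < 2 * a)).trans (le_of_eq ?_))
  field_simp
  norm_num

private lemma hsq'34 {a : ℝ} (ha : 0 < a) :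
    ∫ u in (0:ℝ)..1, hA34 a u ^ 2 ≤ 7 / 4 * Real.exp (2 * a) / a ^ 3 := by
  have hi1 : IntervalIntegrable (fun u : ℝ => 4 * ((1 - u) ^ 2 * Real.exp (2 * a * u))) volume 0 1 :=
    Continuous.intervalIntegrable (by fun_prop) _ _
  have hi2 : IntervalIntegrable (fun u : ℝ => a ^ 2 * ((1 - u) ^ 4 * Real.exp (2 * a * u))) volume 0 1 :=
    Continuous.intervalIntegrable (by fun_prop) _ _
  have h1 : ∫ u in (0:ℝ)..1, hA34 a u ^ 2 ≤ ∫ u in (0:ℝ)..1,
      (4 * ((1 - u) ^ 2 * Real.exp (2 * a * u)) + a ^ 2 * ((1 - u) ^ 4 * Real.exp (2 * a * u))) := by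
    refine intervalIntegral.integral_mono_on zero_le_one
      (((hA34_cont a).pow 2).intervalIntegrable _ _) (hi1.add hi2) ?_
    intro u hu
    obtain ⟨c1, c2, c3, c4⟩ := ch34 (mul_nonneg ha.le hu.1)
    have hu1 : 0 ≤ 1 - u := by linarith [hu.2]
    set E := Real.exp (a * u) with hE
    have hE0 : 0 < E := Real.exp_pos _
    set P := 2 * (1 - u) * (2 * Real.cosh (a * u) - 1) with hP
    set Q := (1 - u) ^ 2 * (2 * (a * Real.sinh (a * u))) with hQ
    have hP0 : 0 ≤ P := mul_nonneg (mul_nonneg zero_le_two hu1) c1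
    have hQ0 : 0 ≤ Q := by
      rw [hQ, show 2 * (a * Real.sinh (a * u)) = a * (2 * Real.sinh (a * u)) by ring]
      positivity
    have hP1 : P ≤ 2 * (1 - u) * E := mul_le_mul_of_nonneg_left c2 (mul_nonneg zero_le_two hu1)
    have hQ1 : Q ≤ (1 - u) ^ 2 * (a * E) := by
      rw [hQ, show 2 * (a * Real.sinh (a * u)) = a * (2 * Real.sinh (a * u)) by ring]
      exact mul_le_mul_of_nonneg_left (mul_le_mul_of_nonneg_left c4 ha.le) (by positivity)
    have hP2 : P ^ 2 ≤ (2 * (1 - u) * E) ^ 2 := pow_le_pow_left₀ hP0 hP1 2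
    have hQ2 : Q ^ 2 ≤ ((1 - u) ^ 2 * (a * E)) ^ 2 := pow_le_pow_left₀ hQ0 hQ1 2
    have e1 : hA34 a u ^ 2 = (Q - P) ^ 2 := by
      rw [hA34, hP, hQ]
      ring
    have e2 : (Q - P) ^ 2 ≤ P ^ 2 + Q ^ 2 := by nlinarith [mul_nonneg hP0 hQ0]
    have e3 : (2 * (1 - u) * E) ^ 2 = 4 * ((1 - u) ^ 2 * Real.exp (2 * a * u)) := by
      rw [← exp_sq34, ← hE]
      ring
    have e4 : ((1 - u) ^ 2 * (a * E)) ^ 2 = a ^ 2 * ((1 - u) ^ 4 * Real.exp (2 * a * u)) := by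
      rw [← exp_sq34, ← hE]
      ring
    rw [e1]
    linarith
  refine h1.trans ?_
  rw [intervalIntegral.integral_add hi1 hi2, intervalIntegral.integral_const_mul,
    intervalIntegral.integral_const_mul]
  have h2 := int2_34 (by linarith : 0 < 2 * a)
  have h4 := int4_34 (by linarith : 0 < 2 * a)
  calc 4 * (∫ u in (0:ℝ)..1, (1 - u) ^ 2 * Real.exp (2 * a * u)) +
        a ^ 2 * ∫ u in (0:ℝ)..1, (1 - u) ^ 4 * Real.exp (2 * a * u)
      ≤ 4 * (2 * Real.exp (2 * a) / (2 * a) ^ 3) + a ^ 2 * (24 * Real.exp (2 * a) / (2 * a) ^ 5) :=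
        add_le_add (mul_le_mul_of_nonneg_left h2 (by norm_num))
          (mul_le_mul_of_nonneg_left h4 (by positivity))
    _ = 7 / 4 * Real.exp (2 * a) / a ^ 3 := by
        field_simp
        norm_num

theorem ek_int_big {a : ℝ} (ha : 1 ≤ a) : ∫ b : ℝ, ek a b ≤ 5 * Real.exp a / a ^ 2 := by
  have ha0 : 0 < a := by linarith
  have hA1 : hA a 1 = 0 := by simp [hA]
  have hA0 : hA a 0 = 1 := by
    simp [hA]
    norm_num
  obtain ⟨hI, hF⟩ := Fh_integrable (hA_deriv34 a) (hA34_cont a) hA1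
  have hek : ∀ b, ek a b = 1 / 2 * (|Fh (hA a) b| + Fh (hA a) b) := by
    intro b
    rw [ek, qk_sub]
    rcases le_total 0 (Fh (hA a) b) with h | h
    · rw [max_eq_right h, abs_of_nonneg h]
      ring
    · rw [max_eq_left h, abs_of_nonpos h]
      ring
  simp_rw [hek]
  rw [integral_const_mul, integral_add hI.abs hI, hF, hA0]
  have h1 := abs_part_le ha0 (hA_deriv34 a) (hA34_cont a) hA1
  have h2 := hsq34 ha0
  have h3 := hsq'34 ha0
  have h4 : a * ((∫ u in (0:ℝ)..1, hA a u ^ 2) + (∫ u in (0:ℝ)..1, hA34 a u ^ 2) / a ^ 2) ≤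
      5 / 2 * (Real.exp a / a ^ 2) ^ 2 := by
    have h5 : (∫ u in (0:ℝ)..1, hA34 a u ^ 2) / a ^ 2 ≤ 7 / 4 * Real.exp (2 * a) / a ^ 3 / a ^ 2 :=
      div_le_div_of_nonneg_right h3 (by positivity)
    calc a * ((∫ u in (0:ℝ)..1, hA a u ^ 2) + (∫ u in (0:ℝ)..1, hA34 a u ^ 2) / a ^ 2)
        ≤ a * (3 / 4 * Real.exp (2 * a) / a ^ 5 + 7 / 4 * Real.exp (2 * a) / a ^ 3 / a ^ 2) :=
          mul_le_mul_of_nonneg_left (add_le_add h2 h5) ha0.le
      _ = 5 / 2 * (Real.exp a / a ^ 2) ^ 2 := by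
          have e : Real.exp (2 * a) = Real.exp a ^ 2 := by
            have := exp_sq34 a 1
            rw [mul_one, mul_one] at this
            exact this.symm
          rw [e]
          field_simp
          norm_num
  have h6 : Real.sqrt (a * ((∫ u in (0:ℝ)..1, hA a u ^ 2) + (∫ u in (0:ℝ)..1, hA34 a u ^ 2) / a ^ 2)) ≤
      Real.sqrt (5 / 2) * (Real.exp a / a ^ 2) := by
    refine (Real.sqrt_le_sqrt h4).trans (le_of_eq ?_)
    rw [Real.sqrt_mul (by norm_num), Real.sqrt_sq (by positivity)]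
  have h7 : Real.pi * Real.sqrt (5 / 2) ≤ 5 := by
    have h8 : Real.sqrt (5 / 2) ≤ 1.5812 := by
      rw [Real.sqrt_le_left (by norm_num)]
      norm_num
    have h9 := Real.pi_lt_d4
    have h10 := Real.pi_pos
    nlinarith [Real.sqrt_nonneg (5 / 2 : ℝ)]
  have h11 : 0 ≤ Real.exp a / a ^ 2 := by positivity
  have hpi := Real.pi_pos
  have h12 : ∫ b, |Fh (hA a) b| ≤ 2 * (5 * (Real.exp a / a ^ 2)) := by
    refine h1.trans ?_
    calc 2 * Real.pi * Real.sqrt (a * ((∫ u in (0:ℝ)..1, hA a u ^ 2) +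
          (∫ u in (0:ℝ)..1, hA34 a u ^ 2) / a ^ 2))
        ≤ 2 * Real.pi * (Real.sqrt (5 / 2) * (Real.exp a / a ^ 2)) :=
          mul_le_mul_of_nonneg_left h6 (by positivity)
      _ = 2 * (Real.pi * Real.sqrt (5 / 2) * (Real.exp a / a ^ 2)) := by ring
      _ ≤ 2 * (5 * (Real.exp a / a ^ 2)) := by
          have := mul_le_mul_of_nonneg_right h7 h11
          linarith
  rw [mul_div_assoc]
  linarith

end Pool.Agent.Helper25.LG
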