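import Pool.Agent.Helper25.LG.Poi

/-!
# LG-NOG (certificate C1): points without a gap longer than `G`

Let `S` be finite with a point in every interval `[x, x + G] ⊆ [-R, R]`. Let `p` be the smallest point of `S` that is
`≥ 0` and `-q'` the largest point `< 0` (they exist if `R ≥ G`), so `p + q' ≤ G`: indeed every interval
`[x, x+G]`, `x > -q'`, `x ≤ 0` contains a point, hence `p ≤ G - q'` by letting `x → -q'` (finite set). By induction there
are distinct points `p_0 = p < p_1 < ...` with `p_{j+1} ≤ p_j + G` as long as `p_j + G < R` (take `p_{j+1}` = the smallest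
point of `S` larger than `p_j`; or pick for each `j` the largest point of `S` in `(p_0 + (j-1)G, p_0 + jG]` ... any choice with
`p_j ≤ p_0 + jG` and the `p_j` distinct), and likewise `-q_j` on the left with `q_0 = q'`. Since `qk 0` is even and
decreasing on `[0, ∞)`, `∑_S qk 0 ≥ ∑_{0≤j≤J} qk 0 (p + jG) + ∑_{0≤j≤J} qk 0 (q' + jG) ≥ ∑_{0≤j≤J} qk 0 (p + jG) + ∑_{0≤j≤J} qk 0 (G - p + jG)`
`= ∑_{-J-1≤j≤J} qk 0 (p + jG)`, which by `poisson` is `2π/G` minus a tail `≤ ∑_{|j|>J} 8/((|j|-1)G)² ≤ 16/(G² (J-1))`,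
with `J ≥ R/G - 3`.
-/

open MeasureTheory Set Filter Topology
open Pool.Agent.Helper54.LG

namespace Pool.Agent.Helper25.LG

private lemma next38 {G R : ℝ} {S : Finset ℝ}
    (h : ∀ x : ℝ, -R ≤ x → x + G ≤ R → ∃ s ∈ S, x ≤ s ∧ s ≤ x + G) {y : ℝ} (h1 : -R ≤ y)
    (h2 : y + G < R) : ∃ s ∈ S, y < s ∧ s ≤ y + G := by
  by_contra hcon
  push Not at hcon
  obtain ⟨e, he, he2⟩ : ∃ e : ℝ, 0 < e ∧ (y + G + e ≤ R ∧ ∀ s ∈ S, y + G < s → y + G + e < s) := by
    have h3 : ∀ T : Finset ℝ, ∃ e : ℝ, 0 < e ∧ ∀ s ∈ T, y + G < s → y + G + e < s := by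
      intro T
      induction T using Finset.induction_on with
      | empty => exact ⟨1, one_pos, fun s hs => absurd hs (Finset.notMem_empty s)⟩
      | insert a T _ ih =>
        obtain ⟨e, he, h⟩ := ih
        rcases le_or_gt a (y + G) with ha | ha
        · refine ⟨e, he, fun s hs h1 => ?_⟩
          rcases Finset.mem_insert.1 hs with rfl | hs
          · linarith
          · exact h s hs h1
        · refine ⟨min e ((a - (y + G)) / 2), lt_min he (by linarith), fun s hs h1 => ?_⟩
          rcases Finset.mem_insert.1 hs with rfl | hs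
          · have := min_le_right e ((s - (y + G)) / 2)
            linarith
          · have := min_le_left e ((a - (y + G)) / 2)
            have := h s hs h1
            linarith
    obtain ⟨e, he, h4⟩ := h3 S
    refine ⟨min e (R - (y + G)), lt_min he (by linarith), ?_, fun s hs h5 => ?_⟩
    · have := min_le_right e (R - (y + G))
      linarith
    · have := min_le_left e (R - (y + G))
      have := h4 s hs h5
      linarith
  obtain ⟨s, hs, h5, h6⟩ := h (y + e) (by linarith) (by linarith [he2.1])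
  have h7 := hcon s hs (by linarith)
  have h8 := he2.2 s hs h7
  linarith

private lemma chain38 {G R : ℝ} (hG : 0 < G) {S : Finset ℝ}
    (h : ∀ x : ℝ, -R ≤ x → x + G ≤ R → ∃ s ∈ S, x ≤ s ∧ s ≤ x + G) (J : ℕ) :
    ∀ p ∈ S, 0 ≤ p → p + J * G < R →
      ∑ j ∈ Finset.range (J + 1), qk 0 (p + j * G) ≤ ∑ s ∈ S.filter (fun s => p ≤ s), qk 0 s := by
  induction J with
  | zero =>
    intro p hp h0 _
    simp only [zero_add, Finset.sum_range_one, Nat.cast_zero, zero_mul, add_zero]
    exact Finset.single_le_sum (f := fun s => qk 0 s) (fun s _ => qk0_nonneg s)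
      (Finset.mem_filter.2 ⟨hp, le_rfl⟩)
  | succ J ih =>
    intro p hp h0 h1
    have hJ : (0 : ℝ) ≤ (J : ℝ) * G := by positivity
    push_cast at h1
    obtain ⟨s, hs, h2, h3⟩ := next38 h (y := p) (by linarith) (by linarith)
    have h4 := ih s hs (by linarith) (by linarith)
    rw [Finset.sum_range_succ']
    simp only [Nat.cast_zero, zero_mul, add_zero]
    have h5 : ∑ j ∈ Finset.range (J + 1), qk 0 (p + ((j + 1 : ℕ) : ℝ) * G) ≤
        ∑ j ∈ Finset.range (J + 1), qk 0 (s + j * G) := by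
      apply Finset.sum_le_sum
      intro j _
      have hj : (0 : ℝ) ≤ (j : ℝ) * G := by positivity
      apply qk0_anti
      · show (0 : ℝ) ≤ s + j * G
        linarith
      · show (0 : ℝ) ≤ p + ((j + 1 : ℕ) : ℝ) * G
        push_cast
        linarith
      · push_cast
        linarith
    have h6 : qk 0 p + ∑ t ∈ S.filter (fun t => s ≤ t), qk 0 t ≤
        ∑ t ∈ S.filter (fun t => p ≤ t), qk 0 t := by
      have h7 : p ∉ S.filter (fun t => s ≤ t) := by
        simp only [Finset.mem_filter, not_and, not_le]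
        exact fun _ => h2
      rw [← Finset.sum_insert (f := fun t => qk 0 t) h7]
      apply Finset.sum_le_sum_of_subset_of_nonneg
      · intro t ht
        rcases Finset.mem_insert.1 ht with rfl | ht
        · exact Finset.mem_filter.2 ⟨hp, le_rfl⟩
        · exact Finset.mem_filter.2 ⟨(Finset.mem_filter.1 ht).1,
            h2.le.trans (Finset.mem_filter.1 ht).2⟩
      · exact fun t _ _ => qk0_nonneg t
    linarith

private lemma sum_Ico38 (f : ℤ → ℝ) (J : ℕ) :
    ∑ j ∈ Finset.Ico (-(J + 1 : ℤ)) (J + 1), f j =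
      ∑ j ∈ Finset.range (J + 1), f j + ∑ j ∈ Finset.range (J + 1), f (-((j : ℤ) + 1)) := by
  induction J with
  | zero =>
    have h1 : Finset.Ico (-((0 : ℕ) + 1 : ℤ)) ((0 : ℕ) + 1) = {-1, 0} := by decide
    rw [h1, Finset.sum_pair (by norm_num)]
    simp
    ring
  | succ J ih =>
    have h1 : Finset.Ico (-((J + 1 : ℕ) + 1 : ℤ)) ((J + 1 : ℕ) + 1) =
        insert (-((J : ℤ) + 2)) (insert ((J : ℤ) + 1) (Finset.Ico (-(J + 1 : ℤ)) (J + 1))) := by
      ext x
      simp only [Finset.mem_Ico, Finset.mem_insert]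
      push_cast
      omega
    have h2 : ((J : ℤ) + 1) ∉ Finset.Ico (-(J + 1 : ℤ)) (J + 1) := by
      simp
    have h3 : (-((J : ℤ) + 2)) ∉ insert ((J : ℤ) + 1) (Finset.Ico (-(J + 1 : ℤ)) (J + 1)) := by
      simp only [Finset.mem_insert, Finset.mem_Ico, not_or, not_and]
      constructor
      · omega
      · intro h; omega
    rw [h1, Finset.sum_insert h3, Finset.sum_insert h2, ih, Finset.sum_range_succ _ (J + 1),
      Finset.sum_range_succ _ (J + 1)]
    push_cast
    have e : (-((J : ℤ) + 2)) = -((J : ℤ) + 1 + 1) := by ring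
    rw [e]
    ring

private lemma tail38 {G : ℝ} (hG : 0 < G) {del : ℝ} (hdel : 0 < del) :
    ∃ J : ℕ, ∀ p : ℝ, 0 ≤ p → p ≤ G → ∀ a : ℝ, HasSum (fun j : ℤ => qk 0 (p + j * G)) a →
      a - del ≤ ∑ j ∈ Finset.Ico (-(J + 1 : ℤ)) (J + 1), qk 0 (p + j * G) := by
  have hB : Summable (fun j : ℤ => 8 / G ^ 2 * (1 / (j : ℝ) ^ 2 + 1 / ((j : ℝ) + 1) ^ 2)) := by
    have h1 : Summable (fun j : ℤ => 1 / (j : ℝ) ^ 2) := Real.summable_one_div_int_pow.2 (by norm_num)
    have h2 : Summable (fun j : ℤ => 1 / ((j : ℝ) + 1) ^ 2) := by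
      have h3 := (Equiv.addRight (1 : ℤ)).summable_iff.2 h1
      refine h3.congr fun j => ?_
      simp
    exact (h1.add h2).mul_left _
  obtain ⟨F0, hF0⟩ := summable_iff_vanishing_norm.1 hB del hdel
  obtain ⟨J, hJ⟩ : ∃ J : ℕ, F0 ⊆ Finset.Ico (-(J + 1 : ℤ)) (J + 1) := by
    refine ⟨F0.sup Int.natAbs, fun x hx => ?_⟩
    have h1 : x.natAbs ≤ F0.sup Int.natAbs := Finset.le_sup (f := Int.natAbs) hx
    rw [Finset.mem_Ico]
    omega
  refine ⟨J, fun p hp0 hpG a ha => ?_⟩
  have h1 : a ≤ ∑ j ∈ Finset.Ico (-(J + 1 : ℤ)) (J + 1), qk 0 (p + j * G) + del := by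
    refine hasSum_le_of_sum_le ha fun T => ?_
    rw [← Finset.sum_filter_add_sum_filter_not T (fun j => j ∈ Finset.Ico (-(J + 1 : ℤ)) (J + 1))]
    apply add_le_add
    · apply Finset.sum_le_sum_of_subset_of_nonneg
      · intro x hx
        exact (Finset.mem_filter.1 hx).2
      · exact fun x _ _ => qk0_nonneg _
    · have h2 := hF0 (T.filter (fun j => ¬ j ∈ Finset.Ico (-(J + 1 : ℤ)) (J + 1))) (by
        rw [Finset.disjoint_left]
        intro x hx hx2
        exact (Finset.mem_filter.1 hx).2 (hJ hx2))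
      refine le_trans ?_ h2.le
      refine le_trans (Finset.sum_le_sum fun j hj => ?_) (le_abs_self _)
      have hj2 := (Finset.mem_filter.1 hj).2
      rw [Finset.mem_Ico, not_and, not_lt] at hj2
      rcases le_or_gt 0 j with h0 | h0
      · have h3 : (1 : ℤ) ≤ j := by
          have := hj2 (by omega)
          omega
        have h4 : (1 : ℝ) ≤ (j : ℝ) := by exact_mod_cast h3
        have h5 : 0 < (j : ℝ) * G := by positivity
        have h6 : (p + j * G) ≠ 0 := by linarith
        refine (qk0_le h6).trans ?_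
        have h7 : 8 / (p + j * G) ^ 2 ≤ 8 / (j * G) ^ 2 := by
          apply div_le_div_of_nonneg_left (by norm_num) (by positivity)
          exact pow_le_pow_left₀ h5.le (by linarith) 2
        refine h7.trans ?_
        have h8 : 8 / ((j : ℝ) * G) ^ 2 = 8 / G ^ 2 * (1 / (j : ℝ) ^ 2) := by
          field_simp
        rw [h8]
        apply mul_le_mul_of_nonneg_left _ (by positivity)
        have : 0 ≤ 1 / ((j : ℝ) + 1) ^ 2 := by positivity
        linarith
      · have h3 : j ≤ -2 := by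
          by_contra hcon
          have h4 : j = -1 := by omega
          subst h4
          have := hj2 (by omega)
          omega
        have h4 : (j : ℝ) ≤ -2 := by exact_mod_cast h3
        have h5 : p + j * G ≤ ((j : ℝ) + 1) * G := by nlinarith
        have h5' : ((j : ℝ) + 1) * G < 0 := by nlinarith
        have h6 : (p + j * G) ≠ 0 := by linarith
        refine (qk0_le h6).trans ?_
        have h7' : 0 < (((j : ℝ) + 1) * G) ^ 2 := by
          rw [sq]
          exact mul_pos_of_neg_of_neg h5' h5'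
        have h7 : 8 / (p + j * G) ^ 2 ≤ 8 / (((j : ℝ) + 1) * G) ^ 2 := by
          apply div_le_div_of_nonneg_left (by norm_num) h7'
          nlinarith
        refine h7.trans ?_
        have h9 : ((j : ℝ) + 1) ≠ 0 := by linarith
        have h8 : 8 / (((j : ℝ) + 1) * G) ^ 2 = 8 / G ^ 2 * (1 / ((j : ℝ) + 1) ^ 2) := by
          field_simp
        rw [h8]
        apply mul_le_mul_of_nonneg_left _ (by positivity)
        have : 0 ≤ 1 / (j : ℝ) ^ 2 := by positivity
        linarith
  linarith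

theorem nogap {G : ℝ} (hG : 0 < G) (hG2 : G < 2 * Real.pi) {del : ℝ} (hdel : 0 < del) :
    ∃ R : ℝ, 0 < R ∧ ∀ S : Finset ℝ, (∀ x : ℝ, -R ≤ x → x + G ≤ R → ∃ s ∈ S, x ≤ s ∧ s ≤ x + G) →
      2 * Real.pi / G - del ≤ ∑ s ∈ S, qk 0 s := by
  classical
  obtain ⟨J, hJ⟩ := tail38 hG hdel
  have hJG : (0 : ℝ) ≤ (J : ℝ) * G := by positivity
  refine ⟨(J + 3) * G, by positivity, fun S hS => ?_⟩
  set R : ℝ := (J + 3) * G with hR
  have hR1 : R = J * G + 3 * G := by rw [hR]; ring
  -- the smallest point `≥ 0`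
  obtain ⟨s0, hs0, h1, h2⟩ := hS 0 (by linarith) (by linarith)
  have hne : (S.filter (fun s => 0 ≤ s)).Nonempty := ⟨s0, Finset.mem_filter.2 ⟨hs0, h1⟩⟩
  obtain ⟨p, hpm, hpmin⟩ := Finset.exists_min_image (S.filter (fun s => 0 ≤ s)) id hne
  have hpS := (Finset.mem_filter.1 hpm).1
  have hp0 : 0 ≤ p := (Finset.mem_filter.1 hpm).2
  have hpG : p ≤ G := by
    have := hpmin s0 (Finset.mem_filter.2 ⟨hs0, h1⟩)
    simp only [id] at this
    linarith
  -- reflection
  set S' : Finset ℝ := S.image (fun s => -s) with hS'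
  have hSn : ∀ x : ℝ, -R ≤ x → x + G ≤ R → ∃ s ∈ S', x ≤ s ∧ s ≤ x + G := by
    intro x h3 h4
    obtain ⟨s, hs, h5, h6⟩ := hS (-x - G) (by linarith) (by linarith)
    exact ⟨-s, Finset.mem_image.2 ⟨s, hs, rfl⟩, by linarith, by linarith⟩
  obtain ⟨q, hq, h3, h4⟩ := next38 hSn (y := -p) (by linarith) (by linarith)
  obtain ⟨q1, hq1, hq2⟩ := Finset.mem_image.1 hq
  have hq0 : 0 < q := by
    by_contra hcon
    have h5 : 0 ≤ q1 := by linarith
    have h6 := hpmin q1 (Finset.mem_filter.2 ⟨hq1, h5⟩)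
    simp only [id] at h6
    linarith
  have hr := chain38 hG hS J p hpS hp0 (by linarith)
  have hl := chain38 hG hSn J q hq hq0.le (by linarith)
  have hl2 : ∑ s ∈ S'.filter (fun s => q ≤ s), qk 0 s =
      ∑ s ∈ S.filter (fun s => s ≤ -q), qk 0 s := by
    refine Finset.sum_nbij' (fun s => -s) (fun s => -s) ?_ ?_ ?_ ?_ ?_
    · intro s hs
      obtain ⟨h5, h6⟩ := Finset.mem_filter.1 hs
      obtain ⟨t, ht, rfl⟩ := Finset.mem_image.1 h5
      rw [Finset.mem_filter]
      simp only [neg_neg]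
      exact ⟨ht, by linarith⟩
    · intro s hs
      obtain ⟨h5, h6⟩ := Finset.mem_filter.1 hs
      exact Finset.mem_filter.2 ⟨Finset.mem_image.2 ⟨s, h5, rfl⟩, by linarith⟩
    · intro s _
      exact neg_neg s
    · intro s _
      exact neg_neg s
    · intro s _
      exact (qk_neg 0 s).symm
  have hsum : ∑ s ∈ S.filter (fun s => p ≤ s), qk 0 s + ∑ s ∈ S.filter (fun s => s ≤ -q), qk 0 s ≤
      ∑ s ∈ S, qk 0 s := by
    rw [← Finset.sum_union]
    · apply Finset.sum_le_sum_of_subset_of_nonneg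
      · intro s hs
        rcases Finset.mem_union.1 hs with hs | hs
        · exact (Finset.mem_filter.1 hs).1
        · exact (Finset.mem_filter.1 hs).1
      · exact fun s _ _ => qk0_nonneg s
    · rw [Finset.disjoint_left]
      intro s hs hs2
      have h5 := (Finset.mem_filter.1 hs).2
      have h6 := (Finset.mem_filter.1 hs2).2
      linarith
  have h5 := hJ p hp0 hpG _ (poisson hG hG2 p)
  rw [sum_Ico38 (fun j : ℤ => qk 0 (p + j * G)) J] at h5
  have h6 : ∑ j ∈ Finset.range (J + 1), qk 0 (p + ((-((j : ℤ) + 1) : ℤ) : ℝ) * G) ≤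
      ∑ j ∈ Finset.range (J + 1), qk 0 (q + j * G) := by
    apply Finset.sum_le_sum
    intro j _
    have hj : (0 : ℝ) ≤ (j : ℝ) * G := by positivity
    rw [← qk_neg 0 (p + _)]
    apply qk0_anti
    · show (0 : ℝ) ≤ q + j * G
      linarith
    · show (0 : ℝ) ≤ -(p + ((-((j : ℤ) + 1) : ℤ) : ℝ) * G)
      push_cast
      linarith
    · push_cast
      linarith
  simp only [Int.cast_natCast] at h5
  rw [hl2] at hl
  linarith

end Pool.Agent.Helper25.LG
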