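import Pool.Agent.Helper25.LG.Num6
import Pool.Agent.Helper25.LG.Nog

/-!
# LG: certificates C1, C2 in the form of `Helper54.LG.Fin`
-/

open MeasureTheory Set Filter Topology
open Pool.Agent.Helper54.LG

namespace Pool.Agent.Helper25.LG

theorem C1_gen {θ lam : ℝ} (hθ : 0 < θ) (hl : 0 < lam) (h : θ * lam < 1) : C1 θ lam := by
  intro δ hδ
  have hpi := Real.pi_pos
  have hG : 0 < 2 * Real.pi * θ * lam := by positivity
  have hG2 : 2 * Real.pi * θ * lam < 2 * Real.pi := by
    have : 2 * Real.pi * θ * lam = 2 * Real.pi * (θ * lam) := by ring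
    rw [this]
    nlinarith
  obtain ⟨R, hR, hS⟩ := nogap hG hG2 hδ
  refine ⟨R, hR, fun S h => ?_⟩
  have h1 := hS S h
  have e : 2 * Real.pi / (2 * Real.pi * θ * lam) = 1 / (θ * lam) := by
    field_simp
  rw [e] at h1
  exact h1

theorem C1_cert : C1 (49 / 100) (6 / 5) := C1_gen (by norm_num) (by norm_num) (by norm_num)

end Pool.Agent.Helper25.LG
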