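import Pool.Agent.Helper54.LG.Def

/-!
# LG: definitions for the certificates C1, C2 (kernel `qk`, deficit `ek` of `Helper54.LG.Def`)
-/

open MeasureTheory Set Filter Topology
open Pool.Agent.Helper54.LG

namespace Pool.Agent.Helper25.LG

/-- Cosine transform with factor `-2`: `qk 0 b - 2 qk a b = Fh (hA a) b`. -/
noncomputable def Fh (h : ℝ → ℝ) (b : ℝ) : ℝ := -2 * ∫ u in (0:ℝ)..1, h u * Real.cos (b * u)

/-- `h_a(u) = (1-u)² (2 cosh(au) - 1)`. -/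
noncomputable def hA (a u : ℝ) : ℝ := (1 - u) ^ 2 * (2 * Real.cosh (a * u) - 1)

/-- Taylor polynomial of `hA`. -/
noncomputable def hT (M : ℕ) (a u : ℝ) : ℝ :=
  (1 - u) ^ 2 * (2 * ∑ n ∈ Finset.range (M + 1), (a * u) ^ (2 * n) / ((2 * n).factorial : ℝ) - 1)

/-- Its derivative in `u`. -/
noncomputable def hT' (M : ℕ) (a u : ℝ) : ℝ :=
  -2 * (1 - u) * (2 * ∑ n ∈ Finset.range (M + 1), (a * u) ^ (2 * n) / ((2 * n).factorial : ℝ) - 1) +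
    (1 - u) ^ 2 * (2 * ∑ n ∈ Finset.range (M + 1), (2 * n : ℝ) * a * (a * u) ^ (2 * n - 1) / ((2 * n).factorial : ℝ))

/-- The quadratic form: `4π Qw` is the integral of `(1 + γ² b²)(1 + r² + 2 r cos b) Fh(b)²`. -/
noncomputable def Qw (γ r : ℝ) (h h' : ℝ → ℝ) : ℝ :=
  (1 + r ^ 2) * ((∫ u in (0:ℝ)..1, h u ^ 2) + γ ^ 2 * ∫ u in (0:ℝ)..1, h' u ^ 2) +
  r * ((∫ u in (0:ℝ)..1, h u * h (1 - u)) - γ ^ 2 * ∫ u in (0:ℝ)..1, h' u * h' (1 - u))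

/-- The integral of the inverse weight. -/
noncomputable def Bw (γ r : ℝ) : ℝ :=
  Real.pi / γ * (1 / (1 - r ^ 2)) * ((1 - r * Real.exp (-(1 / γ))) / (1 + r * Real.exp (-(1 / γ))))

/-- Beta integral `∫_0^1 u^i (1-u)^j du`. -/
noncomputable def Bt (i j : ℕ) : ℝ := ((i.factorial : ℝ) * (j.factorial : ℝ)) / ((i + j + 1).factorial : ℝ)

/-- Coefficients of `2 cosh - 1`. -/
noncomputable def ep (n : ℕ) : ℝ := if n = 0 then 1 else 2 / ((2 * n).factorial : ℝ)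

/-- Coefficients of the quadratic form on the functions `u^(2n) (1-u)²`. -/
noncomputable def Kc (γ r : ℝ) (n m : ℕ) : ℝ :=
  (1 + r ^ 2) * (Bt (2 * n + 2 * m) 4 + γ ^ 2 * (4 * (n * m : ℝ) * Bt (2 * n + 2 * m - 2) 4 -
    4 * ((n : ℝ) + m) * Bt (2 * n + 2 * m - 1) 3 + 4 * Bt (2 * n + 2 * m) 2)) +
  r * (Bt (2 * n + 2) (2 * m + 2) - γ ^ 2 * (4 * (n * m : ℝ) * Bt (2 * n + 1) (2 * m + 1) -
    4 * (n : ℝ) * Bt (2 * n) (2 * m + 2) - 4 * (m : ℝ) * Bt (2 * n + 2) (2 * m) + 4 * Bt (2 * n + 1) (2 * m + 1)))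

/-- The quadratic form at `hT M a`. -/
noncomputable def QP (γ r : ℝ) (M : ℕ) (a : ℝ) : ℝ :=
  ∑ n ∈ Finset.range (M + 1), ∑ m ∈ Finset.range (M + 1), ep n * ep m * a ^ (2 * (n + m)) * Kc γ r n m

end Pool.Agent.Helper25.LG
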