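import Pool.Agent.Helper25.LG.Def
import Pool.Agent.Helper54.LG.Cos

/-!
# LG-INW: the integral of the inverse weight

`1/(1 + r² + 2 r cos b) = (1/(1 - r²)) (1 + 2 ∑_{k ≥ 1} (-r)^k cos(kb))` (absolutely convergent, uniform in `b`), and
`∫ cos(kb)/(1 + γ² b²) db = (π/γ) e^{-k/γ}` (in the library: Fourier transform of the Poisson kernel, e.g.
`Pool.Agent.Helper57.LH` / `M.B`: PW, T_poisson; or Mathlib). Sum: `(π/γ)/(1-r²) · (1 + 2 ∑ (-r q)^k) = (π/γ)/(1-r²) · (1 - rq)/(1 + rq)`,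
`q = e^{-1/γ}`.
-/

open MeasureTheory Set Filter Topology

namespace Pool.Agent.Helper25.LG

private lemma den_ge76 {r : ℝ} (b : ℝ) : (1 - |r|) ^ 2 ≤ 1 + r ^ 2 + 2 * r * Real.cos b := by
  have h1 : -|r| ≤ r * Real.cos b := by
    have : |r * Real.cos b| ≤ |r| := by
      rw [abs_mul]
      exact mul_le_of_le_one_right (abs_nonneg _) (Real.abs_cos_le_one _)
    exact (abs_le.mp this).1
  have h2 : |r| ^ 2 = r ^ 2 := sq_abs r
  nlinarith

private lemma hasSum_cos76 {r : ℝ} (hr : |r| < 1) (b : ℝ) :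
    HasSum (fun k : ℕ => (-r) ^ k * Real.cos (k * b)) ((1 + r * Real.cos b) / (1 + r ^ 2 + 2 * r * Real.cos b)) := by
  set z : ℂ := ((-r : ℝ) : ℂ) * Complex.exp ((b : ℂ) * Complex.I) with hz
  have hn : ‖z‖ < 1 := by
    rw [hz, norm_mul, Complex.norm_exp_ofReal_mul_I, mul_one, Complex.norm_real, Real.norm_eq_abs, abs_neg]
    exact hr
  have h1 := (hasSum_geometric_of_norm_lt_one hn).mapL Complex.reCLM
  have e1 : ∀ k : ℕ, Complex.reCLM (z ^ k) = (-r) ^ k * Real.cos (k * b) := by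
    intro k
    rw [Complex.reCLM_apply, hz, mul_pow, ← Complex.exp_nat_mul, ← Complex.ofReal_pow, Complex.re_ofReal_mul]
    congr 1
    rw [show (k : ℂ) * ((b : ℂ) * Complex.I) = ((k * b : ℝ) : ℂ) * Complex.I by push_cast; ring, Complex.exp_ofReal_mul_I_re]
  have e2 : Complex.reCLM (1 - z)⁻¹ = (1 + r * Real.cos b) / (1 + r ^ 2 + 2 * r * Real.cos b) := by
    rw [Complex.reCLM_apply, Complex.inv_re]
    have h3 : (1 - z).re = 1 + r * Real.cos b := by
      rw [hz, Complex.sub_re, Complex.re_ofReal_mul, Complex.exp_ofReal_mul_I_re, Complex.one_re]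
      ring
    have h4 : (1 - z).im = r * Real.sin b := by
      rw [hz, Complex.sub_im, Complex.im_ofReal_mul, Complex.exp_ofReal_mul_I_im, Complex.one_im]
      ring
    have h5 : Complex.normSq (1 - z) = 1 + r ^ 2 + 2 * r * Real.cos b := by
      rw [Complex.normSq_apply, h3, h4]
      have := Real.sin_sq_add_cos_sq b
      linear_combination (r ^ 2) * this
    rw [h3, h5]
  rw [e2] at h1
  simpa only [e1] using h1

private lemma PW_eq76 {γ : ℝ} (hγ : 0 < γ) (b : ℝ) :
    1 / (1 + γ ^ 2 * b ^ 2) = Real.pi / γ * Pool.Agent.Helper57.ED.PW (1 / γ) (b - 0) := by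
  unfold Pool.Agent.Helper57.ED.PW
  have h1 : Real.pi ≠ 0 := Real.pi_ne_zero
  have h2 : (1 + γ ^ 2 * b ^ 2) ≠ 0 := by positivity
  have h3 : Real.pi * ((1 / γ) ^ 2 + (b - 0) ^ 2) ≠ 0 := by
    have := Real.pi_pos
    positivity
  have h4 : (1 / γ) ^ 2 + (b - 0) ^ 2 = (1 + γ ^ 2 * b ^ 2) / γ ^ 2 := by
    field_simp
    ring
  rw [h4]
  field_simp

theorem int_inv_w {γ r : ℝ} (hγ : 0 < γ) (hr : |r| < 1) :
    Integrable (fun b : ℝ => 1 / ((1 + γ ^ 2 * b ^ 2) * (1 + r ^ 2 + 2 * r * Real.cos b))) ∧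
    ∫ b : ℝ, 1 / ((1 + γ ^ 2 * b ^ 2) * (1 + r ^ 2 + 2 * r * Real.cos b)) = Bw γ r := by
  have hW : 0 < 1 / γ := by positivity
  have hPWi : Integrable (fun b : ℝ => Pool.Agent.Helper57.ED.PW (1 / γ) (b - 0)) :=
    (Pool.Agent.Helper57.ED.integral_PW hW).1.comp_sub_right 0
  have hPW1 : ∫ b : ℝ, Pool.Agent.Helper57.ED.PW (1 / γ) (b - 0) = 1 := by
    have := Pool.Agent.Helper54.LG.integral_cos hW 0 0
    simpa using this
  have hPW0 : ∀ b, 0 ≤ Pool.Agent.Helper57.ED.PW (1 / γ) (b - 0) := by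
    intro b
    unfold Pool.Agent.Helper57.ED.PW
    have := Real.pi_pos
    positivity
  have hpos : 0 < (1 - |r|) ^ 2 := by
    have : 0 < 1 - |r| := by linarith
    positivity
  have hD : ∀ b, 0 < 1 + r ^ 2 + 2 * r * Real.cos b := fun b => hpos.trans_le (den_ge76 b)
  have hint : Integrable (fun b : ℝ => 1 / ((1 + γ ^ 2 * b ^ 2) * (1 + r ^ 2 + 2 * r * Real.cos b))) := by
    have h1 : Integrable (fun b : ℝ => Real.pi / γ * Pool.Agent.Helper57.ED.PW (1 / γ) (b - 0)) := hPWi.const_mul _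
    have h2 : Integrable (fun b : ℝ => (Real.pi / γ * Pool.Agent.Helper57.ED.PW (1 / γ) (b - 0)) * (1 / (1 + r ^ 2 + 2 * r * Real.cos b))) := by
      refine h1.mul_bdd (c := 1 / (1 - |r|) ^ 2) ?_ ?_
      · apply Continuous.aestronglyMeasurable
        refine continuous_const.div (by fun_prop) (fun b => (hD b).ne')
      · refine Eventually.of_forall (fun b => ?_)
        rw [Real.norm_eq_abs, abs_of_pos (by have := hD b; positivity)]
        exact one_div_le_one_div_of_le hpos (den_ge76 b)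
    refine h2.congr (Eventually.of_forall (fun b => ?_))
    simp only
    rw [← PW_eq76 hγ b]
    field_simp
  refine ⟨hint, ?_⟩
  -- the series
  set F : ℕ → ℝ → ℝ := fun k b => Pool.Agent.Helper57.ED.PW (1 / γ) (b - 0) * ((-r) ^ k * Real.cos (k * b)) with hF
  have hFi : ∀ k, Integrable (F k) := by
    intro k
    refine hPWi.mul_bdd (c := |r| ^ k) ?_ ?_
    · apply Continuous.aestronglyMeasurable
      fun_prop
    · refine Eventually.of_forall (fun b => ?_)
      rw [norm_mul, norm_pow, norm_neg, Real.norm_eq_abs, Real.norm_eq_abs]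
      exact mul_le_of_le_one_right (by positivity) (Real.abs_cos_le_one _)
  have hFn : ∀ k, ∫ b, ‖F k b‖ ≤ |r| ^ k := by
    intro k
    have h1 : ∫ b, ‖F k b‖ ≤ ∫ b, |r| ^ k * Pool.Agent.Helper57.ED.PW (1 / γ) (b - 0) := by
      apply integral_mono (hFi k).norm (hPWi.const_mul _)
      intro b
      have hb : ‖(-r) ^ k * Real.cos (k * b)‖ ≤ |r| ^ k := by
        rw [norm_mul, norm_pow, norm_neg, Real.norm_eq_abs, Real.norm_eq_abs]
        exact mul_le_of_le_one_right (by positivity) (Real.abs_cos_le_one _)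
      simp only [hF]
      rw [norm_mul, Real.norm_eq_abs, abs_of_nonneg (hPW0 b), mul_comm (|r| ^ k)]
      exact mul_le_mul_of_nonneg_left hb (hPW0 b)
    rw [integral_const_mul, hPW1, mul_one] at h1
    exact h1
  have hsum : Summable (fun k => ∫ b, ‖F k b‖) :=
    Summable.of_nonneg_of_le (fun k => integral_nonneg (fun b => norm_nonneg _)) hFn
      (summable_geometric_of_lt_one (abs_nonneg r) hr)
  have h1 := hasSum_integral_of_summable_integral_norm hFi hsum
  have h2 : ∀ b, ∑' k, F k b = Pool.Agent.Helper57.ED.PW (1 / γ) (b - 0) * ((1 + r * Real.cos b) / (1 + r ^ 2 + 2 * r * Real.cos b)) :=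
    fun b => ((hasSum_cos76 hr b).mul_left _).tsum_eq
  simp_rw [h2] at h1
  set q : ℝ := Real.exp (-(1 / γ)) with hq
  have hq0 : 0 < q := Real.exp_pos _
  have hq1 : q < 1 := by
    rw [hq, Real.exp_lt_one_iff]
    linarith
  have h3 : ∀ k : ℕ, ∫ b, F k b = (-(r * q)) ^ k := by
    intro k
    have e1 : ∀ b, F k b = (-r) ^ k * (Pool.Agent.Helper57.ED.PW (1 / γ) (b - 0) * Real.cos ((k : ℝ) * b)) := by
      intro b; simp only [hF]; ring
    simp_rw [e1]
    rw [integral_const_mul, Pool.Agent.Helper54.LG.integral_cos hW 0 k]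
    rw [mul_zero, Real.cos_zero, mul_one, abs_of_nonneg (Nat.cast_nonneg k)]
    have e2 : Real.exp (-(1 / γ * (k : ℝ))) = q ^ k := by
      rw [hq, ← Real.exp_nat_mul]
      congr 1
      ring
    rw [e2, ← mul_pow]
    congr 1
    ring
  simp_rw [h3] at h1
  have hrq : |(-(r * q))| < 1 := by
    rw [abs_neg, abs_mul, abs_of_pos hq0]
    have := mul_lt_mul_of_pos_left hq1 (show (0:ℝ) < 1 by norm_num)
    nlinarith [abs_nonneg r]
  have h4 := h1.unique (hasSum_geometric_of_abs_lt_one hrq)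
  rw [sub_neg_eq_add] at h4
  -- assemble
  have hr2 : 1 - r ^ 2 ≠ 0 := by
    have h5 : r ^ 2 < 1 := by
      rw [← sq_abs]
      nlinarith [abs_nonneg r]
    linarith
  have e3 : ∀ b : ℝ, 1 / ((1 + γ ^ 2 * b ^ 2) * (1 + r ^ 2 + 2 * r * Real.cos b)) =
      (Real.pi / γ * (1 / (1 - r ^ 2)) * 2) * (Pool.Agent.Helper57.ED.PW (1 / γ) (b - 0) * ((1 + r * Real.cos b) / (1 + r ^ 2 + 2 * r * Real.cos b))) -
      (Real.pi / γ * (1 / (1 - r ^ 2))) * Pool.Agent.Helper57.ED.PW (1 / γ) (b - 0) := by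
    intro b
    have h6 := PW_eq76 hγ b
    have h7 := (hD b).ne'
    have h8 : (1 + r * Real.cos b) / (1 + r ^ 2 + 2 * r * Real.cos b) = (1 + (1 - r ^ 2) * (1 / (1 + r ^ 2 + 2 * r * Real.cos b))) / 2 := by
      have h9 : 1 / (1 + r ^ 2 + 2 * r * Real.cos b) * (1 + r ^ 2 + 2 * r * Real.cos b) = 1 := one_div_mul_cancel h7
      rw [div_eq_iff h7]
      linear_combination (-(1 - r ^ 2) / 2) * h9
    rw [← one_div_mul_one_div, h6, h8]
    generalize 1 / (1 + r ^ 2 + 2 * r * Real.cos b) = D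
    generalize Pool.Agent.Helper57.ED.PW (1 / γ) (b - 0) = Pb
    field_simp
    ring
  have hi2 : Integrable (fun b : ℝ => Pool.Agent.Helper57.ED.PW (1 / γ) (b - 0) * ((1 + r * Real.cos b) / (1 + r ^ 2 + 2 * r * Real.cos b))) := by
    refine hPWi.mul_bdd (c := 2 / (1 - |r|) ^ 2) ?_ ?_
    · apply Continuous.aestronglyMeasurable
      exact Continuous.div (by fun_prop) (by fun_prop) (fun b => (hD b).ne')
    · refine Eventually.of_forall (fun b => ?_)
      rw [norm_div, Real.norm_eq_abs, Real.norm_eq_abs, abs_of_pos (hD b)]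
      have h8 : |1 + r * Real.cos b| ≤ 2 := by
        have h9 : |r * Real.cos b| ≤ |r| := by
          rw [abs_mul]
          exact mul_le_of_le_one_right (abs_nonneg _) (Real.abs_cos_le_one _)
        have := abs_le.mp h9
        rw [abs_le]
        constructor <;> linarith
      exact div_le_div₀ (by norm_num) h8 hpos (den_ge76 b)
  simp_rw [e3]
  rw [integral_sub (hi2.const_mul _) (hPWi.const_mul _), integral_const_mul, integral_const_mul, h4, hPW1]
  unfold Bw
  rw [← hq]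
  have h10 : 1 + r * q ≠ 0 := by
    have := (abs_lt.mp hrq).2
    linarith
  field_simp
  ring

end Pool.Agent.Helper25.LG
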