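import Pool.Agent.Helper25.LG.Rem

/-!
# LG-NUM1: rational form of the bound, convexity between nodes
-/

open MeasureTheory Set Filter Topology
open Pool.Agent.Helper54.LG

namespace Pool.Agent.Helper25.LG

def btq (i j : ℕ) : ℚ := ((i.factorial * j.factorial : ℕ) : ℚ) / ((i + j + 1).factorial : ℕ)

def epq (n : ℕ) : ℚ := if n = 0 then 1 else 2 / ((2 * n).factorial : ℕ)

def kcq (g r : ℚ) (n m : ℕ) : ℚ :=
  (1 + r ^ 2) * (btq (2 * n + 2 * m) 4 + g ^ 2 * (4 * (n * m : ℚ) * btq (2 * n + 2 * m - 2) 4 -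
    4 * ((n : ℚ) + m) * btq (2 * n + 2 * m - 1) 3 + 4 * btq (2 * n + 2 * m) 2)) +
  r * (btq (2 * n + 2) (2 * m + 2) - g ^ 2 * (4 * (n * m : ℚ) * btq (2 * n + 1) (2 * m + 1) -
    4 * (n : ℚ) * btq (2 * n) (2 * m + 2) - 4 * (m : ℚ) * btq (2 * n + 2) (2 * m) + 4 * btq (2 * n + 1) (2 * m + 1)))

def qN (g r : ℚ) (M N : ℕ) : ℚ :=
  ∑ n ∈ Finset.range (N + 1), if n ≤ M ∧ N - n ≤ M then epq n * epq (N - n) * kcq g r n (N - n) else 0

lemma btq_cast (i j : ℕ) : (btq i j : ℝ) = Bt i j := by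
  unfold btq Bt
  push_cast
  rfl

lemma epq_cast (n : ℕ) : (epq n : ℝ) = ep n := by
  unfold epq ep
  split_ifs <;> simp

lemma kcq_cast (g r : ℚ) (n m : ℕ) : (kcq g r n m : ℝ) = Kc g r n m := by
  unfold kcq Kc
  push_cast [← btq_cast]
  rfl

lemma QP_eq (g r : ℚ) (M : ℕ) (a : ℝ) :
    QP g r M a = ∑ N ∈ Finset.range (2 * M + 1), (qN g r M N : ℝ) * a ^ (2 * N) := by
  classical
  unfold QP
  rw [← Finset.sum_product']
  rw [← Finset.sum_fiberwise_of_maps_to (s := Finset.range (M + 1) ×ˢ Finset.range (M + 1)) (t := Finset.range (2 * M + 1))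
    (g := fun p : ℕ × ℕ => p.1 + p.2)]
  · refine Finset.sum_congr rfl fun N hN => ?_
    unfold qN
    push_cast
    rw [Finset.sum_mul]
    symm
    rw [← Finset.sum_filter_add_sum_filter_not (Finset.range (N + 1)) (fun n => n ≤ M ∧ N - n ≤ M)]
    rw [Finset.sum_eq_zero (s := (Finset.range (N + 1)).filter (fun n => ¬ (n ≤ M ∧ N - n ≤ M)))]
    · rw [add_zero]
      apply Finset.sum_bij (fun n _ => (n, N - n))
      · intro n hn
        simp only [Finset.mem_filter, Finset.mem_range] at hn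
        simp only [Finset.mem_filter, Finset.mem_product, Finset.mem_range]
        omega
      · intro n _ m _ h
        exact (Prod.mk.inj h).1
      · rintro ⟨n, m⟩ h
        simp only [Finset.mem_filter, Finset.mem_product, Finset.mem_range] at h
        refine ⟨n, ?_, ?_⟩
        · simp only [Finset.mem_filter, Finset.mem_range]; omega
        · ext
          · rfl
          · show N - n = m
            omega
      · intro n hn
        simp only [Finset.mem_filter, Finset.mem_range] at hn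
        rw [if_pos hn.2]
        push_cast
        rw [epq_cast, epq_cast, kcq_cast]
        have : n + (N - n) = N := by omega
        rw [this]
        ring
    · intro n hn
      simp only [Finset.mem_filter, Finset.mem_range] at hn
      rw [if_neg hn.2]
      simp
  · rintro ⟨n, m⟩ h
    simp only [Finset.mem_product, Finset.mem_range] at h
    simp only [Finset.mem_range]
    omega

/-- chord bound for even powers -/
lemma pow_chord {n1 n2 a : ℝ} (h0 : 0 ≤ n1) (h1 : n1 ≤ a) (h2 : a ≤ n2) (N : ℕ) :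
    (n2 - n1) * a ^ N ≤ (n2 - a) * n1 ^ N + (a - n1) * n2 ^ N := by
  rcases eq_or_lt_of_le (h1.trans h2) with h | h
  · have e1 : a = n1 := le_antisymm (by linarith) h1
    rw [← h, e1]; ring_nf; rfl
  · have hc := (convexOn_pow (𝕜 := ℝ) N).2 (show n1 ∈ Ici (0:ℝ) from h0) (show n2 ∈ Ici (0:ℝ) from h0.trans h.le)
      (show 0 ≤ (n2 - a) / (n2 - n1) from div_nonneg (by linarith) (by linarith))
      (show 0 ≤ (a - n1) / (n2 - n1) from div_nonneg (by linarith) (by linarith))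
      (by rw [← add_div]; rw [show n2 - a + (a - n1) = n2 - n1 by ring]; exact div_self (by linarith))
    simp only [smul_eq_mul] at hc
    have e2 : (n2 - a) / (n2 - n1) * n1 + (a - n1) / (n2 - n1) * n2 = a := by
      have : n2 - n1 ≠ 0 := by linarith
      field_simp
      ring
    rw [e2] at hc
    have h3 : (n2 - n1) * a ^ N ≤ (n2 - n1) * ((n2 - a) / (n2 - n1) * n1 ^ N + (a - n1) / (n2 - n1) * n2 ^ N) :=
      mul_le_mul_of_nonneg_left hc (by linarith)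
    refine h3.trans (le_of_eq ?_)
    have : n2 - n1 ≠ 0 := by linarith
    field_simp

/-- chord bound for `c2 a⁴ + c1 a²` -/
lemma quart_chord {n1 n2 a c1 c2 : ℝ} (h0 : 0 ≤ n1) (h1 : n1 ≤ a) (h2 : a ≤ n2) (hc2 : 0 ≤ c2) (hc : 0 ≤ 6 * c2 * n1 ^ 2 + c1) :
    (n2 - n1) * (c1 * a ^ 2 + c2 * a ^ 4) ≤ (n2 - a) * (c1 * n1 ^ 2 + c2 * n1 ^ 4) + (a - n1) * (c1 * n2 ^ 2 + c2 * n2 ^ 4) := by
  have e : (n2 - a) * (c1 * n1 ^ 2 + c2 * n1 ^ 4) + (a - n1) * (c1 * n2 ^ 2 + c2 * n2 ^ 4) - (n2 - n1) * (c1 * a ^ 2 + c2 * a ^ 4) =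
      (a - n1) * (n2 - a) * (n2 - n1) * (c1 + c2 * (a ^ 2 + a * (n1 + n2) + (n1 ^ 2 + n1 * n2 + n2 ^ 2))) := by ring
  have h3 : 0 ≤ c1 + c2 * (a ^ 2 + a * (n1 + n2) + (n1 ^ 2 + n1 * n2 + n2 ^ 2)) := by
    have h4 : 6 * n1 ^ 2 ≤ a ^ 2 + a * (n1 + n2) + (n1 ^ 2 + n1 * n2 + n2 ^ 2) := by nlinarith [mul_nonneg h0 (sub_nonneg.2 h1), mul_nonneg h0 (sub_nonneg.2 (h1.trans h2))]
    have := mul_le_mul_of_nonneg_left h4 hc2
    linarith
  have h5 : 0 ≤ (a - n1) * (n2 - a) * (n2 - n1) * (c1 + c2 * (a ^ 2 + a * (n1 + n2) + (n1 ^ 2 + n1 * n2 + n2 ^ 2))) := by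
    apply mul_nonneg _ h3
    apply mul_nonneg (mul_nonneg (by linarith) (by linarith)) (by linarith)
  linarith

def qv (g r : ℚ) (M : ℕ) (x : ℚ) : ℚ := ∑ N ∈ Finset.range (2 * M + 1), qN g r M N * x ^ (2 * N)

/-- all conditions on one interval, decidable. -/
def chk (g r be Bq : ℚ) (M K : ℕ) (n1 n2 V1 V2 : ℚ) : Bool :=
  (List.range (2 * M + 1)).all (fun N => decide (N < 2 ∨ 0 ≤ qN g r M N)) &&
  decide (0 ≤ 6 * qN g r M 2 * n1 ^ 2 + qN g r M 1) &&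
  decide ((qv g r M n1 / be + be / 4 * Bq - 1) / 2 + 3 * 3 ^ K * n2 ^ (2 * M + 2) / ((2 * M + 1).factorial : ℕ) ≤ V1) &&
  decide ((qv g r M n2 / be + be / 4 * Bq - 1) / 2 + 3 * 3 ^ K * n2 ^ (2 * M + 2) / ((2 * M + 1).factorial : ℕ) ≤ V2)

lemma QP_chord {g r : ℚ} {M : ℕ} (hM : 1 ≤ M) {n1 n2 : ℚ} {a : ℝ} (h0 : 0 ≤ n1) (h1 : (n1 : ℝ) ≤ a) (h2 : a ≤ n2)
    (hq : ∀ N ∈ Finset.Ico 2 (2 * M + 1), 0 ≤ qN g r M N) (hc : 0 ≤ 6 * qN g r M 2 * n1 ^ 2 + qN g r M 1) :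
    ((n2 : ℝ) - n1) * QP g r M a ≤ (n2 - a) * (qv g r M n1 : ℝ) + (a - n1) * (qv g r M n2 : ℝ) := by
  have h0' : (0:ℝ) ≤ n1 := by exact_mod_cast h0
  have hc' : (0:ℝ) ≤ 6 * (qN g r M 2 : ℝ) * (n1:ℝ) ^ 2 + (qN g r M 1 : ℝ) := by exact_mod_cast hc
  have hq2 : (0:ℝ) ≤ (qN g r M 2 : ℝ) := by
    exact_mod_cast hq 2 (by simp; omega)
  have split : ∀ x : ℝ, ∑ N ∈ Finset.range (2 * M + 1), (qN g r M N : ℝ) * x ^ (2 * N) =
      (qN g r M 0 : ℝ) + ((qN g r M 1 : ℝ) * x ^ 2 + (qN g r M 2 : ℝ) * x ^ 4) +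
        ∑ N ∈ Finset.Ico 3 (2 * M + 1), (qN g r M N : ℝ) * x ^ (2 * N) := by
    intro x
    rw [Finset.range_eq_Ico, ← Finset.sum_Ico_consecutive _ (show 0 ≤ 3 by norm_num) (show 3 ≤ 2 * M + 1 by omega)]
    congr 1
    rw [← Finset.range_eq_Ico, Finset.sum_range_succ, Finset.sum_range_succ, Finset.sum_range_succ]
    simp
    ring
  have ev : ∀ x : ℚ, ((qv g r M x : ℚ) : ℝ) = ∑ N ∈ Finset.range (2 * M + 1), (qN g r M N : ℝ) * (x:ℝ) ^ (2 * N) := by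
    intro x
    unfold qv
    push_cast
    rfl
  rw [QP_eq, ev, ev, split, split, split]
  have hA := quart_chord h0' h1 h2 hq2 hc'
  have hB : ((n2:ℝ) - n1) * ∑ N ∈ Finset.Ico 3 (2 * M + 1), (qN g r M N : ℝ) * a ^ (2 * N) ≤
      (n2 - a) * ∑ N ∈ Finset.Ico 3 (2 * M + 1), (qN g r M N : ℝ) * (n1:ℝ) ^ (2 * N) +
      (a - n1) * ∑ N ∈ Finset.Ico 3 (2 * M + 1), (qN g r M N : ℝ) * (n2:ℝ) ^ (2 * N) := by
    rw [Finset.mul_sum, Finset.mul_sum, Finset.mul_sum, ← Finset.sum_add_distrib]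
    refine Finset.sum_le_sum fun N hN => ?_
    have hN' : (0:ℝ) ≤ (qN g r M N : ℝ) := by
      have := Finset.mem_Ico.mp hN
      exact_mod_cast hq N (Finset.mem_Ico.mpr ⟨by omega, this.2⟩)
    have := mul_le_mul_of_nonneg_left (pow_chord h0' h1 h2 (2 * N)) hN'
    linarith
  linarith

end Pool.Agent.Helper25.LG
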