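import Pool.Agent.Helper25.LG.Num1

/-!
# LG-NUM2: the bound on one interval of depths
-/

open MeasureTheory Set Filter Topology
open Pool.Agent.Helper54.LG

namespace Pool.Agent.Helper25.LG

/-- `∑_{i<n} x^i/i!` -/
def exq (n : ℕ) (x : ℚ) : ℚ := ∑ i ∈ Finset.range n, x ^ i / (i.factorial : ℕ)

lemma exq_le {x : ℚ} (hx : 0 ≤ x) (n : ℕ) : ((exq n x : ℚ) : ℝ) ≤ Real.exp x := by
  unfold exq
  push_cast
  exact Real.sum_le_exp_of_nonneg (by exact_mod_cast hx) n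

lemma exp_le_exq {x : ℚ} (hx : 0 ≤ x) (hx1 : x ≤ 1) {n : ℕ} (hn : 0 < n) :
    Real.exp x ≤ ((exq n x + x ^ n * (n + 1) / ((n.factorial : ℕ) * n) : ℚ) : ℝ) := by
  unfold exq
  push_cast
  exact Real.exp_bound' (by exact_mod_cast hx) (by exact_mod_cast hx1) hn

/-- rational bound for `Bw / π` -/
def bwq (g r q0 : ℚ) : ℚ := 1 / g * (1 / (1 - r ^ 2)) * ((1 - r * q0) / (1 + r * q0))

lemma Bw_le {g r q0 : ℚ} (hg : 0 < g) (hr : 0 ≤ r) (hr1 : r < 1) (hq0 : 0 ≤ q0) (hq : (q0 : ℝ) ≤ Real.exp (-(1 / (g:ℝ)))) :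
    Bw g r ≤ Real.pi * ((bwq g r q0 : ℚ) : ℝ) := by
  unfold Bw bwq
  push_cast
  have hg' : (0:ℝ) < g := by exact_mod_cast hg
  have hr' : (0:ℝ) ≤ r := by exact_mod_cast hr
  have hr1' : (r:ℝ) < 1 := by exact_mod_cast hr1
  have hq0' : (0:ℝ) ≤ q0 := by exact_mod_cast hq0
  have hpi := Real.pi_pos
  have h1 : 0 < 1 - (r:ℝ) ^ 2 := by nlinarith
  set E := Real.exp (-(1 / (g:ℝ))) with hE
  have h2 : (1 - (r:ℝ) * E) / (1 + r * E) ≤ (1 - r * q0) / (1 + r * q0) := by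
    rw [div_le_div_iff₀ (by positivity) (by positivity)]
    have : (r:ℝ) * q0 ≤ r * E := mul_le_mul_of_nonneg_left hq hr'
    nlinarith
  calc Real.pi / g * (1 / (1 - (r:ℝ) ^ 2)) * ((1 - r * E) / (1 + r * E))
      ≤ Real.pi / g * (1 / (1 - (r:ℝ) ^ 2)) * ((1 - r * q0) / (1 + r * q0)) := by gcongr
    _ = _ := by ring

lemma cosh_le_three {a : ℝ} {K : ℕ} (ha : 0 ≤ a) (hK : a ≤ K) : Real.cosh a ≤ 3 ^ K := by
  have h1 : Real.cosh a ≤ Real.exp a := by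
    rw [Real.cosh_eq]
    have : Real.exp (-a) ≤ Real.exp a := Real.exp_le_exp.2 (by linarith)
    linarith
  have h2 : Real.exp a ≤ Real.exp K := Real.exp_le_exp.2 hK
  have h3 : Real.exp K = Real.exp 1 ^ K := by
    rw [← Real.exp_nat_mul, mul_one]
  have h4 : Real.exp 1 ^ K ≤ 3 ^ K := by
    apply pow_le_pow_left₀ (Real.exp_pos 1).le
    have := Real.exp_one_lt_d9
    linarith
  linarith

/-- on the interval `[n1, n2]` the normalised integral of the deficit is below the chord. -/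
theorem interval_bound {g r be q0 n1 n2 V1 V2 : ℚ} {M K : ℕ} (hg : 0 < g) (hr : 0 ≤ r) (hr1 : r < 1) (hbe : 0 < be)
    (hq0 : 0 ≤ q0) (hq : (q0 : ℝ) ≤ Real.exp (-(1 / (g:ℝ)))) (hM : 2 ≤ M) (h0 : 0 ≤ n1) (hn : n1 < n2) (hK : n2 ≤ K)
    (hchk : chk g r be (bwq g r q0) M K n1 n2 V1 V2 = true) {a : ℝ} (h1 : (n1:ℝ) ≤ a) (h2 : a ≤ n2) :
    ((n2:ℝ) - n1) * ∫ b : ℝ, ek a b ≤ 2 * Real.pi * ((n2 - a) * V1 + (a - n1) * V2) := by
  unfold chk at hchk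
  simp only [Bool.and_eq_true, List.all_eq_true, decide_eq_true_eq, List.mem_range] at hchk
  obtain ⟨⟨⟨c1, c2⟩, c3⟩, c4⟩ := hchk
  have hq' : ∀ N ∈ Finset.Ico 2 (2 * M + 1), 0 ≤ qN g r M N := by
    intro N hN
    have hN' := Finset.mem_Ico.mp hN
    rcases c1 N hN'.2 with h | h
    · omega
    · exact h
  have h0' : (0:ℝ) ≤ n1 := by exact_mod_cast h0
  have ha : 0 ≤ a := h0'.trans h1
  have hg' : (0:ℝ) < g := by exact_mod_cast hg
  have hbe' : (0:ℝ) < be := by exact_mod_cast hbe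
  have hr' : |(r:ℝ)| < 1 := by
    rw [abs_of_nonneg (by exact_mod_cast hr)]; exact_mod_cast hr1
  have hpi := Real.pi_pos
  have hI := ek_int_le hg' hr' hbe' hM ha
  have hQ := QP_chord (g := g) (r := r) (M := M) (by omega) (n1 := n1) (n2 := n2) h0 h1 h2 hq' c2
  have hB := Bw_le hg hr hr1 hq0 hq
  have hn' : (0:ℝ) < (n2:ℝ) - n1 := by
    have : (n1:ℝ) < n2 := by exact_mod_cast hn
    linarith
  have hn2 : (0:ℝ) ≤ n2 := by linarith
  -- remainder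
  set ε : ℝ := 3 * 3 ^ K * (n2:ℝ) ^ (2 * M + 2) / ((2 * M + 1).factorial : ℝ) with hε
  have hR : 6 * Real.pi * Real.cosh a * a ^ (2 * M + 2) / ((2 * M + 1).factorial : ℝ) ≤ 2 * Real.pi * ε := by
    have e1 : Real.cosh a ≤ 3 ^ K := cosh_le_three ha (h2.trans (by exact_mod_cast hK))
    have e2 : a ^ (2 * M + 2) ≤ (n2:ℝ) ^ (2 * M + 2) := pow_le_pow_left₀ ha h2 _
    have e3 : (0:ℝ) < ((2 * M + 1).factorial : ℝ) := by positivity
    rw [hε]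
    calc 6 * Real.pi * Real.cosh a * a ^ (2 * M + 2) / ((2 * M + 1).factorial : ℝ)
        ≤ 6 * Real.pi * 3 ^ K * (n2:ℝ) ^ (2 * M + 2) / ((2 * M + 1).factorial : ℝ) := by gcongr
      _ = _ := by ring
  have c3' : (((qv g r M n1 : ℚ) : ℝ) / be + be / 4 * ((bwq g r q0 : ℚ) : ℝ) - 1) / 2 + ε ≤ V1 := by
    rw [hε]
    exact_mod_cast c3
  have c4' : (((qv g r M n2 : ℚ) : ℝ) / be + be / 4 * ((bwq g r q0 : ℚ) : ℝ) - 1) / 2 + ε ≤ V2 := by
    rw [hε]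
    exact_mod_cast c4
  set B : ℝ := ((bwq g r q0 : ℚ) : ℝ) with hBd
  set q1 : ℝ := ((qv g r M n1 : ℚ) : ℝ) with hq1
  set q2 : ℝ := ((qv g r M n2 : ℚ) : ℝ) with hq2
  set Q : ℝ := QP g r M a with hQd
  have hI2 : ∫ b : ℝ, ek a b ≤ 2 * Real.pi * ((Q / be + be / 4 * B - 1) / 2 + ε) := by
    have e1 : (be:ℝ) / 4 * Bw g r ≤ be / 4 * (Real.pi * B) := by gcongr
    have e2 : 2 * Real.pi * ((Q / be + be / 4 * B - 1) / 2 + ε) = Real.pi * Q / be + be / 4 * (Real.pi * B) - Real.pi + 2 * Real.pi * ε := by ring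
    rw [e2]
    linarith
  have hQ2 : ((n2:ℝ) - n1) * (Q / be) ≤ (n2 - a) * (q1 / be) + (a - n1) * (q2 / be) := by
    have : ((n2:ℝ) - n1) * Q / be ≤ ((n2 - a) * q1 + (a - n1) * q2) / be := div_le_div_of_nonneg_right hQ hbe'.le
    calc ((n2:ℝ) - n1) * (Q / be) = ((n2:ℝ) - n1) * Q / be := by ring
      _ ≤ _ := this
      _ = _ := by ring
  calc ((n2:ℝ) - n1) * ∫ b : ℝ, ek a b ≤ ((n2:ℝ) - n1) * (2 * Real.pi * ((Q / be + be / 4 * B - 1) / 2 + ε)) :=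
        mul_le_mul_of_nonneg_left hI2 hn'.le
    _ = Real.pi * (((n2:ℝ) - n1) * (Q / be)) + 2 * Real.pi * (((n2:ℝ) - n1) * ((be / 4 * B - 1) / 2 + ε)) := by ring
    _ ≤ Real.pi * ((n2 - a) * (q1 / be) + (a - n1) * (q2 / be)) + 2 * Real.pi * (((n2:ℝ) - n1) * ((be / 4 * B - 1) / 2 + ε)) := by
        gcongr
    _ = 2 * Real.pi * ((n2 - a) * ((q1 / be + be / 4 * B - 1) / 2 + ε) + (a - n1) * ((q2 / be + be / 4 * B - 1) / 2 + ε)) := by ring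
    _ ≤ 2 * Real.pi * ((n2 - a) * V1 + (a - n1) * V2) := by
        have e1 : 0 ≤ (n2:ℝ) - a := by linarith
        have e2 : 0 ≤ a - (n1:ℝ) := by linarith
        gcongr

end Pool.Agent.Helper25.LG
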