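import Pool.Agent.Helper25.LG.Ker

/-!
# LG-POL: no deficit for `a ≤ 27/20`

`h_a(u) = (1-u)² (2 cosh(au) - 1)` is convex on `[0,1]` for `0 ≤ a ≤ 27/20`, `h_a(1) = h_a'(1) = 0`, hence
`∫_0^1 h_a(u) cos(bu) du = ∫_0^1 h_a''(s) (1 - cos(bs))/b² ds ≥ 0` (two integrations by parts), so `Fh (hA a) b ≤ 0`, `ek a b = 0`.
Convexity: with `x = au`, `d = a - x ≥ 0`:
`h_a''(u) = 2 (2 cosh x - 1) - 8 d sinh x + 2 d² cosh x`. As a quadratic in `d` its minimum over `d ∈ ℝ` is
`(8 - 4 cosh² x - 2 cosh x)/cosh x ≥ 0` if `cosh x ≤ 1.186` (`x ≤ .6`). For `x ∈ [.6, 27/20]` the quadratic is decreasing in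
`d ≤ 2 tanh x`, and `d ≤ 27/20 - x ≤ 2 tanh x`, so it is `≥ G(x) = 2 (2 cosh x - 1) - 8 (27/20 - x) sinh x + 2 (27/20 - x)² cosh x`,
whose minimum on `[.6, 1.35]` is about `.137` (Taylor polynomials of cosh, sinh with remainder, then a polynomial inequality;
e.g. cosh x ≥ 1 + x²/2 + x⁴/24 + x^6/720, sinh x ≤ x + x³/6 + x⁵/120 + x^7/4800 on [0, 1.35]).
-/

open MeasureTheory Set Filter Topology
open Pool.Agent.Helper54.LG

namespace Pool.Agent.Helper25.LG

private lemma sinh_le17 {x : ℝ} (hx : 0 ≤ x) : Real.sinh x ≤ x + x ^ 3 / 6 * Real.cosh x := by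
  have h1 := (hasSum_nat_add_iff' 1).2 (Real.hasSum_sinh x)
  have h2 := (Real.hasSum_cosh x).mul_left (x ^ 3 / 6)
  have h3 := hasSum_le (fun n => ?_) h1 h2
  · simp only [Finset.range_one, Finset.sum_singleton, mul_zero, zero_add, pow_one,
      Nat.factorial_one, Nat.cast_one, div_one] at h3
    linarith
  · have hf : (((2 * (n + 1) + 1).factorial : ℕ) : ℝ) =
        (2 * n + 3) * (2 * n + 2) * (2 * n + 1) * ((2 * n).factorial : ℝ) := by
      have e : 2 * (n + 1) + 1 = (2 * n + 1 + 1) + 1 := by ring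
      rw [e, Nat.factorial_succ, Nat.factorial_succ, Nat.factorial_succ]
      push_cast
      ring
    have hp : (0 : ℝ) < ((2 * n).factorial : ℝ) := by positivity
    have hn : (0 : ℝ) ≤ (n : ℝ) := Nat.cast_nonneg n
    have hx2 : (0 : ℝ) ≤ x ^ (2 * n + 3) := by positivity
    have e1 : x ^ (2 * (n + 1) + 1) = x ^ (2 * n + 3) := by ring
    have e2 : x ^ 3 / 6 * (x ^ (2 * n) / ((2 * n).factorial : ℝ)) =
        x ^ (2 * n + 3) / (6 * ((2 * n).factorial : ℝ)) := by
      rw [pow_add]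
      field_simp
    rw [hf, e1, e2]
    apply div_le_div_of_nonneg_left hx2 (by positivity)
    nlinarith [mul_nonneg hn hp.le, mul_nonneg (mul_nonneg hn hn) hp.le,
      mul_nonneg (mul_nonneg (mul_nonneg hn hn) hn) hp.le]

private lemma cosh_ge17 (x : ℝ) : 1 + x ^ 2 / 2 + x ^ 4 / 24 ≤ Real.cosh x := by
  have h := sum_le_hasSum (Finset.range 3) (fun n _ => ?_) (Real.hasSum_cosh x)
  · simp only [Finset.sum_range_succ, Finset.range_zero, Finset.sum_empty, mul_zero, pow_zero,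
      Nat.factorial_zero, Nat.cast_one, div_one, zero_add, mul_one] at h
    norm_num [Nat.factorial] at h
    linarith
  · rw [pow_mul]
    positivity

/-- The polynomial inequality on `[1/2, 27/20]`. -/
private lemma pol17 {x : ℝ} (h1 : 1 / 2 ≤ x) :
    0 ≤ (2 + (27 / 20 - x) ^ 2 - 2 / 3 * (27 / 20 - x) * x ^ 3) * (1 + x ^ 2 / 2 + x ^ 4 / 24) -
      4 * (27 / 20 - x) * x - 1 := by
  rcases le_total x (4 / 5) with h3 | h3
  · have hp : 0 ≤ x - 1 / 2 := by linarith
    have hq : 0 ≤ 4 / 5 - x := by linarith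
    have e : (2 + (27 / 20 - x) ^ 2 - 2 / 3 * (27 / 20 - x) * x ^ 3) *
        (1 + x ^ 2 / 2 + x ^ 4 / 24) - 4 * (27 / 20 - x) * x - 1 =
      (1044109375 / 236196 : ℝ) * (4 / 5 - x) ^ 8 +
      (11692140625 / 472392 : ℝ) * (x - 1 / 2) ^ 1 * (4 / 5 - x) ^ 7 +
      (13359638125 / 236196 : ℝ) * (x - 1 / 2) ^ 2 * (4 / 5 - x) ^ 6 +
      (3962682125 / 59049 : ℝ) * (x - 1 / 2) ^ 3 * (4 / 5 - x) ^ 5 +
      (20842598675 / 472392 : ℝ) * (x - 1 / 2) ^ 4 * (4 / 5 - x) ^ 4 +
      (1058309600 / 59049 : ℝ) * (x - 1 / 2) ^ 5 * (4 / 5 - x) ^ 3 +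
      (454549090 / 59049 : ℝ) * (x - 1 / 2) ^ 6 * (4 / 5 - x) ^ 2 +
      (239125472 / 59049 : ℝ) * (x - 1 / 2) ^ 7 * (4 / 5 - x) ^ 1 +
      (60825616 / 59049 : ℝ) * (x - 1 / 2) ^ 8 := by
      ring
    rw [e]
    positivity
  · have hp : 0 ≤ x - 4 / 5 := by linarith
    have e : (2 + (27 / 20 - x) ^ 2 - 2 / 3 * (27 / 20 - x) * x ^ 3) *
        (1 + x ^ 2 / 2 + x ^ 4 / 24) - 4 * (27 / 20 - x) * x - 1 =
      (3801601 / 56250000 : ℝ) +
      (2577911 / 2812500 : ℝ) * (x - 4 / 5) ^ 1 +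
      (26877113 / 4500000 : ℝ) * (x - 4 / 5) ^ 2 +
      (496153 / 225000 : ℝ) * (x - 4 / 5) ^ 3 +
      (80651 / 28800 : ℝ) * (x - 4 / 5) ^ 4 +
      (27539 / 18000 : ℝ) * (x - 4 / 5) ^ 5 +
      (1193 / 1800 : ℝ) * (x - 4 / 5) ^ 6 +
      (101 / 720 : ℝ) * (x - 4 / 5) ^ 7 +
      (1 / 36 : ℝ) * (x - 4 / 5) ^ 8 := by
      ring
    rw [e]
    positivity

/-- The second derivative is nonnegative: with `x = au`, `d = a (1-u)`. -/
private lemma quad17 {x d : ℝ} (hx : 0 ≤ x) (hd : 0 ≤ d) (hs : x + d ≤ 27 / 20) :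
    0 ≤ 2 * Real.cosh x - 1 - 4 * d * Real.sinh x + d ^ 2 * Real.cosh x := by
  have hC1 : 1 ≤ Real.cosh x := Real.one_le_cosh x
  have hS0 : 0 ≤ Real.sinh x := Real.sinh_nonneg_iff.2 hx
  have hsq : Real.cosh x ^ 2 = Real.sinh x ^ 2 + 1 := Real.cosh_sq x
  set C := Real.cosh x with hC
  set S := Real.sinh x with hS
  rcases le_total x (1 / 2) with h | h
  · -- the discriminant is negative
    have hC2 : C ≤ 8 / 7 := by
      have h1 : C ≤ Real.exp (x ^ 2 / 2) := Real.cosh_le_exp_half_sq x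
      have h2 : Real.exp (x ^ 2 / 2) ≤ Real.exp (1 / 8) := by
        apply Real.exp_le_exp.2
        nlinarith
      have h3 : 7 / 8 ≤ Real.exp (-(1 / 8)) := by
        have := Real.add_one_le_exp (-(1 / 8 : ℝ))
        linarith
      have h4 : Real.exp (1 / 8) * Real.exp (-(1 / 8)) = 1 := by
        rw [← Real.exp_add]
        simp
      have h5 := Real.exp_pos (1 / 8)
      nlinarith
    have h6 : 0 ≤ C * (2 * C - 1 - 4 * d * S + d ^ 2 * C) := by
      have e : C * (2 * C - 1 - 4 * d * S + d ^ 2 * C) =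
          (C * d - 2 * S) ^ 2 + (4 - C - 2 * C ^ 2) := by
        have : S ^ 2 = C ^ 2 - 1 := by linarith
        nlinarith
      rw [e]
      nlinarith [sq_nonneg (C * d - 2 * S)]
    exact nonneg_of_mul_nonneg_right h6 (by linarith)
  · -- decreasing in `d`
    have hSx : x ≤ S := Real.self_le_sinh_iff.2 hx
    have hCS : C ≤ 9 / 4 * S := by
      nlinarith
    set D : ℝ := 27 / 20 - x with hD
    have hdD : d ≤ D := by linarith
    have hD2 : D ≤ 17 / 20 := by linarith
    have hD0 : 0 ≤ D := by linarith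
    have m1 : 0 ≤ (D - d) * (4 * S - (d + D) * C) := by
      apply mul_nonneg (by linarith)
      nlinarith
    have hsin : S ≤ x + x ^ 3 / 6 * C := sinh_le17 hx
    have hcos : 1 + x ^ 2 / 2 + x ^ 4 / 24 ≤ C := cosh_ge17 x
    have hA : 0 ≤ 2 + D ^ 2 - 2 / 3 * D * x ^ 3 := by
      have hx3 : x ^ 3 ≤ 3 := by
        have : x ≤ 27 / 20 := by linarith
        have h7 : x ^ 3 ≤ (27 / 20) ^ 3 := pow_le_pow_left₀ hx this 3
        linarith [h7, (by norm_num : ((27 : ℝ) / 20) ^ 3 ≤ 3)]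
      have h8 : D * x ^ 3 ≤ 17 / 20 * 3 :=
        mul_le_mul hD2 hx3 (by positivity) (by norm_num)
      nlinarith
    have hpol := pol17 h
    rw [← hD] at hpol
    have m2 := mul_le_mul_of_nonneg_left hcos hA
    have m3 := mul_le_mul_of_nonneg_left hsin (by positivity : 0 ≤ 4 * D)
    have e : 2 * C - 1 - 4 * d * S + d ^ 2 * C =
        (D - d) * (4 * S - (d + D) * C) + ((2 + D ^ 2) * C - 4 * D * S - 1) := by ring
    rw [e]
    nlinarith

/-- First derivative of `hA a`. -/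
private noncomputable def hB17 (a u : ℝ) : ℝ :=
  -2 * (1 - u) * (2 * Real.cosh (a * u) - 1) + (1 - u) ^ 2 * (2 * (a * Real.sinh (a * u)))

/-- Second derivative of `hA a`. -/
private noncomputable def hC17 (a u : ℝ) : ℝ :=
  2 * (2 * Real.cosh (a * u) - 1) - 8 * (a * (1 - u)) * Real.sinh (a * u) +
    2 * (a * (1 - u)) ^ 2 * Real.cosh (a * u)

private lemma hA_deriv17 (a u : ℝ) : HasDerivAt (hA a) (hB17 a u) u := by
  have h1 : HasDerivAt (fun u : ℝ => a * u) a u := by
    simpa using (hasDerivAt_id u).const_mul a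
  have h2 : HasDerivAt (fun u : ℝ => 1 - u) (-1) u := by
    simpa using (hasDerivAt_id u).const_sub 1
  have h3 : HasDerivAt (fun u : ℝ => (1 - u) ^ 2 * (2 * Real.cosh (a * u) - 1)) _ u :=
    (h2.pow 2).mul ((h1.cosh.const_mul 2).sub_const 1)
  refine h3.congr_deriv ?_
  simp only [hB17, Pi.pow_apply]
  push_cast
  ring

private lemma hB_deriv17 (a u : ℝ) : HasDerivAt (hB17 a) (hC17 a u) u := by
  have h1 : HasDerivAt (fun u : ℝ => a * u) a u := by
    simpa using (hasDerivAt_id u).const_mul a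
  have h2 : HasDerivAt (fun u : ℝ => 1 - u) (-1) u := by
    simpa using (hasDerivAt_id u).const_sub 1
  have h3 : HasDerivAt (fun u : ℝ => -2 * (1 - u) * (2 * Real.cosh (a * u) - 1) +
      (1 - u) ^ 2 * (2 * (a * Real.sinh (a * u)))) _ u :=
    ((h2.const_mul (-2)).mul ((h1.cosh.const_mul 2).sub_const 1)).add
      ((h2.pow 2).mul ((h1.sinh.const_mul a).const_mul 2))
  refine h3.congr_deriv ?_
  simp only [hC17, Pi.pow_apply]
  push_cast
  ring

private lemma hA_cont17 (a : ℝ) : Continuous (hA a) :=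
  continuous_iff_continuousAt.2 fun u => (hA_deriv17 a u).continuousAt

private lemma hC_cont17 (a : ℝ) : Continuous (hC17 a) := by
  unfold hC17
  have h1 : Continuous fun u : ℝ => Real.cosh (a * u) :=
    Real.continuous_cosh.comp (continuous_const.mul continuous_id)
  have h2 : Continuous fun u : ℝ => Real.sinh (a * u) :=
    Real.continuous_sinh.comp (continuous_const.mul continuous_id)
  fun_prop

private lemma hC_nonneg17 {a u : ℝ} (h0 : 0 ≤ a) (ha : a ≤ 27 / 20) (hu0 : 0 ≤ u) (hu1 : u ≤ 1) :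
    0 ≤ hC17 a u := by
  have h := quad17 (x := a * u) (d := a * (1 - u)) (mul_nonneg h0 hu0)
    (mul_nonneg h0 (by linarith)) (by nlinarith)
  unfold hC17
  nlinarith

/-- Two integrations by parts. -/
private lemma parts17 (a : ℝ) {b : ℝ} (hb : b ≠ 0) :
    ∫ u in (0:ℝ)..1, hA a u * Real.cos (b * u) =
      ∫ u in (0:ℝ)..1, hC17 a u * (1 - Real.cos (b * u)) / b ^ 2 := by
  have hcos : Continuous fun u : ℝ => Real.cos (b * u) :=
    Real.continuous_cos.comp (continuous_const.mul continuous_id)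
  have c1 : Continuous fun u : ℝ => hA a u * Real.cos (b * u) := (hA_cont17 a).mul hcos
  have c2 : Continuous fun u : ℝ => hC17 a u * (1 - Real.cos (b * u)) / b ^ 2 :=
    ((hC_cont17 a).mul (continuous_const.sub hcos)).div_const _
  have key : ∫ u in (0:ℝ)..1, (hA a u * Real.cos (b * u) -
      hC17 a u * (1 - Real.cos (b * u)) / b ^ 2) =
      (hA a 1 * (Real.sin (b * 1) / b) + hB17 a 1 * ((Real.cos (b * 1) - 1) / b ^ 2)) -
      (hA a 0 * (Real.sin (b * 0) / b) + hB17 a 0 * ((Real.cos (b * 0) - 1) / b ^ 2)) := by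
    apply intervalIntegral.integral_eq_sub_of_hasDerivAt
      (f := fun u => hA a u * (Real.sin (b * u) / b) + hB17 a u * ((Real.cos (b * u) - 1) / b ^ 2))
    · intro u _
      have h1 : HasDerivAt (fun u : ℝ => b * u) b u := by
        simpa using (hasDerivAt_id u).const_mul b
      have h3 : HasDerivAt (fun u => hA a u * (Real.sin (b * u) / b) +
          hB17 a u * ((Real.cos (b * u) - 1) / b ^ 2)) _ u :=
        ((hA_deriv17 a u).mul (h1.sin.div_const b)).add
          ((hB_deriv17 a u).mul ((h1.cos.sub_const 1).div_const (b ^ 2)))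
      refine h3.congr_deriv ?_
      field_simp
      ring
    · exact (c1.sub c2).intervalIntegrable _ _
  rw [intervalIntegral.integral_sub (c1.intervalIntegrable _ _) (c2.intervalIntegrable _ _)] at key
  have e1 : hA a 1 = 0 := by simp [hA]
  have e2 : hB17 a 1 = 0 := by simp [hB17]
  rw [e1, e2] at key
  simp only [mul_zero, Real.sin_zero, Real.cos_zero, zero_div, sub_self, zero_mul, add_zero] at key
  linarith

theorem ek_zero {a : ℝ} (h0 : 0 ≤ a) (ha : a ≤ 27 / 20) (b : ℝ) : ek a b = 0 := by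
  have hF : Fh (hA a) b ≤ 0 := by
    unfold Fh
    have hI : 0 ≤ ∫ u in (0:ℝ)..1, hA a u * Real.cos (b * u) := by
      by_cases hb : b = 0
      · subst hb
        apply intervalIntegral.integral_nonneg (by norm_num)
        intro u _
        have h1 : 1 ≤ Real.cosh (a * u) := Real.one_le_cosh _
        simp only [hA, zero_mul, Real.cos_zero, mul_one]
        exact mul_nonneg (sq_nonneg _) (by linarith)
      · rw [parts17 a hb]
        apply intervalIntegral.integral_nonneg (by norm_num)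
        intro u hu
        exact div_nonneg (mul_nonneg (hC_nonneg17 h0 ha hu.1 hu.2)
          (by linarith [Real.cos_le_one (b * u)])) (sq_nonneg b)
    linarith
  unfold ek
  rw [qk_sub]
  exact max_eq_left hF

end Pool.Agent.Helper25.LG
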