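import Pool.Agent.Helper25.LG.Num2
import Pool.Agent.Helper25.LG.Pol
import Pool.Agent.Helper25.LG.Big

/-!
# LG-NUM3: the piecewise linear majorant of the integral of the deficit
-/

open MeasureTheory Set Filter Topology
open Pool.Agent.Helper54.LG

namespace Pool.Agent.Helper25.LG

def sL : List ℚ := [1149/80000, 181/400000, 1097/50000, 2879/100000, 8057/200000, 24851/500000, 64951/750000,
  150851/1200000, 65563/400000, 1667/6000, 395947/600000, 1169473/1000000, 5243499/500000]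

def aL : List ℚ := [103/100, 27/20, 31/20, 7/4, 39/20, 43/20, 12/5, 27/10, 31/10, 18/5, 21/5, 5, 6]

def sq (j : ℕ) : ℚ := if j < 13 then sL.getD j 0 else 20 * 3 ^ (j - 13)

def aq (j : ℕ) : ℚ := if j < 13 then aL.getD j 0 else 7 + ((j - 13 : ℕ) : ℚ)

def Ssum (m : ℕ) (x : ℚ) : ℚ := ∑ j ∈ Finset.range m, sq j * (x - aq j)

lemma sq_nonneg' (j : ℕ) : 0 ≤ sq j := by
  unfold sq
  split_ifs with h
  · have h' : ∀ j, j < 13 → 0 ≤ sL.getD j 0 := by decide +kernel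
    exact h' j h
  · positivity

lemma aq_pos (j : ℕ) : 0 < aq j := by
  unfold aq
  split_ifs with h
  · have h' : ∀ j, j < 13 → 0 < aL.getD j 0 := by decide +kernel
    exact h' j h
  · positivity

lemma lower_sum {m N : ℕ} (h : m ≤ N) (x : ℝ) :
    ∑ j ∈ Finset.range m, (sq j : ℝ) * (x - aq j) ≤ ∑ j ∈ Finset.range N, (sq j : ℝ) * max 0 (x - aq j) := by
  calc ∑ j ∈ Finset.range m, (sq j : ℝ) * (x - aq j) ≤ ∑ j ∈ Finset.range m, (sq j : ℝ) * max 0 (x - aq j) := by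
        refine Finset.sum_le_sum fun j _ => ?_
        have : (0:ℝ) ≤ sq j := by exact_mod_cast sq_nonneg' j
        exact mul_le_mul_of_nonneg_left (le_max_right _ _) this
    _ ≤ _ := by
        apply Finset.sum_le_sum_of_subset_of_nonneg
        · exact Finset.range_mono h
        · intro j _ _
          have : (0:ℝ) ≤ sq j := by exact_mod_cast sq_nonneg' j
          exact mul_nonneg this (le_max_left _ _)

lemma Ssum_affine (m : ℕ) (n1 n2 : ℚ) (a : ℝ) :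
    ((n2:ℝ) - n1) * ∑ j ∈ Finset.range m, (sq j : ℝ) * (a - aq j) =
      (n2 - a) * ((Ssum m n1 : ℚ) : ℝ) + (a - n1) * ((Ssum m n2 : ℚ) : ℝ) := by
  unfold Ssum
  push_cast
  rw [Finset.mul_sum, Finset.mul_sum, Finset.mul_sum, ← Finset.sum_add_distrib]
  refine Finset.sum_congr rfl fun j _ => ?_
  ring

/-- one segment -/
lemma segment {g r be q0 n1 n2 V1 V2 : ℚ} {M K m : ℕ} (hg : 0 < g) (hr : 0 ≤ r) (hr1 : r < 1) (hbe : 0 < be)
    (hq0 : 0 ≤ q0) (hq : (q0 : ℝ) ≤ Real.exp (-(1 / (g:ℝ)))) (hM : 2 ≤ M) (h0 : 0 ≤ n1) (hn : n1 < n2) (hK : n2 ≤ K)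
    (hchk : chk g r be (bwq g r q0) M K n1 n2 V1 V2 = true) (hV1 : V1 ≤ Ssum m n1) (hV2 : V2 ≤ Ssum m n2)
    {N : ℕ} (hN : m ≤ N) {a : ℝ} (h1 : (n1:ℝ) ≤ a) (h2 : a ≤ n2) :
    ∫ b : ℝ, ek a b ≤ 2 * Real.pi * ∑ j ∈ Finset.range N, (sq j : ℝ) * max 0 (a - aq j) := by
  have hpi := Real.pi_pos
  have hn' : (0:ℝ) < (n2:ℝ) - n1 := by
    have : (n1:ℝ) < n2 := by exact_mod_cast hn
    linarith
  have hb := interval_bound hg hr hr1 hbe hq0 hq hM h0 hn hK hchk h1 h2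
  have e1 : 0 ≤ (n2:ℝ) - a := by linarith
  have e2 : 0 ≤ a - (n1:ℝ) := by linarith
  have hV1' : (V1:ℝ) ≤ ((Ssum m n1 : ℚ) : ℝ) := by exact_mod_cast hV1
  have hV2' : (V2:ℝ) ≤ ((Ssum m n2 : ℚ) : ℝ) := by exact_mod_cast hV2
  have h3 : ((n2:ℝ) - n1) * ∫ b : ℝ, ek a b ≤ ((n2:ℝ) - n1) * (2 * Real.pi * ∑ j ∈ Finset.range m, (sq j : ℝ) * (a - aq j)) := by
    calc ((n2:ℝ) - n1) * ∫ b : ℝ, ek a b ≤ 2 * Real.pi * ((n2 - a) * V1 + (a - n1) * V2) := hb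
      _ ≤ 2 * Real.pi * ((n2 - a) * ((Ssum m n1 : ℚ) : ℝ) + (a - n1) * ((Ssum m n2 : ℚ) : ℝ)) := by gcongr
      _ = _ := by rw [← Ssum_affine]; ring
  have h4 := le_of_mul_le_mul_left h3 hn'
  refine h4.trans ?_
  exact mul_le_mul_of_nonneg_left (lower_sum hN a) (by positivity)

/-- `17377/100000 ≤ exp(-7/4)` -/
lemma exp_74 : (((17377/100000 : ℚ)) : ℝ) ≤ Real.exp (-(1 / ((4/7 : ℚ) : ℝ))) := by
  have h1 := exp_le_exq (x := 7/8) (by norm_num) (by norm_num) (n := 12) (by norm_num)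
  have h2 : Real.exp (-(1 / ((4/7 : ℚ) : ℝ))) = (Real.exp ((7/8 : ℚ) : ℝ) ^ 2)⁻¹ := by
    rw [← Real.exp_nat_mul, ← Real.exp_neg]
    congr 1
    push_cast
    norm_num
  rw [h2]
  obtain ⟨E, hE⟩ : ∃ E : ℚ, E = exq 12 (7/8) + (7/8) ^ 12 * (((12 : ℕ) : ℚ) + 1) / (((Nat.factorial 12 : ℕ) : ℚ) * ((12 : ℕ) : ℚ)) := ⟨_, rfl⟩
  have h3 : Real.exp ((7/8 : ℚ) : ℝ) ≤ ((E : ℚ) : ℝ) := by
    rw [hE]
    exact h1
  have h4 : (17377/100000 : ℚ) * E ^ 2 ≤ 1 := by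
    rw [hE]
    decide +kernel
  have h5 : (0:ℝ) < Real.exp ((7/8 : ℚ) : ℝ) := Real.exp_pos _
  have h4' : ((17377/100000 : ℚ) : ℝ) * ((E : ℚ) : ℝ) ^ 2 ≤ 1 := by exact_mod_cast h4
  rw [le_inv_comm₀ (by norm_num) (by positivity)]
  have h6 : Real.exp ((7/8 : ℚ) : ℝ) ^ 2 ≤ ((E : ℚ) : ℝ) ^ 2 := pow_le_pow_left₀ h5.le h3 2
  refine h6.trans ?_
  rw [le_inv_comm₀]
  · rw [← one_div, le_div_iff₀]
    · exact h4'
    · have : (0:ℝ) < ((E : ℚ) : ℝ) := lt_of_lt_of_le h5 h3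
      positivity
  · have : (0:ℝ) < ((E : ℚ) : ℝ) := lt_of_lt_of_le h5 h3
    positivity
  · norm_num

end Pool.Agent.Helper25.LG
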