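import Pool.Agent.Helper25.LG.Num3

/-!
# LG-NUM4: all depths, and the value of the density sum (certificate C2)
-/

open MeasureTheory Set Filter Topology
open Pool.Agent.Helper54.LG

namespace Pool.Agent.Helper25.LG

set_option maxRecDepth 20000

lemma zero_le_exp' {g : ℚ} : (((0 : ℚ)) : ℝ) ≤ Real.exp (-(1 / ((g : ℚ) : ℝ))) := by
  push_cast
  exact (Real.exp_pos _).le

/-- depths up to `7` -/
lemma mid {a : ℝ} (h1 : ((27/20 : ℚ) : ℝ) ≤ a) (h2 : a ≤ ((7 : ℚ) : ℝ)) {N : ℕ} (hN : 13 ≤ N) :
    ∫ b : ℝ, ek a b ≤ 2 * Real.pi * ∑ j ∈ Finset.range N, (sq j : ℝ) * max 0 (a - aq j) := by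
  rcases le_total a ((31/20 : ℚ) : ℝ) with h | h
  · exact segment (g := 4/7) (r := 1/6) (be := 1191/1000) (q0 := 17377/100000) (n1 := 27/20) (n2 := 31/20)
      (V1 := 1149/250000) (V2 := 7559/1000000) (M := 11) (K := 2) (m := 2) (by norm_num) (by norm_num) (by norm_num) (by norm_num)
      (by norm_num) exp_74 (by norm_num) (by norm_num) (by norm_num) (by norm_num) (by decide +kernel) (by decide +kernel)
      (by decide +kernel) (by omega) h1 h
  rcases le_total a ((7/4 : ℚ) : ℝ) with h' | h'
  · exact segment (g := 4/7) (r := 1/6) (be := 601/500) (q0 := 17377/100000) (n1 := 31/20) (n2 := 7/4)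
      (V1 := 7559/1000000) (V2 := 1491/100000) (M := 11) (K := 2) (m := 3) (by norm_num) (by norm_num) (by norm_num) (by norm_num)
      (by norm_num) exp_74 (by norm_num) (by norm_num) (by norm_num) (by norm_num) (by decide +kernel) (by decide +kernel)
      (by decide +kernel) (by omega) h h'
  clear h
  rcases le_total a ((39/20 : ℚ) : ℝ) with h | h
  · exact segment (g := 4/7) (r := 1/7) (be := 49/40) (q0 := 17377/100000) (n1 := 7/4) (n2 := 39/20)
      (V1 := 1491/100000) (V2 := 28019/1000000) (M := 11) (K := 2) (m := 4) (by norm_num) (by norm_num) (by norm_num) (by norm_num)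
      (by norm_num) exp_74 (by norm_num) (by norm_num) (by norm_num) (by norm_num) (by decide +kernel) (by decide +kernel)
      (by decide +kernel) (by omega) h' h
  clear h'
  rcases le_total a ((43/20 : ℚ) : ℝ) with h' | h'
  · exact segment (g := 4/7) (r := 1/7) (be := 158/125) (q0 := 17377/100000) (n1 := 39/20) (n2 := 43/20)
      (V1 := 28019/1000000) (V2 := 9837/200000) (M := 11) (K := 3) (m := 5) (by norm_num) (by norm_num) (by norm_num) (by norm_num)
      (by norm_num) exp_74 (by norm_num) (by norm_num) (by norm_num) (by norm_num) (by decide +kernel) (by decide +kernel)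
      (by decide +kernel) (by omega) h h'
  clear h
  rcases le_total a ((12/5 : ℚ) : ℝ) with h | h
  · exact segment (g := 4/7) (r := 1/10) (be := 663/500) (q0 := 17377/100000) (n1 := 43/20) (n2 := 12/5)
      (V1 := 9837/200000) (V2 := 22017/250000) (M := 11) (K := 3) (m := 6) (by norm_num) (by norm_num) (by norm_num) (by norm_num)
      (by norm_num) exp_74 (by norm_num) (by norm_num) (by norm_num) (by norm_num) (by decide +kernel) (by decide +kernel)
      (by decide +kernel) (by omega) h' h
  clear h'
  rcases le_total a ((27/10 : ℚ) : ℝ) with h' | h'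
  · exact segment (g := 4/7) (r := 1/10) (be := 1437/1000) (q0 := 17377/100000) (n1 := 12/5) (n2 := 27/10)
      (V1 := 22017/250000) (V2 := 40177/250000) (M := 11) (K := 3) (m := 7) (by norm_num) (by norm_num) (by norm_num) (by norm_num)
      (by norm_num) exp_74 (by norm_num) (by norm_num) (by norm_num) (by norm_num) (by decide +kernel) (by decide +kernel)
      (by decide +kernel) (by omega) h h'
  clear h
  rcases le_total a ((31/10 : ℚ) : ℝ) with h | h
  · exact segment (g := 4/7) (r := 0) (be := 411/250) (q0 := 17377/100000) (n1 := 27/10) (n2 := 31/10)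
      (V1 := 40177/250000) (V2 := 61569/200000) (M := 11) (K := 4) (m := 8) (by norm_num) (by norm_num) (by norm_num) (by norm_num)
      (by norm_num) exp_74 (by norm_num) (by norm_num) (by norm_num) (by norm_num) (by decide +kernel) (by decide +kernel)
      (by decide +kernel) (by omega) h' h
  clear h'
  rcases le_total a ((18/5 : ℚ) : ℝ) with h' | h'
  · exact segment (g := 2/5) (r := 0) (be := 176/125) (q0 := 0) (n1 := 31/10) (n2 := 18/5)
      (V1 := 61569/200000) (V2 := 14343/25000) (M := 11) (K := 4) (m := 9) (by norm_num) (by norm_num) (by norm_num) (by norm_num)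
      (by norm_num) zero_le_exp' (by norm_num) (by norm_num) (by norm_num) (by norm_num) (by decide +kernel) (by decide +kernel)
      (by decide +kernel) (by omega) h h'
  clear h
  rcases le_total a ((21/5 : ℚ) : ℝ) with h | h
  · exact segment (g := 2/5) (r := 0) (be := 81/40) (q0 := 0) (n1 := 18/5) (n2 := 21/5)
      (V1 := 14343/25000) (V2 := 105947/100000) (M := 18) (K := 5) (m := 10) (by norm_num) (by norm_num) (by norm_num) (by norm_num)
      (by norm_num) zero_le_exp' (by norm_num) (by norm_num) (by norm_num) (by norm_num) (by decide +kernel) (by decide +kernel)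
      (by decide +kernel) (by omega) h' h
  clear h'
  rcases le_total a ((5 : ℚ) : ℝ) with h' | h'
  · exact segment (g := 1/3) (r := 0) (be := 2431/1000) (q0 := 0) (n1 := 21/5) (n2 := 5)
      (V1 := 105947/100000) (V2 := 1117533/500000) (M := 18) (K := 5) (m := 11) (by norm_num) (by norm_num) (by norm_num) (by norm_num)
      (by norm_num) zero_le_exp' (by norm_num) (by norm_num) (by norm_num) (by norm_num) (by decide +kernel) (by decide +kernel)
      (by decide +kernel) (by omega) h h'
  clear h
  rcases le_total a ((6 : ℚ) : ℝ) with h | h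
  · exact segment (g := 3/10) (r := 0) (be := 546/125) (q0 := 0) (n1 := 5) (n2 := 6)
      (V1 := 1117533/500000) (V2 := 2437017/500000) (M := 18) (K := 6) (m := 12) (by norm_num) (by norm_num) (by norm_num) (by norm_num)
      (by norm_num) zero_le_exp' (by norm_num) (by norm_num) (by norm_num) (by norm_num) (by decide +kernel) (by decide +kernel)
      (by decide +kernel) (by omega) h' h
  · exact segment (g := 1/4) (r := 0) (be := 7067/1000) (q0 := 0) (n1 := 6) (n2 := 7)
      (V1 := 2437017/500000) (V2 := 18) (M := 18) (K := 7) (m := 13) (by norm_num) (by norm_num) (by norm_num) (by norm_num)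
      (by norm_num) zero_le_exp' (by norm_num) (by norm_num) (by norm_num) (by norm_num) (by decide +kernel) (by decide +kernel)
      (by decide +kernel) (by omega) h h2

end Pool.Agent.Helper25.LG
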