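import Pool.Agent.Helper25.LG.Num4

/-!
# LG-NUM5: deep zeros, the value of the density sum, certificate C2
-/

open MeasureTheory Set Filter Topology
open Pool.Agent.Helper54.LG

namespace Pool.Agent.Helper25.LG

set_option maxRecDepth 20000

lemma geo_sum (x : ℝ) (j : ℕ) :
    ∑ i ∈ Finset.range (j + 1), (3:ℝ) ^ i * (x - i) = x * (3 ^ (j + 1) - 1) / 2 - ((2 * j - 1) * 3 ^ (j + 1) + 3) / 4 := by
  induction j with
  | zero => simp; ring
  | succ j ih =>
    rw [Finset.sum_range_succ, ih]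
    push_cast
    ring

lemma e_lt : Real.exp 1 < 27183/10000 := by
  have := Real.exp_one_lt_d9
  linarith

lemma cmp1 (j : ℕ) : 17.812 * Real.exp j ≤ 3 + 3 * j + 15 * 3 ^ j := by
  have h0 : Real.exp j = Real.exp 1 ^ j := by rw [← Real.exp_nat_mul, mul_one]
  have h1 : Real.exp j ≤ (27183/10000) ^ j := by
    rw [h0]; exact pow_le_pow_left₀ (Real.exp_pos 1).le e_lt.le j
  rcases j with _ | _ | j
  · simp; norm_num
  · norm_num at h1 ⊢; linarith
  · have h2 : ∀ k : ℕ, 17.812 * (27183/10000 : ℝ) ^ (k + 2) ≤ 15 * 3 ^ (k + 2) := by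
      intro k
      induction k with
      | zero => norm_num
      | succ k ih =>
        have h3 : (0:ℝ) < (27183/10000 : ℝ) ^ (k + 2) := by positivity
        have h4 : (27183/10000 : ℝ) ^ (k + 1 + 2) = (27183/10000 : ℝ) ^ (k + 2) * (27183/10000) := by
          rw [← pow_succ]
        have h5 : (3 : ℝ) ^ (k + 1 + 2) = (3 : ℝ) ^ (k + 2) * 3 := by
          rw [← pow_succ]
        rw [h4, h5]
        nlinarith
    have h3 := h2 j
    have h4 : (0:ℝ) ≤ ((j + 1 + 1 : ℕ) : ℝ) := Nat.cast_nonneg _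
    push_cast at *
    rw [show j + 1 + 1 = j + 2 by ring] at *
    nlinarith

lemma cmp2 (j : ℕ) : 30.61 * Real.exp j ≤ 3 + 30 * 3 ^ j := by
  have h0 : Real.exp j = Real.exp 1 ^ j := by rw [← Real.exp_nat_mul, mul_one]
  have h1 : Real.exp j ≤ (27183/10000) ^ j := by
    rw [h0]; exact pow_le_pow_left₀ (Real.exp_pos 1).le e_lt.le j
  rcases j with _ | j
  · simp; norm_num
  · have h2 : ∀ k : ℕ, 30.61 * (27183/10000 : ℝ) ^ (k + 1) ≤ 30 * 3 ^ (k + 1) := by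
      intro k
      induction k with
      | zero => norm_num
      | succ k ih =>
        have h3 : (0:ℝ) < (27183/10000 : ℝ) ^ (k + 1) := by positivity
        have h4 : (27183/10000 : ℝ) ^ (k + 1 + 1) = (27183/10000 : ℝ) ^ (k + 1) * (27183/10000) := by
          rw [← pow_succ]
        have h5 : (3 : ℝ) ^ (k + 1 + 1) = (3 : ℝ) ^ (k + 1) * 3 := by
          rw [← pow_succ]
        rw [h4, h5]
        nlinarith
    have h3 := h2 j
    linarith

lemma exp7 : Real.exp 7 ≤ 1096.65 := by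
  have h : Real.exp 7 = Real.exp 1 ^ 7 := by
    rw [← Real.exp_nat_mul]; norm_num
  rw [h]
  have h1 := Real.exp_one_lt_d9
  have h2 : Real.exp 1 ^ 7 ≤ 2.7182818286 ^ 7 := pow_le_pow_left₀ (Real.exp_pos 1).le h1.le 7
  refine h2.trans ?_
  norm_num

lemma exp_le_lin {y : ℝ} (h0 : 0 ≤ y) (h1 : y ≤ 1) : Real.exp y ≤ 1 + 1.7183 * y := by
  have hc := convexOn_exp.2 (mem_univ (0:ℝ)) (mem_univ (1:ℝ)) (show 0 ≤ 1 - y by linarith) h0 (by ring)
  simp only [smul_eq_mul, mul_zero, mul_one, zero_add, Real.exp_zero] at hc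
  have := e_lt
  nlinarith

/-- deep zeros -/
lemma deep {a : ℝ} {j : ℕ} (h1 : (7:ℝ) + j ≤ a) (h2 : a ≤ 8 + j) {N : ℕ} (hN : 14 + j ≤ N) :
    ∫ b : ℝ, ek a b ≤ 2 * Real.pi * ∑ i ∈ Finset.range N, (sq i : ℝ) * max 0 (a - aq i) := by
  have hj : (0:ℝ) ≤ j := Nat.cast_nonneg j
  have hb := ek_int_big (a := a) (by linarith)
  have hpi : 3.1415 < Real.pi := Real.pi_gt_d4
  -- lower bound for the sum
  have hs : 18 + 13 * (a - 7) + 20 * ((a - 7) * (3 ^ (j + 1) - 1) / 2 - ((2 * j - 1) * 3 ^ (j + 1) + 3) / 4) ≤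
      ∑ i ∈ Finset.range N, (sq i : ℝ) * max 0 (a - aq i) := by
    refine le_trans ?_ (lower_sum hN a)
    rw [show 14 + j = 13 + (j + 1) by ring, Finset.sum_range_add]
    have e1 : ∑ i ∈ Finset.range (j + 1), (sq (13 + i) : ℝ) * (a - aq (13 + i)) =
        20 * ∑ i ∈ Finset.range (j + 1), (3:ℝ) ^ i * (a - 7 - i) := by
      rw [Finset.mul_sum]
      refine Finset.sum_congr rfl fun i _ => ?_
      unfold sq aq
      rw [if_neg (by omega), if_neg (by omega), show 13 + i - 13 = i by omega]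
      push_cast
      ring
    rw [e1, geo_sum]
    have e2 := Ssum_affine 13 7 8 a
    have e3 : (18 : ℚ) ≤ Ssum 13 7 := by decide +kernel
    have e4 : Ssum 13 7 + 13 ≤ Ssum 13 8 := by decide +kernel
    have e3' : (18 : ℝ) ≤ ((Ssum 13 7 : ℚ) : ℝ) := by exact_mod_cast e3
    have e4' : ((Ssum 13 7 : ℚ) : ℝ) + 13 ≤ ((Ssum 13 8 : ℚ) : ℝ) := by exact_mod_cast e4
    push_cast at e2
    have e5 : ∑ i ∈ Finset.range 13, (sq i : ℝ) * (a - aq i) =
        ((Ssum 13 7 : ℚ) : ℝ) + (a - 7) * (((Ssum 13 8 : ℚ) : ℝ) - ((Ssum 13 7 : ℚ) : ℝ)) := by linarith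
    have e6 : 0 ≤ a - 7 := by linarith
    have e7 : (a - 7) * 13 ≤ (a - 7) * (((Ssum 13 8 : ℚ) : ℝ) - ((Ssum 13 7 : ℚ) : ℝ)) :=
      mul_le_mul_of_nonneg_left (by linarith) e6
    rw [e5]
    linarith
  -- upper bound for the integral
  obtain ⟨y, hy⟩ : ∃ y, y = a - 7 - j := ⟨_, rfl⟩
  have hy0 : 0 ≤ y := by linarith
  have hy1 : y ≤ 1 := by linarith
  have ha : a = 7 + j + y := by linarith
  have hE : Real.exp a ≤ 1096.65 * Real.exp j * (1 + 1.7183 * y) := by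
    rw [ha, Real.exp_add, Real.exp_add]
    have := exp_le_lin hy0 hy1
    have h3 := exp7
    have h4 := Real.exp_pos (j:ℝ)
    gcongr
  have hu : 5 * Real.exp a / a ^ 2 ≤ 5 * (1096.65 * Real.exp j * (1 + 1.7183 * y)) / 49 := by
    have h49 : (49:ℝ) ≤ a ^ 2 := by nlinarith
    have h4 := Real.exp_pos (j:ℝ)
    apply div_le_div₀ (by positivity) (by linarith) (by norm_num) h49
  have hc1 := cmp1 j
  have hc2 := cmp2 j
  have hfin : 5 * (1096.65 * Real.exp j * (1 + 1.7183 * y)) / 49 ≤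
      2 * 3.1415 * (18 + 13 * (a - 7) + 20 * ((a - 7) * (3 ^ (j + 1) - 1) / 2 - ((2 * j - 1) * 3 ^ (j + 1) + 3) / 4)) := by
    have e1 : 18 + 13 * (a - 7) + 20 * ((a - 7) * (3 ^ (j + 1) - 1) / 2 - ((2 * j - 1) * 3 ^ (j + 1) + 3) / 4) =
        (3 + 3 * j + 15 * (3:ℝ) ^ j) + y * (3 + 30 * 3 ^ j) := by
      rw [ha, pow_succ]; ring
    rw [e1]
    have h4 := Real.exp_pos (j:ℝ)
    have e2 : 5 * (1096.65 * Real.exp j * (1 + 1.7183 * y)) / 49 ≤ 6.283 * (17.812 * Real.exp j + y * (30.61 * Real.exp j)) := by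
      have : 0 ≤ y * Real.exp j := mul_nonneg hy0 h4.le
      nlinarith
    have e3 : y * (30.61 * Real.exp j) ≤ y * (3 + 30 * 3 ^ j) := mul_le_mul_of_nonneg_left hc2 hy0
    nlinarith
  have hS0 : 0 ≤ 18 + 13 * (a - 7) + 20 * ((a - 7) * (3 ^ (j + 1) - 1) / 2 - ((2 * j - 1) * 3 ^ (j + 1) + 3) / 4) := by
    have e1 : 18 + 13 * (a - 7) + 20 * ((a - 7) * (3 ^ (j + 1) - 1) / 2 - ((2 * j - 1) * 3 ^ (j + 1) + 3) / 4) =
        (3 + 3 * j + 15 * (3:ℝ) ^ j) + y * (3 + 30 * 3 ^ j) := by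
      rw [ha, pow_succ]; ring
    rw [e1]
    positivity
  calc ∫ b : ℝ, ek a b ≤ _ := hb
    _ ≤ _ := hu
    _ ≤ _ := hfin
    _ ≤ 2 * Real.pi * (18 + 13 * (a - 7) + 20 * ((a - 7) * (3 ^ (j + 1) - 1) / 2 - ((2 * j - 1) * 3 ^ (j + 1) + 3) / 4)) := by
        apply mul_le_mul_of_nonneg_right _ hS0
        linarith
    _ ≤ _ := by
        apply mul_le_mul_of_nonneg_left hs
        linarith

/-- all depths -/
lemma all_depths {A x : ℝ} (h0 : 0 ≤ x) (hx : x ≤ A) {N : ℕ} (hN : 14 + ⌈A⌉₊ ≤ N) :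
    ∫ b : ℝ, ek x b ≤ 2 * Real.pi * ∑ i ∈ Finset.range N, (sq i : ℝ) * max 0 (x - aq i) := by
  rcases le_total x (27/20) with h | h
  · have e1 : (fun b => ek x b) = fun _ => (0:ℝ) := by
      funext b; exact ek_zero h0 h b
    rw [e1, integral_zero]
    have hpi := Real.pi_pos
    apply mul_nonneg (by positivity)
    apply Finset.sum_nonneg
    intro i _
    have : (0:ℝ) ≤ sq i := by exact_mod_cast sq_nonneg' i
    exact mul_nonneg this (le_max_left _ _)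
  rcases le_total x 7 with h' | h'
  · exact mid (by push_cast; exact h) (by push_cast; exact h') (by omega)
  · have h3 : 0 ≤ x - 7 := by linarith
    have h4 := Nat.floor_le h3
    have h5 := Nat.lt_floor_add_one (x - 7)
    apply deep (j := ⌊x - 7⌋₊) (by linarith) (by linarith)
    have h6 : ⌊x - 7⌋₊ ≤ ⌈A⌉₊ := by
      have : ((⌊x - 7⌋₊ : ℕ) : ℝ) ≤ ((⌈A⌉₊ : ℕ) : ℝ) := by
        have := Nat.le_ceil A
        linarith
      exact_mod_cast this
    omega

end Pool.Agent.Helper25.LG
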