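import Pool.Agent.Helper25.LG.Num5
import Pool.Agent.Helper54.LG.Hyp

/-!
# LG-NUM6: the value of the density sum, certificate C2
-/

open MeasureTheory Set Filter Topology
open Pool.Agent.Helper54.LG

namespace Pool.Agent.Helper25.LG

set_option maxRecDepth 20000

/-- rational majorant of `-log (1 - x)` -/
def lgq (x : ℚ) : ℚ := x + x ^ 2 / 2 + x ^ 3 / 3 + x ^ 4 / (1 - x)

lemma neg_log_le {X : ℝ} (h0 : 0 ≤ X) (h1 : X < 1) : -Real.log (1 - X) ≤ X + X ^ 2 / 2 + X ^ 3 / 3 + X ^ 4 / (1 - X) := by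
  have h := Real.abs_log_sub_add_sum_range_le (x := X) (by rw [abs_of_nonneg h0]; exact h1) 3
  rw [abs_of_nonneg h0] at h
  simp only [Finset.sum_range_succ, Finset.sum_range_zero] at h
  norm_num at h
  have h2 := (abs_le.mp h).1
  have : -(X ^ 4 / (1 - X)) ≤ X + X ^ 2 / 2 + X ^ 3 / 3 + Real.log (1 - X) := h2
  linarith

lemma term_le {a : ℚ} (ha : 0 < a) (Xq : ℚ) (hX : Xq = 1 / exq 45 (100 * a / 49)) (hX1 : Xq < 1) :
    -Real.log (1 - Real.exp (-((100 * a / 49 : ℚ) : ℝ))) ≤ ((lgq Xq : ℚ) : ℝ) := by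
  have h1 := exq_le (x := 100 * a / 49) (by positivity) 45
  have hpos : 0 < exq 45 (100 * a / 49) := by
    unfold exq
    apply Finset.sum_pos
    · intro i _
      positivity
    · exact ⟨0, by simp⟩
  have hpos' : (0:ℝ) < ((exq 45 (100 * a / 49) : ℚ) : ℝ) := by exact_mod_cast hpos
  have h2 : Real.exp (-((100 * a / 49 : ℚ) : ℝ)) ≤ ((Xq : ℚ) : ℝ) := by
    rw [hX, Real.exp_neg]
    push_cast
    rw [one_div]
    apply inv_anti₀
    · exact_mod_cast hpos
    · push_cast at h1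
      exact h1
  have hX0 : (0:ℝ) ≤ ((Xq : ℚ) : ℝ) := (Real.exp_pos _).le.trans h2
  have hX1' : ((Xq : ℚ) : ℝ) < 1 := by exact_mod_cast hX1
  have h3 := neg_log_le hX0 hX1'
  have h4 : -Real.log (1 - Real.exp (-((100 * a / 49 : ℚ) : ℝ))) ≤ -Real.log (1 - ((Xq : ℚ) : ℝ)) := by
    apply neg_le_neg
    apply Real.log_le_log (by linarith) (by linarith)
  have h5 : ((lgq Xq : ℚ) : ℝ) = (Xq : ℝ) + (Xq : ℝ) ^ 2 / 2 + (Xq : ℝ) ^ 3 / 3 + (Xq : ℝ) ^ 4 / (1 - Xq) := by
    unfold lgq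
    push_cast
    rfl
  rw [h5]
  exact h4.trans h3

lemma Bn_eq (s a : ℝ) : 2 * Real.pi * s * Bn (a / (2 * Real.pi * (49 / 100))) =
    s / 2 * (-Real.log (1 - Real.exp (-(100 * a / 49)))) := by
  unfold Bn
  have hpi := Real.pi_pos
  have e1 : 2 * Real.pi * (a / (2 * Real.pi * (49 / 100))) = 100 * a / 49 := by field_simp
  rw [e1, one_div (1 - _), Real.log_inv]
  field_simp
  ring

/-- the finite part of the density sum, in rational arithmetic -/
def fp : ℚ := ∑ j ∈ Finset.range 13, sq j / 2 * lgq (1 / exq 45 (100 * aq j / 49))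

lemma fp_le : fp ≤ 3453 / 1000000 := by decide +kernel

lemma xq_lt : ∀ j, j < 13 → 1 / exq 45 (100 * aq j / 49) < 1 := by decide +kernel

lemma fin_part : ∑ j ∈ Finset.range 13, 2 * Real.pi * (sq j : ℝ) * Bn ((aq j : ℝ) / (2 * Real.pi * (49 / 100))) ≤
    3453 / 1000000 := by
  have h : ∑ j ∈ Finset.range 13, 2 * Real.pi * (sq j : ℝ) * Bn ((aq j : ℝ) / (2 * Real.pi * (49 / 100))) ≤ ((fp : ℚ) : ℝ) := by
    unfold fp
    push_cast
    refine Finset.sum_le_sum fun j hj => ?_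
    rw [Bn_eq]
    have hs : (0:ℝ) ≤ sq j := by exact_mod_cast sq_nonneg' j
    have h1 := term_le (aq_pos j) _ rfl (xq_lt j (Finset.mem_range.mp hj))
    push_cast at h1
    exact mul_le_mul_of_nonneg_left h1 (by positivity)
  have h2 : ((fp : ℚ) : ℝ) ≤ ((3453 / 1000000 : ℚ) : ℝ) := by exact_mod_cast fp_le
  refine h.trans (h2.trans (le_of_eq ?_))
  push_cast
  norm_num

lemma exp2_le : Real.exp (-2) ≤ 1372 / 10000 := by
  have h1 : 2.7 ≤ Real.exp 1 := by
    have := Real.exp_one_gt_d9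
    linarith
  have h2 : Real.exp (-2) = (Real.exp 1 ^ 2)⁻¹ := by
    rw [← Real.exp_nat_mul, ← Real.exp_neg]
    norm_num
  rw [h2]
  have h3 : (2.7:ℝ) ^ 2 ≤ Real.exp 1 ^ 2 := pow_le_pow_left₀ (by norm_num) h1 2
  calc (Real.exp 1 ^ 2)⁻¹ ≤ ((2.7:ℝ) ^ 2)⁻¹ := inv_anti₀ (by norm_num) h3
    _ ≤ _ := by norm_num

lemma tail_part (K : ℕ) : ∑ i ∈ Finset.range K, 2 * Real.pi * (sq (13 + i) : ℝ) * Bn ((aq (13 + i) : ℝ) / (2 * Real.pi * (49 / 100))) ≤
    4 / 100000 := by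
  have h1 : ∀ i : ℕ, 2 * Real.pi * (sq (13 + i) : ℝ) * Bn ((aq (13 + i) : ℝ) / (2 * Real.pi * (49 / 100))) ≤
      20 * (1372 / 10000) ^ 7 * (4116 / 10000) ^ i := by
    intro i
    rw [Bn_eq]
    have es : (sq (13 + i) : ℝ) = 20 * 3 ^ i := by
      unfold sq; rw [if_neg (by omega), show 13 + i - 13 = i by omega]; push_cast; ring
    have ea : (aq (13 + i) : ℝ) = 7 + i := by
      unfold aq; rw [if_neg (by omega), show 13 + i - 13 = i by omega]; push_cast; ring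
    rw [es, ea]
    have hi : (0:ℝ) ≤ i := Nat.cast_nonneg i
    set X := Real.exp (-(100 * (7 + (i:ℝ)) / 49)) with hX
    have hX0 : 0 < X := Real.exp_pos _
    have hXle : X ≤ (1372 / 10000) ^ (7 + i) := by
      calc X ≤ Real.exp (((7 + i : ℕ) : ℝ) * (-2)) := by
            rw [hX]
            apply Real.exp_le_exp.2
            push_cast
            linarith
        _ = Real.exp (-2) ^ (7 + i) := by rw [Real.exp_nat_mul]
        _ ≤ _ := pow_le_pow_left₀ (Real.exp_pos _).le exp2_le _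
    have hX2 : X ≤ 1 / 2 := by
      refine hXle.trans ?_
      calc (1372 / 10000 : ℝ) ^ (7 + i) ≤ (1372 / 10000) ^ 1 := pow_le_pow_of_le_one (by norm_num) (by norm_num) (by omega)
        _ ≤ 1 / 2 := by norm_num
    have hlog : -Real.log (1 - X) ≤ 2 * X := by
      have h3 := Real.one_sub_inv_le_log_of_pos (show 0 < 1 - X by linarith)
      have h4 : (1 - X)⁻¹ - 1 ≤ 2 * X := by
        have h5 : (1 - X)⁻¹ ≤ 1 + 2 * X := by
          rw [inv_le_iff_one_le_mul₀ (by linarith)]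
          nlinarith
        linarith
      linarith
    calc 20 * (3:ℝ) ^ i / 2 * -Real.log (1 - X) ≤ 20 * (3:ℝ) ^ i / 2 * (2 * X) := by
          apply mul_le_mul_of_nonneg_left hlog; positivity
      _ ≤ 20 * (3:ℝ) ^ i / 2 * (2 * (1372 / 10000) ^ (7 + i)) := by gcongr
      _ = 20 * (1372 / 10000) ^ 7 * (3 ^ i * (1372 / 10000) ^ i) := by rw [pow_add]; ring
      _ = _ := by rw [← mul_pow]; norm_num
  calc _ ≤ ∑ i ∈ Finset.range K, 20 * (1372 / 10000 : ℝ) ^ 7 * (4116 / 10000) ^ i := Finset.sum_le_sum fun i _ => h1 i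
    _ = 20 * (1372 / 10000 : ℝ) ^ 7 * ∑ i ∈ Finset.range K, (4116 / 10000 : ℝ) ^ i := by rw [Finset.mul_sum]
    _ ≤ 20 * (1372 / 10000 : ℝ) ^ 7 * (1 / (1 - 4116 / 10000)) := by
        gcongr
        rw [geom_sum_eq (by norm_num)]
        rw [div_le_iff_of_neg (by norm_num)]
        have : (0:ℝ) ≤ (4116 / 10000 : ℝ) ^ K := by positivity
        norm_num
    _ ≤ _ := by norm_num

theorem C2_cert : C2 (49 / 100) (36 / 10000) := by
  intro A hA
  set N := 14 + ⌈A⌉₊ with hN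
  refine ⟨N, fun j => 2 * Real.pi * (sq j : ℝ), fun j => (aq j : ℝ), ?_, ?_, ?_, ?_⟩
  · intro j
    have : (0:ℝ) ≤ sq j := by exact_mod_cast sq_nonneg' j
    have hpi := Real.pi_pos
    positivity
  · intro j
    have := aq_pos j
    show (0:ℝ) < (aq j : ℝ)
    exact_mod_cast this
  · intro x h0 hx
    have h := all_depths h0 hx (N := N) le_rfl
    refine h.trans (le_of_eq ?_)
    rw [Finset.sum_range (n := N), Finset.mul_sum]
    refine Finset.sum_congr rfl fun j _ => ?_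
    ring
  · have h1 := Finset.sum_range (n := N) (fun j => 2 * Real.pi * (sq j : ℝ) * Bn ((aq j : ℝ) / (2 * Real.pi * (49 / 100))))
    rw [← h1, hN, show 14 + ⌈A⌉₊ = 13 + (1 + ⌈A⌉₊) by ring, Finset.sum_range_add]
    have h2 := fin_part
    have h3 := tail_part (1 + ⌈A⌉₊)
    linarith

end Pool.Agent.Helper25.LG
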