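import Pool.Agent.Helper25.LG.Inw

/-!
# LG-PLA: the Cauchy-Schwarz bound for the positive part of a cosine transform

`h` is `C¹`, `h(1) = 0`, `F = Fh h`, `w(b) = (1 + γ² b²)(1 + r² + 2 r cos b) > 0`.
(1) `max 0 x ≤ (x + y)²/(4y) = x²/(4y) + x/2 + y/4` for `y > 0`; with `y = β/w`: `max 0 F ≤ w F²/(4β) + F/2 + β/(4w)`.
(2) `∫ w F² = 4π Qw γ r h h'`. Even extension `H(u) = h(|u|)` on `[-1,1]`, `0` outside (continuous since `h(1) = 0`,
`C¹` by pieces, `H'(u) = sign(u) h'(|u|)`): `F(b) = -∫ H(u) e^{ibu} du`, `w F² = (1 + γ² b²) |(1 + r e^{ib}) F(b)|²`,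
`(1 + r e^{ib}) F(b)` is (minus) the transform of `H(u) + r H(u - 1)` and `i b (1 + r e^{ib}) F(b)` the one of the derivative
`H'(u) + r H'(u - 1)` (up to sign). Plancherel (`∫ |transform|² = 2π ∫ |function|²`; in the library: `planch` in Helper57.M.B,
or Mathlib) gives `∫ |(1+re^{ib})F|² = 2π((1+r²) ∫ H² + 2r ∫ H(u) H(u-1) du) = 4π((1+r²) ∫_0^1 h² + r ∫_0^1 h(u) h(1-u) du)` and
`∫ b² |(1+re^{ib})F|² = 4π((1+r²) ∫_0^1 h'² - r ∫_0^1 h'(u) h'(1-u) du)`.
(3) `∫ F = -2π h(0)`: Fourier inversion at `0` for the continuous integrable `H` with integrable transform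
(`F` is integrable because `(1+|b|) F ∈ L²`).
(4) integrate (1), `∫ 1/w = Bw γ r` (Inw).
-/

open MeasureTheory Set Filter Topology

namespace Pool.Agent.Helper25.LG

open Pool.Agent.Helper57.LH Pool.Agent.Helper4.PC

private noncomputable def C80 (G : ℝ → ℝ) (b : ℝ) : ℝ := ∫ u, G u * Real.cos (b * u)

private noncomputable def S80 (G : ℝ → ℝ) (b : ℝ) : ℝ := ∫ u, G u * Real.sin (b * u)

private noncomputable def A80 (G : ℝ → ℝ) (x : ℝ) : ℝ := ∫ u, G u * G (u + x)

private lemma cosint80 {G : ℝ → ℝ} (hG : Integrable G) (b : ℝ) : Integrable (fun u => G u * Real.cos (b * u)) :=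
  hG.mul_bdd (c := 1) (Continuous.aestronglyMeasurable (by fun_prop))
    (Eventually.of_forall fun u => Real.abs_cos_le_one _)

private lemma sinint80 {G : ℝ → ℝ} (hG : Integrable G) (b : ℝ) : Integrable (fun u => G u * Real.sin (b * u)) :=
  hG.mul_bdd (c := 1) (Continuous.aestronglyMeasurable (by fun_prop))
    (Eventually.of_forall fun u => Real.abs_sin_le_one _)

private lemma FT80 {G : ℝ → ℝ} (hG : Integrable G) (b : ℝ) :
    ‖FT (fun u => (G u : ℂ)) b‖ ^ 2 = C80 G b ^ 2 + S80 G b ^ 2 := by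
  have h1 : FT (fun u => (G u : ℂ)) b = (C80 G b : ℂ) + (S80 G b : ℂ) * Complex.I := by
    unfold FT C80 S80
    rw [← integral_complex_ofReal, ← integral_complex_ofReal, ← integral_mul_const,
      ← integral_add (cosint80 hG b).ofReal ((sinint80 hG b).ofReal.mul_const _)]
    congr 1; funext u
    rw [show Complex.I * b * u = ((b * u : ℝ) : ℂ) * Complex.I by push_cast; ring, Complex.exp_mul_I]
    push_cast
    ring
  rw [h1, ← Complex.normSq_eq_norm_sq, Complex.normSq_add_mul_I]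

private lemma sq80 {G : ℝ → ℝ} (hG : Integrable G) (hG2 : Integrable (fun u => G u ^ 2)) :
    Integrable (fun b => C80 G b ^ 2 + S80 G b ^ 2) := by
  have hf : Integrable (fun u => (G u : ℂ)) := hG.ofReal
  have hf2 : Integrable (fun u => ‖(G u : ℂ)‖ ^ 2) := by
    refine hG2.congr (Eventually.of_forall fun u => ?_)
    simp only
    rw [Complex.norm_real, Real.norm_eq_abs, sq_abs]
  have hc : Continuous (fun τ => ‖FT (fun u => (G u : ℂ)) τ‖ ^ 2) := ((continuous_FT hf).norm).pow 2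
  have he : (fun b => C80 G b ^ 2 + S80 G b ^ 2) = fun τ => ‖FT (fun u => (G u : ℂ)) τ‖ ^ 2 := by
    funext b; rw [FT80 hG]
  rw [he]
  refine integrable_of_intervalIntegral_norm_bounded (l := atTop) (a := fun n : ℝ => -n) (b := fun n : ℝ => n)
    (2 * Real.pi * ∫ u, ‖(G u : ℂ)‖ ^ 2) (fun n => ?_) tendsto_neg_atTop_atBot tendsto_id ?_
  · exact (hc.integrableOn_Icc).mono_set Ioc_subset_Icc_self
  · filter_upwards [eventually_ge_atTop 0] with n hn
    have h1 := planch hf hf2 (a := -n) (b := n) (by linarith)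
    refine le_trans (le_of_eq ?_) h1
    refine intervalIntegral.integral_congr fun τ _ => ?_
    exact Real.norm_of_nonneg (by positivity)

section auto

variable {G : ℝ → ℝ} {M : ℝ}

private lemma int80 (hm : Measurable G) (hb : ∀ u, |G u| ≤ M) (h0 : ∀ u, 1 < |u| → G u = 0) : Integrable G := by
  have h1 : Integrable ((Icc (-1:ℝ) 1).indicator fun _ => M) := by
    rw [integrable_indicator_iff measurableSet_Icc]
    exact integrableOn_const (by simp)
  refine h1.mono' hm.aestronglyMeasurable (Eventually.of_forall fun u => ?_)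
  by_cases hu : u ∈ Icc (-1:ℝ) 1
  · rw [indicator_of_mem hu]; exact hb u
  · rw [indicator_of_notMem hu, h0 u]
    · simp
    · by_contra h
      exact hu (abs_le.1 (not_lt.1 h))

private lemma int2_80 (hm : Measurable G) (hb : ∀ u, |G u| ≤ M) (h0 : ∀ u, 1 < |u| → G u = 0) :
    Integrable (fun u => G u ^ 2) := by
  have h := (int80 hm hb h0).mul_bdd (c := M) (g := G) hm.aestronglyMeasurable (Eventually.of_forall hb)
  refine h.congr (Eventually.of_forall fun u => ?_)
  simp only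
  ring

private lemma Acont80 (hm : Measurable G) (hb : ∀ u, |G u| ≤ M) (h0 : ∀ u, 1 < |u| → G u = 0)
    (hc : ∀ᵐ u, ContinuousAt G u) : Continuous (A80 G) := by
  rw [continuous_iff_continuousAt]
  intro x₀
  unfold A80
  refine continuousAt_of_dominated (bound := fun u => ‖G u‖ * M) ?_ ?_ ?_ ?_
  · exact Eventually.of_forall fun x => (hm.mul (hm.comp (measurable_id.add_const x))).aestronglyMeasurable
  · refine Eventually.of_forall fun x => Eventually.of_forall fun u => ?_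
    rw [norm_mul]
    exact mul_le_mul_of_nonneg_left (hb _) (norm_nonneg _)
  · exact (int80 hm hb h0).norm.mul_const M
  · have h1 := (measurePreserving_add_right (volume : Measure ℝ) x₀).quasiMeasurePreserving.ae hc
    filter_upwards [h1] with u hu
    refine continuousAt_const.mul ?_
    exact ContinuousAt.comp (f := fun x => u + x) (g := G) hu (by fun_prop)

private lemma Aeven80 (x : ℝ) : A80 G (-x) = A80 G x := by
  unfold A80
  rw [← integral_add_right_eq_self (fun u => G u * G (u + -x)) x]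
  congr 1; funext u
  rw [add_neg_cancel_right]
  ring

private lemma Aint80 (hm : Measurable G) (hb : ∀ u, |G u| ≤ M) (h0 : ∀ u, 1 < |u| → G u = 0)
    (hc : ∀ᵐ u, ContinuousAt G u) : Integrable (A80 G) := by
  refine (Acont80 hm hb h0 hc).integrable_of_hasCompactSupport ?_
  refine HasCompactSupport.intro (K := Icc (-2) 2) isCompact_Icc fun x hx => ?_
  unfold A80
  rw [← integral_zero ℝ ℝ (μ := volume)]
  congr 1; funext u
  by_cases h1 : 1 < |u|
  · rw [h0 u h1, zero_mul]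
  · rw [h0 (u + x), mul_zero]
    by_contra h2
    push Not at h1 h2
    rw [abs_le] at h1 h2
    exact hx ⟨by linarith [h1.1, h1.2, h2.1, h2.2], by linarith [h1.1, h1.2, h2.1, h2.2]⟩

private lemma ACT80 (hm : Measurable G) (hb : ∀ u, |G u| ≤ M) (h0 : ∀ u, 1 < |u| → G u = 0) (ξ : ℝ) :
    CT (A80 G) ξ = C80 G (2 * Real.pi * ξ) ^ 2 + S80 G (2 * Real.pi * ξ) ^ 2 := by
  have hG := int80 hm hb h0
  have hp : Integrable (fun p : ℝ × ℝ => G p.1 * G (p.1 + p.2)) (volume.prod volume) := by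
    have h1 : Integrable (fun p : ℝ × ℝ => G p.1 * G p.2) (volume.prod volume) := hG.mul_prod hG
    exact ((measurePreserving_prod_add (volume : Measure ℝ) (volume : Measure ℝ)).integrable_comp
      h1.aestronglyMeasurable).2 h1
  have hp2 : Integrable (fun p : ℝ × ℝ => G p.1 * G (p.1 + p.2) * Real.cos (2 * Real.pi * ξ * p.2))
      (volume.prod volume) :=
    hp.mul_bdd (c := 1) (Continuous.aestronglyMeasurable (by fun_prop))
      (Eventually.of_forall fun u => Real.abs_cos_le_one _)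
  have e1 : CT (A80 G) ξ = ∫ x, ∫ u, G u * G (u + x) * Real.cos (2 * Real.pi * ξ * x) := by
    unfold CT A80
    congr 1; funext x
    rw [← integral_mul_const]
  rw [e1, integral_integral_swap]
  swap
  · exact hp2.swap
  have e2 : ∀ u, ∫ x, G u * G (u + x) * Real.cos (2 * Real.pi * ξ * x) =
      (G u * Real.cos (2 * Real.pi * ξ * u)) * C80 G (2 * Real.pi * ξ) +
      (G u * Real.sin (2 * Real.pi * ξ * u)) * S80 G (2 * Real.pi * ξ) := by
    intro u
    have e3 : ∫ x, G u * G (u + x) * Real.cos (2 * Real.pi * ξ * x) =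
        ∫ x, G u * (G x * Real.cos (2 * Real.pi * ξ * (x - u))) := by
      rw [← integral_add_left_eq_self (fun x => G u * (G x * Real.cos (2 * Real.pi * ξ * (x - u)))) u]
      congr 1; funext x
      rw [add_sub_cancel_left]
      ring
    rw [e3]
    have e4 : ∀ x, G u * (G x * Real.cos (2 * Real.pi * ξ * (x - u))) =
        (G u * Real.cos (2 * Real.pi * ξ * u)) * (G x * Real.cos (2 * Real.pi * ξ * x)) +
        (G u * Real.sin (2 * Real.pi * ξ * u)) * (G x * Real.sin (2 * Real.pi * ξ * x)) := by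
      intro x
      rw [mul_sub, Real.cos_sub]
      ring
    simp_rw [e4]
    rw [integral_add ((cosint80 hG _).const_mul _) ((sinint80 hG _).const_mul _), integral_const_mul,
      integral_const_mul]
    rfl
  simp_rw [e2]
  rw [integral_add ((cosint80 hG _).mul_const _) ((sinint80 hG _).mul_const _), integral_mul_const,
    integral_mul_const]
  unfold C80 S80
  ring

private lemma inv80 (hm : Measurable G) (hb : ∀ u, |G u| ≤ M) (h0 : ∀ u, 1 < |u| → G u = 0)
    (hc : ∀ᵐ u, ContinuousAt G u) (x : ℝ) :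
    ∫ b, (C80 G b ^ 2 + S80 G b ^ 2) * Real.cos (b * x) = 2 * Real.pi * A80 G x := by
  have hi : Integrable (CT (A80 G)) := by
    have h1 := (sq80 (int80 hm hb h0) (int2_80 hm hb h0)).comp_mul_left' (R := 2 * Real.pi) (by positivity)
    refine h1.congr (Eventually.of_forall fun ξ => ?_)
    simp only
    rw [ACT80 hm hb h0]
  have h2 := CT_CT (Acont80 hm hb h0 hc) (Aint80 hm hb h0 hc) Aeven80 hi x
  have h3 : CT (CT (A80 G)) x = ∫ ξ, (fun b => (C80 G b ^ 2 + S80 G b ^ 2) * Real.cos (b * x)) (2 * Real.pi * ξ) := by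
    rw [CT]
    congr 1; funext ξ
    rw [ACT80 hm hb h0]
    simp only
    congr 2; ring
  rw [h3, Measure.integral_comp_mul_left (fun b => (C80 G b ^ 2 + S80 G b ^ 2) * Real.cos (b * x)) (2 * Real.pi),
    smul_eq_mul, abs_of_pos (by positivity)] at h2
  rw [← h2, ← mul_assoc, mul_inv_cancel₀ (by positivity), one_mul]

end auto

private noncomputable def E80 (σ : ℝ) (f : ℝ → ℝ) (u : ℝ) : ℝ :=
  (Ioc (0:ℝ) 1).indicator f u + (Ico (-1:ℝ) 0).indicator (fun u => σ * f (-u)) u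

private lemma Em80 {f : ℝ → ℝ} (hf : Continuous f) (σ : ℝ) : Measurable (E80 σ f) := by
  unfold E80
  refine Measurable.add (hf.measurable.indicator measurableSet_Ioc) (Measurable.indicator ?_ measurableSet_Ico)
  exact Continuous.measurable (by fun_prop)

private lemma Ezero80 (f : ℝ → ℝ) (σ : ℝ) (u : ℝ) (hu : 1 < |u|) : E80 σ f u = 0 := by
  unfold E80
  rw [indicator_of_notMem, indicator_of_notMem, add_zero]
  · rintro ⟨h1, h2⟩
    rw [abs_of_neg h2] at hu
    linarith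
  · rintro ⟨h1, h2⟩
    rw [abs_of_pos h1] at hu
    linarith

private lemma Epos80 (f : ℝ → ℝ) (σ : ℝ) {u : ℝ} (hu : 0 < u) (hu1 : u ≤ 1) : E80 σ f u = f u := by
  unfold E80
  rw [indicator_of_mem (show u ∈ Ioc (0:ℝ) 1 from ⟨hu, hu1⟩), indicator_of_notMem, add_zero]
  rintro ⟨h1, h2⟩
  linarith

private lemma Eneg80 (f : ℝ → ℝ) (σ : ℝ) {u : ℝ} (hu : u < 0) (hu1 : -1 ≤ u) : E80 σ f u = σ * f (-u) := by
  unfold E80
  rw [indicator_of_mem (show u ∈ Ico (-1:ℝ) 0 from ⟨hu1, hu⟩), indicator_of_notMem, zero_add]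
  rintro ⟨h1, h2⟩
  linarith

private lemma Eb80 {f : ℝ → ℝ} (hf : Continuous f) {σ : ℝ} (hσ : |σ| ≤ 1) : ∃ M, ∀ u, |E80 σ f u| ≤ M := by
  obtain ⟨M, hM⟩ := (isCompact_Icc (a := (0:ℝ)) (b := 1)).exists_bound_of_continuousOn hf.continuousOn
  have hM0 : 0 ≤ M := (norm_nonneg _).trans (hM 0 (by simp))
  refine ⟨M, fun u => ?_⟩
  rcases lt_or_ge 1 |u| with h1 | h1
  · rw [Ezero80 f σ u h1, abs_zero]; exact hM0
  rw [abs_le] at h1
  rcases lt_trichotomy u 0 with h | h | h
  · rw [Eneg80 f σ h h1.1, abs_mul]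
    have h2 := hM (-u) ⟨by linarith, by linarith [h1.1]⟩
    rw [Real.norm_eq_abs] at h2
    calc |σ| * |f (-u)| ≤ 1 * |f (-u)| := by gcongr
      _ ≤ M := by rw [one_mul]; exact h2
  · subst h
    unfold E80
    rw [indicator_of_notMem (by simp), indicator_of_notMem (by simp), add_zero, abs_zero]
    exact hM0
  · rw [Epos80 f σ h h1.2]
    exact hM u ⟨h.le, h1.2⟩

private lemma Ec80 {f : ℝ → ℝ} (hf : Continuous f) (σ : ℝ) : ∀ᵐ u, ContinuousAt (E80 σ f) u := by
  have h1 : ∀ᵐ u : ℝ, u ≠ -1 := by simp [ae_iff, measure_singleton]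
  have h2 : ∀ᵐ u : ℝ, u ≠ 0 := by simp [ae_iff, measure_singleton]
  have h3 : ∀ᵐ u : ℝ, u ≠ 1 := by simp [ae_iff, measure_singleton]
  filter_upwards [h1, h2, h3] with u k1 k2 k3
  rcases lt_or_gt_of_ne k1 with h | h
  · refine (continuousAt_const (y := (0:ℝ))).congr ?_
    filter_upwards [Iio_mem_nhds h] with v hv
    refine (Ezero80 f σ v ?_).symm
    rw [mem_Iio] at hv
    rw [abs_of_neg (by linarith)]
    linarith
  rcases lt_or_gt_of_ne k2 with h' | h'
  · have hc : ContinuousAt (fun v => σ * f (-v)) u := by fun_prop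
    refine hc.congr ?_
    filter_upwards [Ioo_mem_nhds h h'] with v hv
    exact (Eneg80 f σ hv.2 hv.1.le).symm
  rcases lt_or_gt_of_ne k3 with h'' | h''
  · refine hf.continuousAt.congr ?_
    filter_upwards [Ioo_mem_nhds h' h''] with v hv
    exact (Epos80 f σ hv.1 hv.2.le).symm
  · refine (continuousAt_const (y := (0:ℝ))).congr ?_
    filter_upwards [Ioi_mem_nhds h''] with v hv
    refine (Ezero80 f σ v ?_).symm
    rw [mem_Ioi] at hv
    rw [abs_of_pos (by linarith)]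
    linarith

private lemma gen80 {f : ℝ → ℝ} (hf : Continuous f) (σ : ℝ) {φ : ℝ → ℝ} (hφ : Measurable φ) {B : ℝ}
    (hB : ∀ u, |φ u| ≤ B) : ∫ u, E80 σ f u * φ u = ∫ u in (0:ℝ)..1, f u * (φ u + σ * φ (-u)) := by
  have i1 : IntervalIntegrable (fun u => f u * φ u) volume 0 1 := by
    rw [intervalIntegrable_iff_integrableOn_Ioc_of_le zero_le_one]
    exact ((hf.integrableOn_Icc).mono_set Ioc_subset_Icc_self).mul_bdd (c := B) hφ.aestronglyMeasurable
      (Eventually.of_forall hB)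
  have i2 : IntervalIntegrable (fun u => f u * φ (-u)) volume 0 1 := by
    rw [intervalIntegrable_iff_integrableOn_Ioc_of_le zero_le_one]
    exact ((hf.integrableOn_Icc).mono_set Ioc_subset_Icc_self).mul_bdd (c := B)
      (hφ.comp measurable_neg).aestronglyMeasurable (Eventually.of_forall fun u => hB _)
  have i3 : IntervalIntegrable (fun u => f (-u) * φ u) volume (-1) 0 := by
    rw [intervalIntegrable_iff_integrableOn_Ioc_of_le (by norm_num)]
    have hf' : Continuous (fun u => f (-u)) := by fun_prop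
    exact ((hf'.integrableOn_Icc).mono_set Ioc_subset_Icc_self).mul_bdd (c := B) hφ.aestronglyMeasurable
      (Eventually.of_forall hB)
  have e1 : ∀ u, E80 σ f u * φ u = (Ioc (0:ℝ) 1).indicator (fun u => f u * φ u) u +
      (Ico (-1:ℝ) 0).indicator (fun u => σ * (f (-u) * φ u)) u := by
    intro u
    unfold E80
    rw [add_mul]
    congr 1
    · by_cases h : u ∈ Ioc (0:ℝ) 1
      · rw [indicator_of_mem h, indicator_of_mem h]
      · rw [indicator_of_notMem h, indicator_of_notMem h, zero_mul]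
    · by_cases h : u ∈ Ico (-1:ℝ) 0
      · rw [indicator_of_mem h, indicator_of_mem h, mul_assoc]
      · rw [indicator_of_notMem h, indicator_of_notMem h, zero_mul]
  simp_rw [e1]
  have j1 : IntegrableOn (fun u => f u * φ u) (Ioc 0 1) :=
    (intervalIntegrable_iff_integrableOn_Ioc_of_le zero_le_one).1 i1
  have j3 : IntegrableOn (fun u => σ * (f (-u) * φ u)) (Ico (-1) 0) :=
    ((intervalIntegrable_iff_integrableOn_Ico_of_le (by norm_num)).1 (i3.const_mul σ))
  rw [integral_add ((integrable_indicator_iff measurableSet_Ioc).2 j1)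
    ((integrable_indicator_iff measurableSet_Ico).2 j3), integral_indicator measurableSet_Ioc,
    integral_indicator measurableSet_Ico, ← intervalIntegral.integral_of_le zero_le_one,
    integral_Ico_eq_integral_Ioo, ← integral_Ioc_eq_integral_Ioo, ← intervalIntegral.integral_of_le (by norm_num),
    intervalIntegral.integral_const_mul]
  have e2 : ∫ u in (-1:ℝ)..0, f (-u) * φ u = ∫ u in (0:ℝ)..1, f u * φ (-u) := by
    have h := intervalIntegral.integral_comp_neg (a := (-1:ℝ)) (b := 0) (fun u => f u * φ (-u))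
    simp only [neg_neg, neg_zero] at h
    exact h
  rw [e2, ← intervalIntegral.integral_const_mul, ← intervalIntegral.integral_add i1 (i2.const_mul σ)]
  refine intervalIntegral.integral_congr fun u _ => ?_
  beta_reduce
  ring

private lemma A0_80 {f : ℝ → ℝ} (hf : Continuous f) {σ : ℝ} (hσ : σ ^ 2 = 1) :
    A80 (E80 σ f) 0 = 2 * ∫ u in (0:ℝ)..1, f u ^ 2 := by
  have hσ' : |σ| ≤ 1 := by
    rw [← sq_le_one_iff_abs_le_one, hσ]
  obtain ⟨M, hM⟩ := Eb80 hf hσ'
  unfold A80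
  simp only [add_zero]
  rw [gen80 hf σ (Em80 hf σ) hM, ← intervalIntegral.integral_const_mul]
  refine intervalIntegral.integral_congr_ae (Eventually.of_forall fun u hu => ?_)
  rw [uIoc_of_le zero_le_one] at hu
  rw [Epos80 f σ hu.1 hu.2, Eneg80 f σ (by linarith [hu.1]) (by linarith [hu.2]), neg_neg]
  linear_combination (f u) ^ 2 * hσ

private lemma A1_80 {f : ℝ → ℝ} (hf : Continuous f) {σ : ℝ} (hσ : σ ^ 2 = 1) :
    A80 (E80 σ f) 1 = σ * ∫ u in (0:ℝ)..1, f u * f (1 - u) := by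
  have hσ' : |σ| ≤ 1 := by
    rw [← sq_le_one_iff_abs_le_one, hσ]
  obtain ⟨M, hM⟩ := Eb80 hf hσ'
  unfold A80
  rw [gen80 hf σ (φ := fun u => E80 σ f (u + 1)) ((Em80 hf σ).comp (measurable_id.add_const 1)) (fun u => hM _),
    ← intervalIntegral.integral_const_mul]
  have h1 : ∀ᵐ u : ℝ, u ≠ 1 := by simp [ae_iff, measure_singleton]
  refine intervalIntegral.integral_congr_ae ?_
  filter_upwards [h1] with u k1 hu
  rw [uIoc_of_le zero_le_one] at hu
  have hu1 : u < 1 := lt_of_le_of_ne hu.2 k1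
  rw [Ezero80 f σ (u + 1) (by rw [abs_of_pos (by linarith [hu.1])]; linarith [hu.1]),
    Epos80 f σ (show 0 < -u + 1 by linarith) (by linarith [hu.1]), show -u + 1 = 1 - u by ring]
  ring

private lemma C1_80 {f : ℝ → ℝ} (hf : Continuous f) (b : ℝ) : C80 (E80 1 f) b = -Fh f b := by
  unfold C80 Fh
  rw [gen80 hf 1 (φ := fun u => Real.cos (b * u)) (Continuous.measurable (by fun_prop)) (fun u => Real.abs_cos_le_one _),
    neg_mul, neg_neg, ← intervalIntegral.integral_const_mul]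
  refine intervalIntegral.integral_congr fun u _ => ?_
  beta_reduce
  rw [mul_neg, Real.cos_neg]
  ring

private lemma S1_80 {f : ℝ → ℝ} (hf : Continuous f) (b : ℝ) : S80 (E80 1 f) b = 0 := by
  unfold S80
  rw [gen80 hf 1 (φ := fun u => Real.sin (b * u)) (Continuous.measurable (by fun_prop)) (fun u => Real.abs_sin_le_one _)]
  have : ∀ u, f u * (Real.sin (b * u) + 1 * Real.sin (b * -u)) = 0 := by
    intro u
    rw [mul_neg, Real.sin_neg]
    ring
  simp_rw [this]
  simp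

private lemma Cm_80 {f : ℝ → ℝ} (hf : Continuous f) (b : ℝ) : C80 (E80 (-1) f) b = 0 := by
  unfold C80
  rw [gen80 hf (-1) (φ := fun u => Real.cos (b * u)) (Continuous.measurable (by fun_prop)) (fun u => Real.abs_cos_le_one _)]
  have : ∀ u, f u * (Real.cos (b * u) + -1 * Real.cos (b * -u)) = 0 := by
    intro u
    rw [mul_neg, Real.cos_neg]
    ring
  simp_rw [this]
  simp

private lemma Sm_80 {h h' : ℝ → ℝ} (hd : ∀ u, HasDerivAt h (h' u) u) (hc : Continuous h') (h1 : h 1 = 0) (b : ℝ) :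
    S80 (E80 (-1) h') b = b * Fh h b := by
  unfold S80 Fh
  rw [gen80 hc (-1) (φ := fun u => Real.sin (b * u)) (Continuous.measurable (by fun_prop)) (fun u => Real.abs_sin_le_one _)]
  have e1 : ∀ u, h' u * (Real.sin (b * u) + -1 * Real.sin (b * -u)) = 2 * (h' u * Real.sin (b * u)) := by
    intro u
    rw [mul_neg, Real.sin_neg]
    ring
  simp_rw [e1]
  rw [intervalIntegral.integral_const_mul]
  have hv : ∀ u : ℝ, HasDerivAt (fun u => Real.sin (b * u)) (Real.cos (b * u) * b) u := by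
    intro u
    have h2 : HasDerivAt (fun u : ℝ => b * u) b u := by
      simpa using (hasDerivAt_id u).const_mul b
    exact (Real.hasDerivAt_sin (b * u)).comp u h2
  have e2 := intervalIntegral.integral_mul_deriv_eq_deriv_mul (a := 0) (b := 1) (u := h) (v := fun u => Real.sin (b * u))
    (u' := h') (v' := fun u => Real.cos (b * u) * b) (fun u _ => hd u) (fun u _ => hv u)
    (hc.intervalIntegrable _ _) (Continuous.intervalIntegrable (by fun_prop) _ _)
  rw [h1] at e2
  simp only [mul_zero, Real.sin_zero, zero_mul, sub_zero, zero_sub] at e2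
  have e3 : ∫ u in (0:ℝ)..1, h u * (Real.cos (b * u) * b) = b * ∫ u in (0:ℝ)..1, h u * Real.cos (b * u) := by
    rw [← intervalIntegral.integral_const_mul]
    refine intervalIntegral.integral_congr fun u _ => ?_
    beta_reduce
    ring
  rw [e3] at e2
  linear_combination 2 * e2

private lemma hcont80 {h h' : ℝ → ℝ} (hd : ∀ u, HasDerivAt h (h' u) u) : Continuous h :=
  continuous_iff_continuousAt.2 fun u => (hd u).continuousAt

private lemma pl0_80 {f : ℝ → ℝ} (hf : Continuous f) :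
    Integrable (fun b => Fh f b ^ 2) ∧
    ∫ b : ℝ, Fh f b ^ 2 = 2 * Real.pi * (2 * ∫ u in (0:ℝ)..1, f u ^ 2) ∧
    ∫ b : ℝ, Fh f b ^ 2 * Real.cos b = 2 * Real.pi * ∫ u in (0:ℝ)..1, f u * f (1 - u) := by
  obtain ⟨M, hM⟩ := Eb80 (σ := 1) hf (by simp)
  have e : ∀ b, C80 (E80 1 f) b ^ 2 + S80 (E80 1 f) b ^ 2 = Fh f b ^ 2 := by
    intro b
    rw [C1_80 hf, S1_80 hf]; ring
  have h1 := sq80 (int80 (Em80 hf 1) hM (Ezero80 f 1)) (int2_80 (Em80 hf 1) hM (Ezero80 f 1))
  have h2 := inv80 (Em80 hf 1) hM (Ezero80 f 1) (Ec80 hf 1)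
  simp_rw [e] at h1 h2
  refine ⟨h1, ?_, ?_⟩
  · have h3 := h2 0
    simp only [mul_zero, Real.cos_zero, mul_one] at h3
    rw [h3, A0_80 hf (by norm_num)]
  · have h3 := h2 1
    simp only [mul_one] at h3
    rw [h3, A1_80 hf (by norm_num), one_mul]

private lemma pl1_80 {h h' : ℝ → ℝ} (hd : ∀ u, HasDerivAt h (h' u) u) (hc : Continuous h') (h1 : h 1 = 0) :
    Integrable (fun b => (b * Fh h b) ^ 2) ∧
    ∫ b : ℝ, (b * Fh h b) ^ 2 = 2 * Real.pi * (2 * ∫ u in (0:ℝ)..1, h' u ^ 2) ∧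
    ∫ b : ℝ, (b * Fh h b) ^ 2 * Real.cos b = 2 * Real.pi * (-∫ u in (0:ℝ)..1, h' u * h' (1 - u)) := by
  obtain ⟨M, hM⟩ := Eb80 (σ := -1) hc (by simp)
  have e : ∀ b, C80 (E80 (-1) h') b ^ 2 + S80 (E80 (-1) h') b ^ 2 = (b * Fh h b) ^ 2 := by
    intro b
    rw [Cm_80 hc, Sm_80 hd hc h1]; ring
  have k1 := sq80 (int80 (Em80 hc (-1)) hM (Ezero80 h' (-1))) (int2_80 (Em80 hc (-1)) hM (Ezero80 h' (-1)))
  have k2 := inv80 (Em80 hc (-1)) hM (Ezero80 h' (-1)) (Ec80 hc (-1))
  simp_rw [e] at k1 k2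
  refine ⟨k1, ?_, ?_⟩
  · have h3 := k2 0
    simp only [mul_zero, Real.cos_zero, mul_one] at h3
    rw [h3, A0_80 hc (by norm_num)]
  · have h3 := k2 1
    simp only [mul_one] at h3
    rw [h3, A1_80 hc (by norm_num), neg_one_mul]

private lemma Fcont80 {f : ℝ → ℝ} (hf : Continuous f) : Continuous (Fh f) := by
  obtain ⟨M, hM⟩ := Eb80 (σ := 1) hf (by simp)
  have h1 := CT_cont (int80 (Em80 hf 1) hM (Ezero80 f 1))
  have e : Fh f = fun b => -CT (E80 1 f) (b / (2 * Real.pi)) := by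
    funext b
    have h2 := C1_80 hf b
    rw [eq_comm, neg_eq_iff_eq_neg, ← h2]
    unfold CT C80
    congr 1; funext u
    congr 2
    have := Real.pi_ne_zero
    field_simp
  rw [e]
  exact (h1.comp (by fun_prop)).neg

private lemma amgm80 {s x : ℝ} (hs : 0 < s) : 2 * |x| ≤ s * x ^ 2 + s⁻¹ := by
  have h1 : s * x ^ 2 + s⁻¹ - 2 * |x| = (s * |x| - 1) ^ 2 / s := by
    field_simp
    rw [sub_sq, mul_pow, sq_abs]
    ring
  have h2 : 0 ≤ (s * |x| - 1) ^ 2 / s := by positivity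
  linarith

private lemma Fint80 {h h' : ℝ → ℝ} (hd : ∀ u, HasDerivAt h (h' u) u) (hc : Continuous h') (h1 : h 1 = 0) :
    Integrable (Fh h) := by
  have hf := hcont80 hd
  obtain ⟨i0, -, -⟩ := pl0_80 hf
  obtain ⟨i1, -, -⟩ := pl1_80 hd hc h1
  have i2 := ((i0.add i1).add integrable_inv_one_add_sq).const_mul (1 / 2)
  refine i2.mono' (Fcont80 hf).aestronglyMeasurable (Eventually.of_forall fun b => ?_)
  have h2 := amgm80 (s := 1 + b ^ 2) (x := Fh h b) (by positivity)
  simp only [Pi.add_apply]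
  rw [Real.norm_eq_abs]
  linarith

theorem Fh_integrable {h h' : ℝ → ℝ} (hd : ∀ u, HasDerivAt h (h' u) u) (hc : Continuous h') (h1 : h 1 = 0) :
    Integrable (Fh h) ∧ ∫ b : ℝ, Fh h b = -(2 * Real.pi) * h 0 := by
  have hf := hcont80 hd
  have hi := Fint80 hd hc h1
  refine ⟨hi, ?_⟩
  obtain ⟨M, hM⟩ := Eb80 (σ := 1) hf (by simp)
  have hE := int80 (Em80 hf 1) hM (Ezero80 h 1)
  have hH : Continuous (fun u : ℝ => h (min |u| 1)) := hf.comp (by fun_prop)
  have hae : (fun u : ℝ => h (min |u| 1)) =ᵐ[volume] E80 1 h := by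
    have k1 : ∀ᵐ u : ℝ, u ≠ 0 := by simp [ae_iff, measure_singleton]
    filter_upwards [k1] with u hu
    rcases lt_or_ge 1 |u| with h2 | h2
    · rw [Ezero80 h 1 u h2, min_eq_right h2.le, h1]
    rw [min_eq_left h2]
    rw [abs_le] at h2
    rcases lt_or_gt_of_ne hu with h3 | h3
    · rw [Eneg80 h 1 h3 h2.1, abs_of_neg h3, one_mul]
    · rw [Epos80 h 1 h3 h2.2, abs_of_pos h3]
  have hHi : Integrable (fun u : ℝ => h (min |u| 1)) := hE.congr hae.symm
  have e : ∀ ξ, CT (fun u : ℝ => h (min |u| 1)) ξ = -Fh h (2 * Real.pi * ξ) := by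
    intro ξ
    rw [← C1_80 hf]
    unfold CT C80
    refine integral_congr_ae ?_
    filter_upwards [hae] with u hu
    rw [hu]
  have hCi : Integrable (CT (fun u : ℝ => h (min |u| 1))) := by
    have h2 := (hi.comp_mul_left' (R := 2 * Real.pi) (by positivity)).neg
    refine h2.congr (Eventually.of_forall fun ξ => ?_)
    rw [e]
    rfl
  have h2 := CT_CT hH hHi (fun x => by simp only [abs_neg]) hCi 0
  have h3 : CT (CT (fun u : ℝ => h (min |u| 1))) 0 = -∫ ξ, (fun b => Fh h b) (2 * Real.pi * ξ) := by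
    rw [CT, ← integral_neg]
    congr 1; funext ξ
    rw [e]
    simp
  rw [h3, Measure.integral_comp_mul_left (fun b => Fh h b) (2 * Real.pi), smul_eq_mul, abs_of_pos (by positivity)] at h2
  simp only [abs_zero, zero_le_one, inf_of_le_left] at h2
  rw [← h2]
  have := Real.pi_ne_zero
  field_simp

private lemma wpos80 {r : ℝ} (hr : |r| < 1) (b : ℝ) : 0 < 1 + r ^ 2 + 2 * r * Real.cos b := by
  have h1 := Real.abs_cos_le_one b
  have h2 : |r * Real.cos b| ≤ |r| := by
    rw [abs_mul]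
    exact mul_le_of_le_one_right (abs_nonneg _) h1
  have h3 := neg_abs_le (r * Real.cos b)
  have h4 : r ^ 2 = |r| ^ 2 := (sq_abs r).symm
  nlinarith [abs_nonneg r, sq_nonneg (1 - |r|), mul_pos (sub_pos.2 hr) (sub_pos.2 hr)]

theorem Fh_sq {γ r : ℝ} (hγ : 0 < γ) (hr : |r| < 1) {h h' : ℝ → ℝ} (hd : ∀ u, HasDerivAt h (h' u) u)
    (hc : Continuous h') (h1 : h 1 = 0) :
    Integrable (fun b : ℝ => (1 + γ ^ 2 * b ^ 2) * (1 + r ^ 2 + 2 * r * Real.cos b) * Fh h b ^ 2) ∧
    ∫ b : ℝ, (1 + γ ^ 2 * b ^ 2) * (1 + r ^ 2 + 2 * r * Real.cos b) * Fh h b ^ 2 = 4 * Real.pi * Qw γ r h h' := by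
  have hf := hcont80 hd
  obtain ⟨i0, v0, w0⟩ := pl0_80 hf
  obtain ⟨i1, v1, w1⟩ := pl1_80 hd hc h1
  have j0 : Integrable (fun b => Fh h b ^ 2 * Real.cos b) :=
    i0.mul_bdd (c := 1) (Continuous.aestronglyMeasurable (by fun_prop)) (Eventually.of_forall fun u => Real.abs_cos_le_one _)
  have j1 : Integrable (fun b => (b * Fh h b) ^ 2 * Real.cos b) :=
    i1.mul_bdd (c := 1) (Continuous.aestronglyMeasurable (by fun_prop)) (Eventually.of_forall fun u => Real.abs_cos_le_one _)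
  have e : ∀ b : ℝ, (1 + γ ^ 2 * b ^ 2) * (1 + r ^ 2 + 2 * r * Real.cos b) * Fh h b ^ 2 =
      ((1 + r ^ 2) * Fh h b ^ 2 + 2 * r * (Fh h b ^ 2 * Real.cos b)) +
      (γ ^ 2 * (1 + r ^ 2) * (b * Fh h b) ^ 2 + 2 * r * γ ^ 2 * ((b * Fh h b) ^ 2 * Real.cos b)) := by
    intro b; ring
  simp_rw [e]
  have k0 := i0.const_mul (1 + r ^ 2)
  have k1 := j0.const_mul (2 * r)
  have k2 := i1.const_mul (γ ^ 2 * (1 + r ^ 2))
  have k3 := j1.const_mul (2 * r * γ ^ 2)
  refine ⟨(k0.add k1).add (k2.add k3), ?_⟩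
  refine (integral_add (k0.add k1) (k2.add k3)).trans ?_
  have e1 := integral_add k0 k1
  have e2 := integral_add k2 k3
  rw [integral_const_mul, integral_const_mul] at e1 e2
  refine (congrArg₂ (· + ·) e1 e2).trans ?_
  rw [v0, w0, v1, w1]
  unfold Qw
  ring

theorem pos_part_le {γ r β : ℝ} (hγ : 0 < γ) (hr : |r| < 1) (hβ : 0 < β) {h h' : ℝ → ℝ}
    (hd : ∀ u, HasDerivAt h (h' u) u) (hc : Continuous h') (h1 : h 1 = 0) :
    Integrable (fun b => max 0 (Fh h b)) ∧
    ∫ b : ℝ, max 0 (Fh h b) ≤ Real.pi * Qw γ r h h' / β + β / 4 * Bw γ r - Real.pi * h 0 := by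
  have hf := hcont80 hd
  obtain ⟨i0, v0⟩ := Fh_integrable hd hc h1
  obtain ⟨i1, v1⟩ := Fh_sq hγ hr hd hc h1
  obtain ⟨i2, v2⟩ := int_inv_w hγ hr
  have hi : Integrable (fun b => max 0 (Fh h b)) := by
    refine i0.norm.mono' ((continuous_const.max (Fcont80 hf)).aestronglyMeasurable) (Eventually.of_forall fun b => ?_)
    rw [Real.norm_of_nonneg (le_max_left _ _), Real.norm_eq_abs]
    exact max_le (abs_nonneg _) (le_abs_self _)
  refine ⟨hi, ?_⟩
  have k1 := i1.const_mul (1 / (4 * β))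
  have k0 := i0.const_mul (1 / 2)
  have k2 := i2.const_mul (β / 4)
  have hle : ∫ b : ℝ, max 0 (Fh h b) ≤
      ∫ b : ℝ, (1 / (4 * β) * ((1 + γ ^ 2 * b ^ 2) * (1 + r ^ 2 + 2 * r * Real.cos b) * Fh h b ^ 2) + 1 / 2 * Fh h b) +
        β / 4 * (1 / ((1 + γ ^ 2 * b ^ 2) * (1 + r ^ 2 + 2 * r * Real.cos b))) := by
    refine integral_mono hi ((k1.add k0).add k2) fun b => ?_
    have hw : 0 < (1 + γ ^ 2 * b ^ 2) * (1 + r ^ 2 + 2 * r * Real.cos b) :=
      mul_pos (by positivity) (wpos80 hr b)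
    simp only
    set w := (1 + γ ^ 2 * b ^ 2) * (1 + r ^ 2 + 2 * r * Real.cos b) with hwd
    have e1 : 1 / (4 * β) * (w * Fh h b ^ 2) + 1 / 2 * Fh h b + β / 4 * (1 / w) =
        (w * Fh h b + β) ^ 2 / (4 * β * w) := by
      field_simp
      ring
    have e2 : 1 / (4 * β) * (w * Fh h b ^ 2) + 1 / 2 * Fh h b + β / 4 * (1 / w) - Fh h b =
        (w * Fh h b - β) ^ 2 / (4 * β * w) := by
      field_simp
      ring
    refine max_le ?_ ?_
    · rw [e1]; positivity
    · have : 0 ≤ (w * Fh h b - β) ^ 2 / (4 * β * w) := by positivity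
      linarith
  refine hle.trans (le_of_eq ?_)
  refine (integral_add (k1.add k0) k2).trans ?_
  have e1 := integral_add k1 k0
  rw [integral_const_mul, integral_const_mul, v1, v0] at e1
  rw [integral_const_mul, v2]
  refine (congrArg (· + β / 4 * Bw γ r) e1).trans ?_
  field_simp
  ring

/-- the same without the weight `r`, for the absolute value, with `γ = 1/A`. -/
theorem abs_part_le {A : ℝ} (hA : 0 < A) {h h' : ℝ → ℝ}
    (hd : ∀ u, HasDerivAt h (h' u) u) (hc : Continuous h') (h1 : h 1 = 0) :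
    ∫ b : ℝ, |Fh h b| ≤ 2 * Real.pi * Real.sqrt (A * ((∫ u in (0:ℝ)..1, h u ^ 2) + (∫ u in (0:ℝ)..1, h' u ^ 2) / A ^ 2)) := by
  have hf := hcont80 hd
  have hγ : 0 < 1 / A := by positivity
  obtain ⟨i1, v1⟩ := Fh_sq (r := 0) hγ (by simp) hd hc h1
  obtain ⟨i2, v2⟩ := int_inv_w (r := 0) hγ (by simp)
  have hs : ∀ b : ℝ, 0 < 1 + (1 / A) ^ 2 * b ^ 2 := fun b => by positivity
  simp only [ne_eq, OfNat.ofNat_ne_zero, not_false_eq_true, zero_pow, add_zero, mul_zero, zero_mul, mul_one] at i1 v1 i2 v2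
  have c1 : Continuous (fun b : ℝ => Real.sqrt (1 + (1 / A) ^ 2 * b ^ 2)) := by fun_prop
  have hF := Fcont80 hf
  have h2 := cs_gen (μ := (volume : Measure ℝ)) (f := fun b => Real.sqrt (1 + (1 / A) ^ 2 * b ^ 2) * |Fh h b|)
    (g := fun b => (Real.sqrt (1 + (1 / A) ^ 2 * b ^ 2))⁻¹) (fun b => by positivity) (fun b => by positivity)
    (c1.mul hF.abs).aestronglyMeasurable (c1.inv₀ fun b => (Real.sqrt_pos.2 (hs b)).ne').aestronglyMeasurable
    (i1.congr (Eventually.of_forall fun b => by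
      simp only
      rw [mul_pow, Real.sq_sqrt (hs b).le, sq_abs]))
    (i2.congr (Eventually.of_forall fun b => by
      simp only
      rw [inv_pow, Real.sq_sqrt (hs b).le, one_div]))
  have e1 : ∀ b : ℝ, Real.sqrt (1 + (1 / A) ^ 2 * b ^ 2) * |Fh h b| * (Real.sqrt (1 + (1 / A) ^ 2 * b ^ 2))⁻¹ = |Fh h b| := by
    intro b
    have := (Real.sqrt_pos.2 (hs b)).ne'
    rw [mul_right_comm, mul_inv_cancel₀ this, one_mul]
  have e2 : ∀ b : ℝ, (Real.sqrt (1 + (1 / A) ^ 2 * b ^ 2) * |Fh h b|) ^ 2 = (1 + (1 / A) ^ 2 * b ^ 2) * Fh h b ^ 2 := by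
    intro b
    rw [mul_pow, Real.sq_sqrt (hs b).le, sq_abs]
  have e3 : ∀ b : ℝ, ((Real.sqrt (1 + (1 / A) ^ 2 * b ^ 2))⁻¹) ^ 2 = 1 / (1 + (1 / A) ^ 2 * b ^ 2) := by
    intro b
    rw [inv_pow, Real.sq_sqrt (hs b).le, inv_eq_one_div]
  simp_rw [e1, e2, e3] at h2
  rw [v1, v2] at h2
  refine h2.trans (le_of_eq ?_)
  have hB : Bw (1 / A) 0 = Real.pi * A := by
    unfold Bw
    simp
  have hQ : Qw (1 / A) 0 h h' = (∫ u in (0:ℝ)..1, h u ^ 2) + (∫ u in (0:ℝ)..1, h' u ^ 2) / A ^ 2 := by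
    unfold Qw
    simp
    ring
  rw [hB, hQ, ← Real.sqrt_mul' _ (by positivity)]
  have hp : 2 * Real.pi = Real.sqrt ((2 * Real.pi) ^ 2) := (Real.sqrt_sq (by positivity)).symm
  rw [hp, ← Real.sqrt_mul (by positivity)]
  congr 1
  ring

end Pool.Agent.Helper25.LG
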