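import Pool.Agent.Helper25.LG.Ker

/-!
# LG-POI: Poisson summation for the kernel

`b ↦ qk 0 b` is the Fourier transform (angular frequency) of `(1 - |u|)₊²`, which is continuous, supported in
`[-1, 1]`. For `0 < G < 2π`: `∑_{j ∈ ℤ} qk 0 (p + j G) = 2π/G`: Poisson summation for
`x ↦ (1 - |x P|)₊² e^{i p x P}`, `P = 2π/G > 1`.
-/

open MeasureTheory Set Filter Topology FourierTransform
open Pool.Agent.Helper54.LG

namespace Pool.Agent.Helper25.LG

private noncomputable def hp57 (x : ℝ) : ℝ := (max 0 (1 - |x|)) ^ 2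

private lemma hp57_zero {x : ℝ} (h : 1 ≤ |x|) : hp57 x = 0 := by
  unfold hp57
  rw [max_eq_left (by linarith)]
  norm_num

private lemma hp57_cont : Continuous hp57 := by
  unfold hp57
  fun_prop

private lemma trans57 (b : ℝ) : ∫ u : ℝ, (hp57 u : ℂ) * Complex.exp (Complex.I * (b * u : ℝ)) = (qk 0 b : ℂ) := by
  have hF : Continuous fun u : ℝ => (hp57 u : ℂ) * Complex.exp (Complex.I * (b * u : ℝ)) := by
    have := hp57_cont
    fun_prop
  rw [← setIntegral_eq_integral_of_forall_compl_eq_zero (s := Ioc (-1 : ℝ) 1), ← intervalIntegral.integral_of_le (by norm_num)]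
  · rw [← intervalIntegral.integral_add_adjacent_intervals (b := 0) (hF.intervalIntegrable _ _) (hF.intervalIntegrable _ _)]
    have h1 : ∫ u in (-1 : ℝ)..0, (hp57 u : ℂ) * Complex.exp (Complex.I * (b * u : ℝ)) =
        ∫ u in (0 : ℝ)..1, (hp57 (-u) : ℂ) * Complex.exp (Complex.I * (b * -u : ℝ)) := by
      rw [intervalIntegral.integral_comp_neg (fun u : ℝ => (hp57 u : ℂ) * Complex.exp (Complex.I * (b * u : ℝ)))]
      norm_num
    rw [h1, ← intervalIntegral.integral_add]
    · unfold qk
      rw [← intervalIntegral.integral_const_mul, ← intervalIntegral.integral_ofReal]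
      refine intervalIntegral.integral_congr fun u hu => ?_
      rw [uIcc_of_le (by norm_num)] at hu
      unfold hp57
      rw [abs_neg, abs_of_nonneg hu.1, max_eq_right (by linarith [hu.2])]
      have h2 := Complex.two_cos (b * u : ℂ)
      push_cast
      rw [zero_mul, Complex.cosh_zero, mul_one]
      have h3 : Complex.cos (b * u : ℂ) = (Complex.exp (Complex.I * (b * u)) + Complex.exp (Complex.I * (b * -u))) / 2 := by
        rw [Complex.cos]
        congr 2
        · congr 1; ring
        · congr 1; ring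
      rw [h3]
      ring
    · apply Continuous.intervalIntegrable
      have := hp57_cont
      fun_prop
    · apply Continuous.intervalIntegrable
      have := hp57_cont
      fun_prop
  · intro u hu
    rw [hp57_zero]
    · simp
    · by_contra h
      rw [not_le, abs_lt] at h
      exact hu ⟨h.1, h.2.le⟩

private lemma summ57 {G : ℝ} (hG : 0 < G) (p : ℝ) : Summable fun j : ℤ => qk 0 (p + j * G) := by
  refine summable_of_isBigO (Real.summable_abs_int_rpow (b := 2) (by norm_num)) ?_
  refine Asymptotics.IsBigO.of_bound (32 / G ^ 2) ?_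
  have h1 : ∀ᶠ j : ℤ in cofinite, 2 * |p| / G + 1 ≤ |(j : ℝ)| := by
    have h2 := Int.tendsto_coe_cofinite
    have h3 : Tendsto (fun j : ℤ => |(j : ℝ)|) cofinite atTop := by
      exact (tendsto_norm_cocompact_atTop (E := ℝ)).comp h2
    exact h3.eventually_ge_atTop _
  filter_upwards [h1] with j hj
  have hj0 : 0 < |(j : ℝ)| := by
    have : 0 ≤ 2 * |p| / G := by positivity
    linarith
  have hb : |(j : ℝ)| * G / 2 ≤ |p + j * G| := by
    have h3 : |(j : ℝ) * G| - |p| ≤ |p + j * G| := by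
      have := abs_sub_abs_le_abs_sub (j * G) (-p)
      rw [abs_neg] at this
      rw [show p + j * G = j * G - -p by ring]
      exact this
    rw [abs_mul, abs_of_pos hG] at h3
    have h4 : 2 * |p| ≤ |(j : ℝ)| * G := by
      have : 2 * |p| / G ≤ |(j : ℝ)| := by linarith
      rwa [div_le_iff₀ hG] at this
    linarith
  have hb0 : 0 < |p + j * G| := lt_of_lt_of_le (by positivity) hb
  rw [Real.norm_of_nonneg (qk0_nonneg _)]
  refine (qk0_le (abs_pos.1 hb0)).trans ?_
  rw [Real.norm_of_nonneg (by positivity), Real.rpow_neg (abs_nonneg _)]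
  have h5 : (|(j : ℝ)| : ℝ) ^ (2 : ℝ) = |(j : ℝ)| ^ 2 := by norm_cast
  rw [h5, ← sq_abs (p + j * G)]
  calc 8 / |p + j * G| ^ 2 ≤ 8 / (|(j : ℝ)| * G / 2) ^ 2 := by gcongr
    _ = 32 / G ^ 2 * (|(j : ℝ)| ^ 2)⁻¹ := by field_simp; norm_num

theorem poisson {G : ℝ} (hG : 0 < G) (hG2 : G < 2 * Real.pi) (p : ℝ) :
    HasSum (fun j : ℤ => qk 0 (p + j * G)) (2 * Real.pi / G) := by
  have hpi := Real.pi_pos
  set P : ℝ := 2 * Real.pi / G with hP
  have hP1 : 1 < P := by rw [hP, lt_div_iff₀ hG]; linarith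
  have hP0 : 0 < P := by linarith
  have hPG : P * G = 2 * Real.pi := by rw [hP]; field_simp
  set f : ℝ → ℂ := fun x => (hp57 (x * P) : ℂ) * Complex.exp (Complex.I * (p * (x * P) : ℝ)) with hf
  have hfc : Continuous f := by
    have := hp57_cont
    rw [hf]
    fun_prop
  have hf0 : ∀ x : ℝ, 1 ≤ |x| → f x = 0 := by
    intro x hx
    rw [hf]
    simp only
    rw [hp57_zero]
    · simp
    · rw [abs_mul, abs_of_pos hP0]
      nlinarith
  have hfO : f =O[cocompact ℝ] fun x : ℝ => |x| ^ (-(2:ℝ)) := by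
    have h1 : f =ᶠ[cocompact ℝ] fun _ => (0 : ℂ) := by
      filter_upwards [(isCompact_Icc (a := (-1 : ℝ)) (b := 1)).compl_mem_cocompact] with x hx
      apply hf0
      by_contra h
      rw [not_le, abs_lt] at h
      exact hx ⟨h.1.le, h.2.le⟩
    exact h1.trans_isBigO (Asymptotics.isBigO_zero _ _)
  have hF : ∀ n : ℤ, 𝓕 f (n : ℝ) = ((1 / P * qk 0 (p + (-n : ℤ) * G) : ℝ) : ℂ) := by
    intro n
    rw [Real.fourier_real_eq_integral_exp_smul]
    have h1 : ∀ v : ℝ, Complex.exp (↑(-2 * Real.pi * v * n) * Complex.I) • f v =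
        (fun u : ℝ => (hp57 u : ℂ) * Complex.exp (Complex.I * ((p + (-n : ℤ) * G) * u : ℝ))) (v * P) := by
      intro v
      simp only [hf, smul_eq_mul]
      rw [mul_left_comm, ← Complex.exp_add]
      congr 2
      push_cast
      have h2 : (P : ℂ) * G = 2 * Real.pi := by exact_mod_cast hPG
      linear_combination (Complex.I * n * v) * h2
    simp_rw [h1]
    have h3 := Measure.integral_comp_mul_right
      (fun u : ℝ => (hp57 u : ℂ) * Complex.exp (Complex.I * ((p + (-n : ℤ) * G) * u : ℝ))) P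
    rw [h3, trans57, abs_of_pos (inv_pos.2 hP0)]
    push_cast
    rw [one_div, Complex.real_smul]
    push_cast
    ring
  have hs := summ57 hG p
  have hs' : Summable fun n : ℤ => qk 0 (p + (-n : ℤ) * G) := by
    have := (Equiv.neg ℤ).summable_iff.2 hs
    simpa [Function.comp_def] using this
  have hFs : Summable fun n : ℤ => 𝓕 f (n : ℝ) := by
    simp_rw [hF]
    exact Complex.ofRealCLM.summable (hs'.mul_left (1 / P))
  have key := Real.tsum_eq_tsum_fourier_of_rpow_decay_of_summable hfc (b := 2) (by norm_num) hfO hFs 0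
  have hl : ∑' n : ℤ, f (0 + n) = 1 := by
    rw [tsum_eq_single 0]
    · simp [hf, hp57]
    · intro n hn
      apply hf0
      rw [zero_add]
      have : (1 : ℤ) ≤ |n| := Int.one_le_abs hn
      exact_mod_cast this
  rw [hl] at key
  have hr : ∑' n : ℤ, 𝓕 f (n : ℝ) * fourier n ((0 : ℝ) : UnitAddCircle) =
      ((1 / P * ∑' n : ℤ, qk 0 (p + (-n : ℤ) * G) : ℝ) : ℂ) := by
    rw [← tsum_mul_left, Complex.ofReal_tsum]
    refine tsum_congr fun n => ?_
    rw [hF]
    simp
  rw [hr] at key
  have key2 : 1 = 1 / P * ∑' n : ℤ, qk 0 (p + (-n : ℤ) * G) := by exact_mod_cast key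
  have key3 : ∑' n : ℤ, qk 0 (p + n * G) = P := by
    have h1 : ∑' n : ℤ, qk 0 (p + (-n : ℤ) * G) = ∑' n : ℤ, qk 0 (p + n * G) :=
      (Equiv.neg ℤ).tsum_eq fun n : ℤ => qk 0 (p + n * G)
    rw [h1] at key2
    field_simp at key2
    linarith
  rw [← key3]
  exact hs.hasSum

end Pool.Agent.Helper25.LG
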