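import Pool.Agent.Helper25.LG.Pla
import Pool.Agent.Helper25.LG.Bet
import Pool.Agent.Helper25.LG.Ker

/-!
# LG-REM: the Taylor remainder, and the bound for the integral of the deficit

`ρ(u) = hA a u - hT M a u = 2 (1-u)² T(au)`, `T(x) = ∑_{n > M} x^(2n)/(2n)! ≤ x^(2M+2)/(2M+2)! cosh x`,
`T'(x) ≤ x^(2M+1)/(2M+1)! cosh x` (compare term by term: `(2M+2+2k)! ≥ (2M+2)! (2k)!`), so on `[0,1]`
`|ρ| ≤ 2 T(a)`, `|ρ'| ≤ 4 T(a) + 2 a T'(a)` and `sqrt(∫ρ² + ∫ρ'²) ≤ 6 T(a) + 2 a T'(a) ≤ 3·cosh a · a^(2M+2)/(2M+1)!` if `M ≥ 2`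
(`6/(2M+2) + 2 ≤ 3`). `abs_part_le` with `A = 1`.
`∫_b ek a b = ∫ max 0 (Fh (hA a)) ≤ ∫ max 0 (Fh (hT M a)) + ∫ |Fh (hA a - hT M a)|`.
-/

open MeasureTheory Set Filter Topology
open Pool.Agent.Helper54.LG

namespace Pool.Agent.Helper25.LG

/-- The derivative of `hA a`. -/
private noncomputable def hAd30 (a u : ℝ) : ℝ :=
  -2 * (1 - u) * (2 * Real.cosh (a * u) - 1) + (1 - u) ^ 2 * (2 * (a * Real.sinh (a * u)))

private lemma hA_deriv30 (a u : ℝ) : HasDerivAt (hA a) (hAd30 a u) u := by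
  have hl : HasDerivAt (fun u : ℝ => 1 - u) (-1) u := by
    simpa using (hasDerivAt_id u).const_sub 1
  have hau : HasDerivAt (fun u : ℝ => a * u) a u := by
    simpa using (hasDerivAt_id u).const_mul a
  have hc : HasDerivAt (fun u : ℝ => Real.cosh (a * u)) (Real.sinh (a * u) * a) u :=
    (Real.hasDerivAt_cosh (a * u)).comp u hau
  have h := (hl.pow 2).mul ((hc.const_mul 2).sub_const 1)
  refine HasDerivAt.congr_deriv (f := hA a) h ?_
  simp only [hAd30, Pi.pow_apply]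
  push_cast
  ring

private lemma hAd_cont30 (a : ℝ) : Continuous (hAd30 a) := by
  unfold hAd30
  fun_prop

private lemma hA_one30 (a : ℝ) : hA a 1 = 0 := by
  simp [hA]

private lemma ek_eq30 (a b : ℝ) : ek a b = max 0 (Fh (hA a) b) := by
  unfold ek
  rw [qk_sub]

theorem ek_integrable (a : ℝ) : Integrable (fun b => ek a b) := by
  have h := (pos_part_le (γ := 1) (r := 0) (β := 1) one_pos (by simp) one_pos (hA_deriv30 a)
    (hAd_cont30 a) (hA_one30 a)).1
  simpa only [ek_eq30] using h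

private lemma fact_le30 (i j : ℕ) : ((i.factorial : ℝ) * (j.factorial : ℝ)) ≤ ((i + j).factorial : ℝ) := by
  exact_mod_cast Nat.le_of_dvd (Nat.factorial_pos _) (Nat.factorial_mul_factorial_dvd_factorial_add i j)

private lemma term_le30 {x : ℝ} (hx : 0 ≤ x) (i j : ℕ) :
    x ^ (i + j) / ((i + j).factorial : ℝ) ≤ x ^ i / (i.factorial : ℝ) * (x ^ j / (j.factorial : ℝ)) := by
  have hi : (0 : ℝ) < (i.factorial : ℝ) := by exact_mod_cast Nat.factorial_pos i
  have hj : (0 : ℝ) < (j.factorial : ℝ) := by exact_mod_cast Nat.factorial_pos j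
  rw [div_mul_div_comm, ← pow_add]
  exact div_le_div_of_nonneg_left (by positivity) (by positivity) (fact_le30 i j)

private lemma T_bound30 (M : ℕ) {x : ℝ} (hx : 0 ≤ x) :
    0 ≤ Real.cosh x - ∑ n ∈ Finset.range (M + 1), x ^ (2 * n) / ((2 * n).factorial : ℝ) ∧
    Real.cosh x - ∑ n ∈ Finset.range (M + 1), x ^ (2 * n) / ((2 * n).factorial : ℝ) ≤
      x ^ (2 * M + 2) / ((2 * M + 2).factorial : ℝ) * Real.cosh x := by
  have hs := Real.hasSum_cosh x
  have h1 := (hasSum_nat_add_iff' (M + 1)).mpr hs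
  have h2 := hs.mul_left (x ^ (2 * M + 2) / ((2 * M + 2).factorial : ℝ))
  refine ⟨h1.nonneg (fun n => by positivity), hasSum_le (fun n => ?_) h1 h2⟩
  have e : 2 * (n + (M + 1)) = (2 * M + 2) + 2 * n := by ring
  rw [e]
  exact term_le30 hx _ _

private lemma Td_bound30 (M : ℕ) {x : ℝ} (hx : 0 ≤ x) :
    0 ≤ Real.sinh x - ∑ n ∈ Finset.range M, x ^ (2 * n + 1) / ((2 * n + 1).factorial : ℝ) ∧
    Real.sinh x - ∑ n ∈ Finset.range M, x ^ (2 * n + 1) / ((2 * n + 1).factorial : ℝ) ≤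
      x ^ (2 * M + 1) / ((2 * M + 1).factorial : ℝ) * Real.cosh x := by
  have hs := Real.hasSum_sinh x
  have h1 := (hasSum_nat_add_iff' M).mpr hs
  have h2 := (Real.hasSum_cosh x).mul_left (x ^ (2 * M + 1) / ((2 * M + 1).factorial : ℝ))
  refine ⟨h1.nonneg (fun n => by positivity), hasSum_le (fun n => ?_) h1 h2⟩
  have e : 2 * (n + M) + 1 = (2 * M + 1) + 2 * n := by ring
  rw [e]
  exact term_le30 hx _ _

/-- the derivative of the Taylor polynomial of `cosh`. -/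
private lemma dsum30 (M : ℕ) (a x : ℝ) :
    ∑ n ∈ Finset.range (M + 1), (2 * n : ℝ) * a * x ^ (2 * n - 1) / ((2 * n).factorial : ℝ) =
      a * ∑ n ∈ Finset.range M, x ^ (2 * n + 1) / ((2 * n + 1).factorial : ℝ) := by
  rw [Finset.sum_range_succ', Finset.mul_sum]
  simp only [Nat.cast_zero, mul_zero, zero_mul, zero_div, add_zero]
  refine Finset.sum_congr rfl fun n _ => ?_
  have e1 : 2 * (n + 1) - 1 = 2 * n + 1 := by omega
  have e2 : 2 * (n + 1) = (2 * n + 1) + 1 := by ring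
  rw [e1, e2, Nat.factorial_succ]
  have hf : (0 : ℝ) < ((2 * n + 1).factorial : ℝ) := by exact_mod_cast Nat.factorial_pos _
  push_cast
  field_simp
  ring

private lemma rho_eq30 (M : ℕ) (a u : ℝ) : hA a u - hT M a u =
    2 * (1 - u) ^ 2 * (Real.cosh (a * u) - ∑ n ∈ Finset.range (M + 1), (a * u) ^ (2 * n) / ((2 * n).factorial : ℝ)) := by
  unfold hA hT
  ring

private lemma rhod_eq30 (M : ℕ) (a u : ℝ) : hAd30 a u - hT' M a u =
    -4 * (1 - u) * (Real.cosh (a * u) - ∑ n ∈ Finset.range (M + 1), (a * u) ^ (2 * n) / ((2 * n).factorial : ℝ)) +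
    2 * (1 - u) ^ 2 * (a * (Real.sinh (a * u) -
      ∑ n ∈ Finset.range M, (a * u) ^ (2 * n + 1) / ((2 * n + 1).factorial : ℝ))) := by
  unfold hAd30 hT'
  rw [dsum30]
  ring

private lemma sq_int_le30 {f : ℝ → ℝ} (hf : Continuous f) {B : ℝ} (hB : ∀ u ∈ Icc (0:ℝ) 1, |f u| ≤ B) :
    ∫ u in (0:ℝ)..1, f u ^ 2 ≤ B ^ 2 := by
  have h := intervalIntegral.integral_mono_on (μ := volume) (a := (0:ℝ)) (b := 1) (f := fun u => f u ^ 2)
    (g := fun _ => B ^ 2) zero_le_one (by apply Continuous.intervalIntegrable; fun_prop)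
    (by apply Continuous.intervalIntegrable; fun_prop) (fun u hu => by
      have h1 := hB u hu
      have h2 : |f u| ^ 2 ≤ B ^ 2 := pow_le_pow_left₀ (abs_nonneg _) h1 2
      rwa [sq_abs] at h2)
  simpa using h

private lemma sqrt_le30 {x y : ℝ} (hx : 0 ≤ x) (hy : 0 ≤ y) : Real.sqrt (x ^ 2 + y ^ 2) ≤ x + y := by
  apply Real.sqrt_le_iff.2
  constructor
  · positivity
  · nlinarith [mul_nonneg hx hy]

theorem ek_int_le {γ r β : ℝ} (hγ : 0 < γ) (hr : |r| < 1) (hβ : 0 < β) {M : ℕ} (hM : 2 ≤ M) {a : ℝ} (ha : 0 ≤ a) :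
    ∫ b : ℝ, ek a b ≤ Real.pi * QP γ r M a / β + β / 4 * Bw γ r - Real.pi +
      6 * Real.pi * Real.cosh a * a ^ (2 * M + 2) / ((2 * M + 1).factorial : ℝ) := by
  have hpos := pos_part_le hγ hr hβ (hT_deriv M a) (hT'_cont M a) (hT_one M a)
  rw [Qw_hT, hT_zero, mul_one] at hpos
  -- the remainder
  have hdr : ∀ u, HasDerivAt (fun u => hA a u - hT M a u) (hAd30 a u - hT' M a u) u := fun u =>
    (hA_deriv30 a u).sub (hT_deriv M a u)
  have hcr : Continuous (fun u => hAd30 a u - hT' M a u) := (hAd_cont30 a).sub (hT'_cont M a)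
  have h1r : (fun u => hA a u - hT M a u) 1 = 0 := by
    simp [hA_one30, hT_one]
  have hcr0 : Continuous (fun u => hA a u - hT M a u) := by
    rw [continuous_iff_continuousAt]
    exact fun u => (hdr u).continuousAt
  have habs := abs_part_le one_pos hdr hcr h1r
  have hint := (Fh_integrable hdr hcr h1r).1
  -- linearity
  have hlin : ∀ b, Fh (hA a) b = Fh (hT M a) b + Fh (fun u => hA a u - hT M a u) b := by
    intro b
    unfold Fh
    rw [← mul_add, ← intervalIntegral.integral_add]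
    · congr 1
      apply intervalIntegral.integral_congr
      intro u _
      simp only
      ring
    · have : Continuous (hT M a) := by
        rw [continuous_iff_continuousAt]
        exact fun u => (hT_deriv M a u).continuousAt
      apply Continuous.intervalIntegrable
      fun_prop
    · apply Continuous.intervalIntegrable
      exact hcr0.mul (by fun_prop)
  have step1 : ∫ b : ℝ, ek a b ≤ ∫ b : ℝ, (max 0 (Fh (hT M a) b) + |Fh (fun u => hA a u - hT M a u) b|) := by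
    apply integral_mono (ek_integrable a) (hpos.1.add hint.abs)
    intro b
    change ek a b ≤ max 0 (Fh (hT M a) b) + |Fh (fun u => hA a u - hT M a u) b|
    rw [ek_eq30, hlin b]
    apply max_le
    · have := le_max_left 0 (Fh (hT M a) b)
      have := abs_nonneg (Fh (fun u => hA a u - hT M a u) b)
      linarith
    · have := le_max_right 0 (Fh (hT M a) b)
      have := le_abs_self (Fh (fun u => hA a u - hT M a u) b)
      linarith
  rw [integral_add hpos.1 hint.abs] at step1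
  -- bounds on the unit interval
  set τ : ℝ := a ^ (2 * M + 2) / ((2 * M + 2).factorial : ℝ) * Real.cosh a with hτ
  set τ' : ℝ := a ^ (2 * M + 1) / ((2 * M + 1).factorial : ℝ) * Real.cosh a with hτ'
  have hch : 0 < Real.cosh a := Real.cosh_pos a
  have hτ0 : 0 ≤ τ := by positivity
  have hτ0' : 0 ≤ τ' := by positivity
  have hcosh : ∀ u ∈ Icc (0:ℝ) 1, 0 ≤ a * u ∧ a * u ≤ a ∧ Real.cosh (a * u) ≤ Real.cosh a := by
    intro u hu
    have h1 : 0 ≤ a * u := mul_nonneg ha hu.1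
    have h2 : a * u ≤ a := mul_le_of_le_one_right ha hu.2
    refine ⟨h1, h2, ?_⟩
    rw [Real.cosh_le_cosh, abs_of_nonneg h1, abs_of_nonneg ha]
    exact h2
  have hT1 : ∀ u ∈ Icc (0:ℝ) 1,
      0 ≤ Real.cosh (a * u) - ∑ n ∈ Finset.range (M + 1), (a * u) ^ (2 * n) / ((2 * n).factorial : ℝ) ∧
      Real.cosh (a * u) - ∑ n ∈ Finset.range (M + 1), (a * u) ^ (2 * n) / ((2 * n).factorial : ℝ) ≤ τ := by
    intro u hu
    obtain ⟨h1, h2, h3⟩ := hcosh u hu
    obtain ⟨b1, b2⟩ := T_bound30 M h1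
    refine ⟨b1, b2.trans ?_⟩
    rw [hτ]
    have hp : (a * u) ^ (2 * M + 2) ≤ a ^ (2 * M + 2) := pow_le_pow_left₀ h1 h2 _
    have hc0 : 0 ≤ Real.cosh (a * u) := (Real.cosh_pos _).le
    gcongr
  have hT2 : ∀ u ∈ Icc (0:ℝ) 1,
      0 ≤ Real.sinh (a * u) - ∑ n ∈ Finset.range M, (a * u) ^ (2 * n + 1) / ((2 * n + 1).factorial : ℝ) ∧
      Real.sinh (a * u) - ∑ n ∈ Finset.range M, (a * u) ^ (2 * n + 1) / ((2 * n + 1).factorial : ℝ) ≤ τ' := by
    intro u hu
    obtain ⟨h1, h2, h3⟩ := hcosh u hu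
    obtain ⟨b1, b2⟩ := Td_bound30 M h1
    refine ⟨b1, b2.trans ?_⟩
    rw [hτ']
    have hp : (a * u) ^ (2 * M + 1) ≤ a ^ (2 * M + 1) := pow_le_pow_left₀ h1 h2 _
    have hc0 : 0 ≤ Real.cosh (a * u) := (Real.cosh_pos _).le
    gcongr
  have hb1 : ∀ u ∈ Icc (0:ℝ) 1, |hA a u - hT M a u| ≤ 2 * τ := by
    intro u hu
    obtain ⟨c1, c2⟩ := hT1 u hu
    rw [rho_eq30, abs_of_nonneg (by positivity)]
    have hu1 : 0 ≤ 1 - u := by linarith [hu.2]
    have hu2 : (1 - u) ^ 2 ≤ 1 := by nlinarith [hu.1]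
    calc _ ≤ 2 * 1 * τ := by gcongr
      _ = 2 * τ := by ring
  have hb2 : ∀ u ∈ Icc (0:ℝ) 1, |hAd30 a u - hT' M a u| ≤ 4 * τ + 2 * (a * τ') := by
    intro u hu
    obtain ⟨c1, c2⟩ := hT1 u hu
    obtain ⟨d1, d2⟩ := hT2 u hu
    have hu1 : 0 ≤ 1 - u := by linarith [hu.2]
    have hu1' : 1 - u ≤ 1 := by linarith [hu.1]
    have hu2 : (1 - u) ^ 2 ≤ 1 := by nlinarith [hu.1]
    rw [rhod_eq30]
    refine (abs_add_le _ _).trans ?_
    apply add_le_add
    · rw [abs_mul, abs_mul, abs_of_nonneg hu1, abs_of_nonneg c1]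
      have : |(-4 : ℝ)| = 4 := by norm_num
      rw [this]
      calc _ ≤ 4 * 1 * τ := by gcongr
        _ = 4 * τ := by ring
    · rw [abs_of_nonneg (by positivity)]
      calc _ ≤ 2 * 1 * (a * τ') := by gcongr
        _ = 2 * (a * τ') := by ring
  have hs1 := sq_int_le30 hcr0 hb1
  have hs2 := sq_int_le30 hcr hb2
  have hsq : Real.sqrt (1 * ((∫ u in (0:ℝ)..1, (hA a u - hT M a u) ^ 2) +
      (∫ u in (0:ℝ)..1, (hAd30 a u - hT' M a u) ^ 2) / 1 ^ 2)) ≤
      3 * Real.cosh a * a ^ (2 * M + 2) / ((2 * M + 1).factorial : ℝ) := by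
    have hle : 1 * ((∫ u in (0:ℝ)..1, (hA a u - hT M a u) ^ 2) +
      (∫ u in (0:ℝ)..1, (hAd30 a u - hT' M a u) ^ 2) / 1 ^ 2) ≤ (2 * τ) ^ 2 + (4 * τ + 2 * (a * τ')) ^ 2 := by
      rw [one_mul, one_pow, div_one]
      exact add_le_add hs1 hs2
    refine (Real.sqrt_le_sqrt hle).trans ((sqrt_le30 (by positivity) (by positivity)).trans ?_)
    have hf : (0 : ℝ) < ((2 * M + 1).factorial : ℝ) := by exact_mod_cast Nat.factorial_pos _
    have hfac : (((2 * M + 2).factorial : ℕ) : ℝ) = (2 * M + 2) * ((2 * M + 1).factorial : ℝ) := by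
      rw [show 2 * M + 2 = (2 * M + 1) + 1 by ring, Nat.factorial_succ]
      push_cast
      ring
    have hM' : (2 : ℝ) ≤ (M : ℝ) := by exact_mod_cast hM
    set q : ℝ := a ^ (2 * M + 2) / ((2 * M + 1).factorial : ℝ) * Real.cosh a with hq
    have hq0 : 0 ≤ q := by positivity
    have e1 : a * τ' = q := by
      rw [hτ', hq, pow_succ]
      ring
    have e2 : 6 * τ ≤ q := by
      have : τ = q / (2 * M + 2) := by
        rw [hτ, hq, hfac]
        field_simp
      rw [this, mul_div_assoc', div_le_iff₀ (by positivity)]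
      nlinarith
    have e3 : 3 * Real.cosh a * a ^ (2 * M + 2) / ((2 * M + 1).factorial : ℝ) = 3 * q := by
      rw [hq]; ring
    rw [e1, e3]
    linarith
  have hfin : ∫ b : ℝ, |Fh (fun u => hA a u - hT M a u) b| ≤
      6 * Real.pi * Real.cosh a * a ^ (2 * M + 2) / ((2 * M + 1).factorial : ℝ) := by
    refine habs.trans ?_
    have := mul_le_mul_of_nonneg_left hsq (by positivity : 0 ≤ 2 * Real.pi)
    refine this.trans (le_of_eq ?_)
    ring
  linarith [hpos.2]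

end Pool.Agent.Helper25.LG
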